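import Pool.Agent.E8helper67.EL.Half
set_option autoImplicit false

/-!
A model with unit discriminant and an integral torsion point, for every integral `j`.
-/

namespace Pool.Agent.E8helper67.EL

open Polynomial

open WeierstrassCurve.Affine

variable {k : Type*} [Field k] [CharZero k]

omit [CharZero k] in
theorem exists_root' [IsAlgClosed k] {p : k[X]} (h : 0 < p.natDegree) : ∃ x, p.eval x = 0 :=
  IsAlgClosed.exists_root p (natDegree_pos_iff_degree_pos.1 h).ne'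

omit [CharZero k] in
/-- doubling -/
theorem double_some [DecidableEq k] {W : WeierstrassCurve k} {x y m : k}
    (h : W.toAffine.Nonsingular x y)
    (hη : A3 W x y ≠ 0) (hm : 3 * x ^ 2 + 2 * W.a₂ * x + W.a₄ - W.a₁ * y = m * A3 W x y) :
    ∃ h' : W.toAffine.Nonsingular (W.toAffine.addX x x m) (W.toAffine.addY x x y m),
      2 • Point.some x y h = Point.some _ _ h' := by
  have hYne : y ≠ W.toAffine.negY x y := by
    intro h0
    apply hη
    unfold negY at h0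
    unfold A3
    linear_combination h0
  have hsl : W.toAffine.slope x x y y = m := by
    rw [slope_of_Y_ne rfl hYne, div_eq_iff (sub_ne_zero.2 hYne)]
    have h5 : y - W.toAffine.negY x y = A3 W x y := by
      unfold negY A3
      ring
    rw [h5]
    exact hm
  subst hsl
  exact ⟨_, by rw [two_nsmul, Point.add_self_of_Y_ne hYne]⟩

omit [CharZero k] in
/-- flexes are torsion points of order three -/
theorem three_flex [DecidableEq k] {W : WeierstrassCurve k} {x y m : k}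
    (h : W.toAffine.Nonsingular x y)
    (hη : A3 W x y ≠ 0) (hm : 3 * x ^ 2 + 2 * W.a₂ * x + W.a₄ - W.a₁ * y = m * A3 W x y)
    (hf : m ^ 2 + W.a₁ * m - W.a₂ - 3 * x = 0) : 3 • Point.some x y h = 0 := by
  obtain ⟨h', hh⟩ := double_some h hη hm
  have h1 : 2 • Point.some x y h = -Point.some x y h := by
    rw [hh, Point.neg_some, Point.some.injEq]
    have h5 : W.toAffine.addX x x m = x := by
      unfold addX
      linear_combination hf
    refine ⟨h5, ?_⟩
    unfold addY negAddY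
    rw [h5]
    congr 1
    ring
  have h3 : 3 • Point.some x y h = 2 • Point.some x y h + Point.some x y h := by
    rw [← succ_nsmul]
  rw [h3, h1, neg_add_cancel]

theorem exists_base [DecidableEq k] [IsAlgClosed k] {j : k} (hj : IsIntegral ℤ j) :
    ∃ W : WeierstrassCurve k, GoodW W ∧ TorsPt W 0 0 ∧ W.c₄ ^ 3 = j * W.Δ := by
  have hn := isIntegral_ofNat (k := k)
  -- the parameter `β`
  obtain ⟨β, hβ⟩ : ∃ β : k, β ^ 4 + 36 * β ^ 3 + 270 * β ^ 2 + (756 - j) * β + 729 = 0 := by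
    have hd : (X ^ 4 + C (36 : k) * X ^ 3 + C (270 : k) * X ^ 2 + C (756 - j) * X +
        C (729 : k)).natDegree = 4 := by compute_degree!
    obtain ⟨β, hβ⟩ := exists_root' (p := X ^ 4 + C (36 : k) * X ^ 3 + C (270 : k) * X ^ 2 +
      C (756 - j) * X + C (729 : k)) (by omega)
    refine ⟨β, ?_⟩
    simpa using hβ
  have hβ0 : β ≠ 0 := by
    rintro rfl
    norm_num at hβ
  have hβi : IsIntegral ℤ β := by
    refine isIntegral_of_root (F := X ^ 4 + C (36 : k) * X ^ 3 + C (270 : k) * X ^ 2 +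
      C (756 - j) * X + C (729 : k)) (by monicity!) ?_ ?_ ?_
    · have hd : (X ^ 4 + C (36 : k) * X ^ 3 + C (270 : k) * X ^ 2 + C (756 - j) * X +
        C (729 : k)).natDegree = 4 := by compute_degree!
      omega
    · exact ((((intC_X.pow 4).add ((intC_C (hn 36)).mul (intC_X.pow 3))).add
        ((intC_C (hn 270)).mul (intC_X.pow 2))).add ((intC_C ((hn 756).sub hj)).mul intC_X)).add
        (intC_C (hn 729))
    · simpa using hβ
  have hγi : IsIntegral ℤ (729 / β) := by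
    have h1 : 729 / β = -(β ^ 3 + 36 * β ^ 2 + 270 * β + (756 - j)) := by
      field_simp
      linear_combination hβ
    rw [h1]
    exact (((((hβi.pow 3)).add ((hn 36).mul (hβi.pow 2))).add ((hn 270).mul hβi)).add
      ((hn 756).sub hj)).neg
  -- `α`, `ξ`
  obtain ⟨α, hα⟩ := IsAlgClosed.exists_pow_nat_eq (β + 27) (n := 3) (by norm_num)
  have hαi : IsIntegral ℤ α := by
    refine IsIntegral.of_pow (n := 3) (by norm_num) ?_
    rw [hα]
    exact hβi.add (hn 27)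
  obtain ⟨ξ, hξ⟩ : ∃ ξ : k, ξ ^ 3 - α * ξ - 2 = 0 := by
    have hd : (X ^ 3 - C α * X - C (2 : k)).natDegree = 3 := by compute_degree!
    obtain ⟨ξ, hξ⟩ := exists_root' (p := X ^ 3 - C α * X - C (2 : k)) (by omega)
    refine ⟨ξ, ?_⟩
    simpa using hξ
  have hξ0 : ξ ≠ 0 := by
    rintro rfl
    norm_num at hξ
  have hξi : IsIntegral ℤ ξ := by
    refine isIntegral_of_root (F := X ^ 3 - C α * X - C (2 : k)) (by monicity!) ?_ ?_ ?_
    · have hd : (X ^ 3 - C α * X - C (2 : k)).natDegree = 3 := by compute_degree!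
      omega
    · exact ((intC_X.pow 3).sub ((intC_C hαi).mul intC_X)).sub (intC_C (hn 2))
    · simpa using hξ
  -- `ρ`
  obtain ⟨ρ, hρ⟩ : ∃ ρ : k, ρ = ξ ^ 3 + 1 := ⟨_, rfl⟩
  have hρi : IsIntegral ℤ ρ := by
    rw [hρ]
    exact (hξi.pow 3).add isIntegral_one
  have hβρ : β * ξ ^ 3 = ρ ^ 2 * (ρ - 9) := by
    have h1 : α * ξ = ρ - 3 := by linear_combination -hξ - hρ
    have h2 : (α * ξ) ^ 3 = (β + 27) * ξ ^ 3 := by rw [mul_pow, hα]
    rw [h1] at h2
    linear_combination -h2 + 27 * hρ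
  have hρ0 : ρ ≠ 0 := by
    rintro rfl
    rw [zero_pow two_ne_zero, zero_mul] at hβρ
    exact mul_ne_zero hβ0 (pow_ne_zero 3 hξ0) hβρ
  have hρ9 : ρ - 9 ≠ 0 := by
    intro h0
    rw [h0, mul_zero] at hβρ
    exact mul_ne_zero hβ0 (pow_ne_zero 3 hξ0) hβρ
  have hmin : ρ ^ 3 - 9 * ρ ^ 2 - β * ρ + β = 0 := by
    linear_combination -hβρ - β * hρ
  -- `λ`, `A`, `σ`, `a₁`
  obtain ⟨l, hl⟩ := IsAlgClosed.exists_pow_nat_eq ρ (n := 4) (by norm_num)
  have hl0 : l ≠ 0 := by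
    rintro rfl
    rw [zero_pow (by norm_num)] at hl
    exact hρ0 hl.symm
  have hli : IsIntegral ℤ l := by
    refine IsIntegral.of_pow (n := 4) (by norm_num) ?_
    rw [hl]
    exact hρi
  obtain ⟨A, hA⟩ : ∃ A : k, A = 2 * ξ ^ 2 - α := ⟨_, rfl⟩
  have hAi : IsIntegral ℤ A := by
    rw [hA]
    exact ((hn 2).mul (hξi.pow 2)).sub hαi
  have hAξ : A * ξ = ρ + 1 := by
    rw [hA]
    linear_combination hξ - hρ
  obtain ⟨σ, hσ⟩ : ∃ σ : k, σ ^ 2 - A * σ - ξ = 0 := by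
    have hd : (X ^ 2 - C A * X - C ξ).natDegree = 2 := by compute_degree!
    obtain ⟨σ, hσ⟩ := exists_root' (p := X ^ 2 - C A * X - C ξ) (by omega)
    refine ⟨σ, ?_⟩
    simpa using hσ
  have hσi : IsIntegral ℤ σ := by
    refine isIntegral_of_root (F := X ^ 2 - C A * X - C ξ) (by monicity!) ?_ ?_ ?_
    · have hd : (X ^ 2 - C A * X - C ξ).natDegree = 2 := by compute_degree!
      omega
    · exact ((intC_X.pow 2).sub ((intC_C hAi).mul intC_X)).sub (intC_C hξi)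
    · simpa using hσ
  obtain ⟨a, ha⟩ : ∃ a : k, a * l = A - 2 * σ := ⟨(A - 2 * σ) / l, by field_simp⟩
  have ha2 : a ^ 2 * l ^ 2 = A ^ 2 + 4 * ξ := by
    linear_combination (a * l + A - 2 * σ) * ha + 4 * hσ
  have hξA : ξ ^ 2 * (A ^ 2 + 4 * ξ) = ρ ^ 2 + 6 * ρ - 3 := by
    linear_combination (A * ξ + ρ + 1) * hAξ - 4 * hρ
  -- integrality of `a`
  have hmi : IsIntegral ℤ (9 / ρ) := by
    refine isIntegral_of_root (F := X ^ 3 - C (9 : k) * X ^ 2 - C (729 / β) * X + C (729 / β))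
      (by monicity!) ?_ ?_ ?_
    · have hd : (X ^ 3 - C (9 : k) * X ^ 2 - C (729 / β) * X + C (729 / β)).natDegree = 3 := by
        compute_degree!
      omega
    · exact (((intC_X.pow 3).sub ((intC_C (hn 9)).mul (intC_X.pow 2))).sub
        ((intC_C hγi).mul intC_X)).add (intC_C hγi)
    · simp only [eval_sub, eval_add, eval_mul, eval_pow, eval_X, eval_C]
      field_simp
      linear_combination 729 * hmin
  have h3i : IsIntegral ℤ (3 / l ^ 2) := by
    refine IsIntegral.of_pow (n := 2) (by norm_num) ?_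
    have h1 : (3 / l ^ 2) ^ 2 = 9 / ρ := by
      rw [← hl]
      field_simp
      norm_num
    rw [h1]
    exact hmi
  have ha2i : IsIntegral ℤ (a ^ 2) := by
    have h1 : a ^ 2 = l ^ 2 * (A ^ 2 + 4 * ξ) - ξ * (l ^ 6 + 6 * l ^ 2 - 3 / l ^ 2) := by
      have h2 : ξ ^ 2 * a ^ 2 = l ^ 6 + 6 * l ^ 2 - 3 / l ^ 2 := by
        field_simp
        linear_combination ξ ^ 2 * ha2 + hξA - (ρ + l ^ 4 + 6) * hl
      rw [← h2]
      linear_combination l ^ 2 * ha2 - a ^ 2 * hl - a ^ 2 * hρ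
    rw [h1]
    exact ((hli.pow 2).mul ((hAi.pow 2).add ((hn 4).mul hξi))).sub
      (hξi.mul (((hli.pow 6).add ((hn 6).mul (hli.pow 2))).sub h3i))
  have hai : IsIntegral ℤ a := IsIntegral.of_pow (n := 2) (by norm_num) ha2i
  -- the model
  set W : WeierstrassCurve k := ⟨a, 0, l, σ, 0⟩ with hW
  have hb2 : W.b₂ = a ^ 2 := by simp [hW, WeierstrassCurve.b₂]
  have hb4 : W.b₄ = A := by
    simp only [hW, WeierstrassCurve.b₄]
    linear_combination ha
  have hb6 : W.b₆ = l ^ 2 := by simp [hW, WeierstrassCurve.b₆]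
  have hb8 : W.b₈ = ξ := by
    simp only [hW, WeierstrassCurve.b₈]
    linear_combination hσ - σ * ha
  have e4 : ξ ^ 3 = ρ - 1 := by linear_combination -hρ
  have e1 : a ^ 4 * ρ = (A ^ 2 + 4 * ξ) ^ 2 := by
    rw [← hl]
    linear_combination (a ^ 2 * l ^ 2 + A ^ 2 + 4 * ξ) * ha2
  have e2 : (ξ ^ 2 * (A ^ 2 + 4 * ξ)) ^ 2 = (ρ ^ 2 + 6 * ρ - 3) ^ 2 := by rw [hξA]
  have e3 : (A * ξ) ^ 3 = (ρ + 1) ^ 3 := by rw [hAξ]
  have hΔ : W.Δ * ρ ^ 3 = β := by
    have h1a : W.Δ * ρ = -(A ^ 2 + 4 * ξ) ^ 2 * ξ + A ^ 3 * ρ + 36 * A * ξ * ρ - 27 * ρ ^ 2 := by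
      simp only [WeierstrassCurve.Δ, hb2, hb4, hb6, hb8]
      linear_combination -ξ * e1 - 27 * ρ * hl + 9 * A * ρ * ha2
    have h1 : W.Δ * (ρ * ξ ^ 3) = ρ - 9 := by
      linear_combination ξ ^ 3 * h1a - e2 + ρ * e3 + 36 * ρ * ξ ^ 3 * hAξ +
        (36 * ρ * (ρ + 1) - 27 * ρ ^ 2) * e4
    apply mul_right_cancel₀ (pow_ne_zero 3 hξ0)
    linear_combination ρ ^ 2 * h1 - hβρ
  have hΔ0 : W.Δ ≠ 0 := by
    intro h0
    rw [h0, zero_mul] at hΔ
    exact hβ0 hΔ.symm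
  have hc4 : W.c₄ ^ 3 = j * W.Δ := by
    have h1 : W.c₄ * ρ * ξ ^ 4 = (ρ - 3) * (ρ ^ 3 - 9 * ρ ^ 2 + 3 * ρ - 3) := by
      simp only [WeierstrassCurve.c₄, hb2, hb4]
      linear_combination ξ ^ 4 * e1 + e2 - 24 * ρ * ξ ^ 3 * hAξ - 24 * ρ * (ρ + 1) * e4
    have h2 : (β + 27) * ξ ^ 3 = (ρ - 3) ^ 3 := by
      linear_combination hβρ + 27 * e4
    have h3 : (β + 3) * ξ ^ 3 = ρ ^ 3 - 9 * ρ ^ 2 + 3 * ρ - 3 := by
      linear_combination hβρ + 3 * e4
    have h4 : j * β = (β + 27) * (β + 3) ^ 3 := by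
      linear_combination -hβ
    have h5 : (W.c₄ * ρ * ξ ^ 4) ^ 3 = (β + 27) * ξ ^ 3 * ((β + 3) * ξ ^ 3) ^ 3 := by
      rw [h1, h2, h3]
      ring
    apply mul_right_cancel₀ (mul_ne_zero (pow_ne_zero 3 hρ0) (pow_ne_zero 12 hξ0))
    linear_combination h5 - ξ ^ 12 * h4 - j * ξ ^ 12 * hΔ
  have hy : (W.Δ)⁻¹ = ρ ^ 3 / β := by
    rw [← hΔ]
    field_simp
  have hΔi : IsIntegral ℤ (W.Δ)⁻¹ := by
    rw [hy]
    refine isIntegral_of_root (F := X ^ 3 - C (729 / β + 24) * X ^ 2 - C (β + 24) * X + C 1)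
      (by monicity!) ?_ ?_ ?_
    · have hd : (X ^ 3 - C (729 / β + 24) * X ^ 2 - C (β + 24) * X + C 1 : k[X]).natDegree = 3 := by
        compute_degree!
      omega
    · exact (((intC_X.pow 3).sub ((intC_C (hγi.add (hn 24))).mul (intC_X.pow 2))).sub
        ((intC_C (hβi.add (hn 24))).mul intC_X)).add (intC_C isIntegral_one)
    · simp only [eval_sub, eval_add, eval_mul, eval_pow, eval_X, eval_C]
      field_simp
      linear_combination ((ρ ^ 3 + β) ^ 2 + (β * ρ) ^ 2 + (9 * ρ ^ 2) ^ 2 +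
        (ρ ^ 3 + β) * (β * ρ) - (β * ρ) * (9 * ρ ^ 2) + (ρ ^ 3 + β) * (9 * ρ ^ 2)) * hmin
  have hgood : GoodW W := by
    refine ⟨hai, isIntegral_zero, hli, hσi, isIntegral_zero, hΔ0, hΔi⟩
  -- the torsion point
  have heq : W.toAffine.Equation 0 0 := by
    rw [equation_iff]
    simp [hW]
  have hns := (W.toAffine.equation_iff_nonsingular_of_Δ_ne_zero hΔ0).1 heq
  have hη : A3 W 0 0 ≠ 0 := by
    simp only [A3, hW]
    simpa using hl0
  have hm1 : 3 * (0 : k) ^ 2 + 2 * W.a₂ * 0 + W.a₄ - W.a₁ * 0 = (σ / l) * A3 W 0 0 := by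
    simp only [A3, hW]
    field_simp
    ring
  obtain ⟨h', hh⟩ := double_some hns hη hm1
  refine ⟨W, hgood, ⟨isIntegral_zero, isIntegral_zero, hns, 2 * 3, by norm_num, ?_⟩, hc4⟩
  rw [mul_nsmul, hh]
  have hX : W.toAffine.addX 0 0 (σ / l) = -ξ / l ^ 2 := by
    simp only [addX, hW]
    field_simp
    linear_combination σ * ha - hσ
  have hY : W.toAffine.addY 0 0 0 (σ / l) = (σ / l + a) * (ξ / l ^ 2) - l := by
    unfold addY negAddY
    rw [hX]
    simp only [negY, hW]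
    ring
  have hlξ : l ^ 4 = ξ ^ 3 + 1 := by rw [hl, hρ]
  refine three_flex (m := (σ - 2 / ξ) / l) _ ?_ ?_ ?_
  · rw [hX, hY]
    have h1 : A3 W (-ξ / l ^ 2) ((σ / l + a) * (ξ / l ^ 2) - l) = 1 / l ^ 3 := by
      simp only [A3, hW]
      field_simp
      linear_combination ξ * ha + hAξ - hl
    rw [h1]
    exact one_div_ne_zero (pow_ne_zero 3 hl0)
  · rw [hX, hY]
    simp only [A3, hW]
    have key : ∀ u r : k, u = A - 2 * σ → r = ρ →
        ξ * (3 * ξ ^ 2 + r * σ - u * (ξ * (σ + u) - r)) =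
          (ξ * σ - 2) * (2 * (ξ * (σ + u) - r) - ξ * u + r) := by
      rintro u r rfl rfl
      linear_combination -2 * ξ ^ 2 * hσ - hρ - (A * ξ - 1) * hAξ
    have key' := key (l * a) (l ^ 4) (by linear_combination ha) hl
    field_simp
    linear_combination key'
  · rw [hX]
    simp only [hW]
    field_simp
    linear_combination ξ * (σ * ξ - 2) * ha - ξ ^ 2 * hσ - 2 * hAξ - 2 * hρ

end Pool.Agent.E8helper67.EL
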