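import Mathlib
set_option autoImplicit false

/-!
Quartic polynomials with collinear roots, and the quartic of the halved point.
-/

namespace Pool.Agent.E8helper67.EL

/-- the discriminant of `x⁴ + p x² + q x + r` -/
def D4 {R : Type*} [CommRing R] (p q r : R) : R :=
  16 * p ^ 4 * r - 4 * p ^ 3 * q ^ 2 - 128 * p ^ 2 * r ^ 2 + 144 * p * q ^ 2 * r - 27 * q ^ 4 +
    256 * r ^ 3

/-- the roots of `x⁴ + p x² + q x + r` are on a line through zero -/
def CollC (p q r : ℂ) : Prop :=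
  ∃ l : ℂ, l ≠ 0 ∧ ∀ z : ℂ, z ^ 4 + p * z ^ 2 + q * z + r = 0 → (l * z).im = 0

/-- the coefficients of the quartic of the halved point -/
def tP {R : Type*} [CommRing R] (p e : R) : R := -2 * (p + 6 * e ^ 2)

def tQ {R : Type*} [CommRing R] (p q e : R) : R := -8 * (4 * e ^ 3 + 2 * p * e + q)

def tR {R : Type*} [CommRing R] (p q e : R) : R :=
  p ^ 2 - 20 * p * e ^ 2 - 28 * e ^ 4 - 16 * e * q

theorem exists_roots (p q r : ℂ) : ∃ a b c d : ℂ, a + b + c + d = 0 ∧
    p = a * b + a * c + a * d + b * c + b * d + c * d ∧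
    q = -(a * b * c + a * b * d + a * c * d + b * c * d) ∧ r = a * b * c * d ∧
    ∀ z : ℂ, z ^ 4 + p * z ^ 2 + q * z + r = (z - a) * (z - b) * (z - c) * (z - d) := by
  open Polynomial in
  set g : ℂ[X] := X ^ 4 + C p * X ^ 2 + C q * X + C r with hg
  have hd : g.natDegree = 4 := by rw [hg]; compute_degree!
  have hm : g.Monic := by rw [hg]; monicity!
  have hcard : g.roots.card = 4 := by
    rw [← (IsAlgClosed.splits g).natDegree_eq_card_roots, hd]
  obtain ⟨a, b, c, d, habcd⟩ := Multiset.card_eq_four.1 hcard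
  have hprod := (IsAlgClosed.splits g).eq_prod_roots_of_monic hm
  rw [habcd] at hprod
  have hz : ∀ z : ℂ, z ^ 4 + p * z ^ 2 + q * z + r = (z - a) * (z - b) * (z - c) * (z - d) := by
    intro z
    have h1 := congrArg (Polynomial.eval z) hprod
    have h2 : g.eval z = z ^ 4 + p * z ^ 2 + q * z + r := by
      rw [hg]; simp
    rw [h2] at h1
    rw [h1]
    simp
    ring
  have h0 := hz 0
  have h1 := hz 1
  have h2 := hz (-1)
  have h3 := hz 2
  refine ⟨a, b, c, d, ?_, ?_, ?_, ?_, hz⟩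
  · linear_combination (1 / 2) * h0 - (1 / 2) * h1 - (1 / 6) * h2 + (1 / 6) * h3
  · linear_combination (1 / 2) * h1 + (1 / 2) * h2 - h0
  · linear_combination (-1 / 2) * h0 + h1 - (1 / 3) * h2 - (1 / 6) * h3
  · linear_combination h0

theorem D4_roots {R : Type*} [CommRing R] {a b c d p q r : R} (h : a + b + c + d = 0)
    (hp : p = a * b + a * c + a * d + b * c + b * d + c * d)
    (hq : q = -(a * b * c + a * b * d + a * c * d + b * c * d)) (hr : r = a * b * c * d) :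
    D4 p q r = ((a - b) * (a - c) * (a - d) * (b - c) * (b - d) * (c - d)) ^ 2 := by
  have hd : d = -a - b - c := by linear_combination h
  subst hd
  subst hp hq hr
  unfold D4
  ring

theorem D4_tilde {R : Type*} [CommRing R] {p q r e : R} (h : e ^ 4 + p * e ^ 2 + q * e + r = 0) :
    D4 (tP p e) (tQ p q e) (tR p q e) = 4096 * D4 p q r := by
  have hr : r = -(e ^ 4 + p * e ^ 2 + q * e) := by linear_combination h
  subst hr
  unfold D4 tP tQ tR
  ring

theorem CollC.scale {p q r : ℂ} {m : ℂ} (hm : m ≠ 0) :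
    CollC (m ^ 2 * p) (m ^ 3 * q) (m ^ 4 * r) ↔ CollC p q r := by
  constructor
  · rintro ⟨l, hl, h⟩
    refine ⟨l * m, mul_ne_zero hl hm, fun z hz => ?_⟩
    rw [mul_assoc]
    refine h _ ?_
    linear_combination m ^ 4 * hz
  · rintro ⟨l, hl, h⟩
    refine ⟨l / m, div_ne_zero hl hm, fun z hz => ?_⟩
    have e1 : l / m * z = l * (z / m) := by ring
    rw [e1]
    refine h _ ?_
    field_simp
    linear_combination hz

/-- a real quartic with a real root and nonnegative discriminant -/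
theorem real_root {p q r e : ℝ} (he : e ^ 4 + p * e ^ 2 + q * e + r = 0) (hD : 0 < D4 p q r)
    {z : ℂ} (hz : z ^ 4 + (p : ℂ) * z ^ 2 + (q : ℂ) * z + (r : ℂ) = 0) : z.im = 0 := by
  by_contra hv
  obtain ⟨u, v⟩ := z
  simp only at hv
  have h1 := congrArg Complex.re hz
  have h2 := congrArg Complex.im hz
  simp [pow_succ] at h1 h2
  have hr : r = -(e ^ 4 + p * e ^ 2 + q * e) := by linear_combination he
  -- imaginary part divided by `v`
  have h3 : 4 * u ^ 3 - 4 * u * v ^ 2 + 2 * p * u + q = 0 := by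
    apply mul_left_cancel₀ hv
    linear_combination h2
  have h4 : u ^ 4 - 6 * u ^ 2 * v ^ 2 + v ^ 4 + p * (u ^ 2 - v ^ 2) + q * u + r = 0 := by
    linear_combination h1
  have hne : (e - u) ^ 2 + v ^ 2 ≠ 0 := by positivity
  have hp : p = -(3 * u ^ 2 - v ^ 2 + 2 * e * u + e ^ 2) := by
    apply mul_left_cancel₀ hne
    rw [hr] at h4
    linear_combination -h4 + (u - e) * h3
  have hq : q = 4 * u * v ^ 2 - 4 * u ^ 3 - 2 * p * u := by linear_combination h3
  have h5 : D4 p q r = -4 * v ^ 2 * ((e - (-e - 2 * u)) * ((e - u) ^ 2 + v ^ 2) *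
      (((-e - 2 * u) - u) ^ 2 + v ^ 2)) ^ 2 := by
    rw [hq] at hr
    subst hr
    rw [hq]
    subst hp
    unfold D4
    ring
  rw [h5] at hD
  have h6 : 0 ≤ 4 * v ^ 2 * ((e - (-e - 2 * u)) * ((e - u) ^ 2 + v ^ 2) *
      (((-e - 2 * u) - u) ^ 2 + v ^ 2)) ^ 2 := by positivity
  linarith

theorem im_add {z w : ℂ} (hz : z.im = 0) (hw : w.im = 0) : (z + w).im = 0 := by
  rw [Complex.add_im, hz, hw, add_zero]

theorem im_mul {z w : ℂ} (hz : z.im = 0) (hw : w.im = 0) : (z * w).im = 0 := by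
  rw [Complex.mul_im, hz, hw, mul_zero, zero_mul, add_zero]

theorem im_neg {z : ℂ} (hz : z.im = 0) : (-z).im = 0 := by
  rw [Complex.neg_im, hz, neg_zero]

theorem re_of_im {z : ℂ} (hz : z.im = 0) : z = ((z.re : ℝ) : ℂ) := by
  apply Complex.ext
  · simp
  · simp [hz]

/-- If the roots of the quartic of the halved point are collinear, then so are the roots of the
quartic. -/
theorem coll_of_tilde {p q r e : ℂ} (he : e ^ 4 + p * e ^ 2 + q * e + r = 0)
    (hD : D4 p q r ≠ 0) (hQ : tQ p q e ≠ 0) (h : CollC (tP p e) (tQ p q e) (tR p q e)) :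
    CollC p q r := by
  obtain ⟨l, hl, hz⟩ := h
  rw [← CollC.scale hl]
  obtain ⟨a, b, c, d, h0, h2, h3, h4, hroot⟩ := exists_roots (tP p e) (tQ p q e) (tR p q e)
  have ha : (l * a).im = 0 := hz a (by rw [hroot]; ring)
  have hb : (l * b).im = 0 := hz b (by rw [hroot]; ring)
  have hc : (l * c).im = 0 := hz c (by rw [hroot]; ring)
  have hd : (l * d).im = 0 := hz d (by rw [hroot]; ring)
  have hDne : D4 (tP p e) (tQ p q e) (tR p q e) ≠ 0 := by
    rw [D4_tilde he]
    exact mul_ne_zero (by norm_num) hD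
  -- the scaled coefficients are real
  have hP2 : (l ^ 2 * tP p e).im = 0 := by
    have e1 : l ^ 2 * tP p e = l * a * (l * b) + l * a * (l * c) + l * a * (l * d) +
        l * b * (l * c) + l * b * (l * d) + l * c * (l * d) := by rw [h2]; ring
    rw [e1]
    exact im_add (im_add (im_add (im_add (im_add (im_mul ha hb) (im_mul ha hc)) (im_mul ha hd))
      (im_mul hb hc)) (im_mul hb hd)) (im_mul hc hd)
  have hQ2 : (l ^ 3 * tQ p q e).im = 0 := by
    have e1 : l ^ 3 * tQ p q e = -(l * a * (l * b) * (l * c) + l * a * (l * b) * (l * d) +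
        l * a * (l * c) * (l * d) + l * b * (l * c) * (l * d)) := by rw [h3]; ring
    rw [e1]
    exact im_neg (im_add (im_add (im_add (im_mul (im_mul ha hb) hc) (im_mul (im_mul ha hb) hd))
      (im_mul (im_mul ha hc) hd)) (im_mul (im_mul hb hc) hd))
  have hR2 : (l ^ 4 * tR p q e).im = 0 := by
    have e1 : l ^ 4 * tR p q e = l * a * (l * b) * (l * c) * (l * d) := by rw [h4]; ring
    rw [e1]
    exact im_mul (im_mul (im_mul ha hb) hc) hd
  obtain ⟨P', hP'⟩ : ∃ P' : ℝ, l ^ 2 * tP p e = P' := ⟨_, re_of_im hP2⟩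
  obtain ⟨Q', hQ'⟩ : ∃ Q' : ℝ, l ^ 3 * tQ p q e = Q' := ⟨_, re_of_im hQ2⟩
  obtain ⟨R', hR'⟩ : ∃ R' : ℝ, l ^ 4 * tR p q e = R' := ⟨_, re_of_im hR2⟩
  have hQne : (Q' : ℂ) ≠ 0 := by
    rw [← hQ']
    exact mul_ne_zero (pow_ne_zero 3 hl) hQ
  -- the scaled root is real
  obtain ⟨e', he'⟩ : ∃ e' : ℝ, l * e = e' := by
    refine ⟨(R' - P' ^ 2 / 4) / (2 * Q'), ?_⟩
    push_cast
    rw [eq_div_iff (mul_ne_zero two_ne_zero hQne), ← hP', ← hQ', ← hR']
    unfold tP tQ tR
    ring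
  obtain ⟨p', hp'⟩ : ∃ p' : ℝ, l ^ 2 * p = p' := by
    refine ⟨-P' / 2 - 6 * e' ^ 2, ?_⟩
    push_cast
    rw [← hP', ← he']
    unfold tP
    ring
  obtain ⟨q', hq'⟩ : ∃ q' : ℝ, l ^ 3 * q = q' := by
    refine ⟨-Q' / 8 - 4 * e' ^ 3 - 2 * p' * e', ?_⟩
    push_cast
    rw [← hQ', ← he', ← hp']
    unfold tQ
    ring
  obtain ⟨r', hr'⟩ : ∃ r' : ℝ, l ^ 4 * r = r' := by
    refine ⟨-(e' ^ 4 + p' * e' ^ 2 + q' * e'), ?_⟩
    push_cast
    rw [← he', ← hp', ← hq']
    linear_combination l ^ 4 * he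
  refine ⟨1, one_ne_zero, fun z hz' => ?_⟩
  rw [one_mul]
  rw [hp', hq', hr'] at hz'
  refine real_root (e := e') ?_ ?_ hz'
  · have h5 : ((e' ^ 4 + p' * e' ^ 2 + q' * e' + r' : ℝ) : ℂ) = 0 := by
      push_cast
      rw [← he', ← hp', ← hq', ← hr']
      linear_combination l ^ 4 * he
    exact_mod_cast h5
  · -- the discriminant is positive
    obtain ⟨a', ha'⟩ : ∃ a' : ℝ, l * a = a' := ⟨_, re_of_im ha⟩
    obtain ⟨b', hb'⟩ : ∃ b' : ℝ, l * b = b' := ⟨_, re_of_im hb⟩
    obtain ⟨c', hc'⟩ : ∃ c' : ℝ, l * c = c' := ⟨_, re_of_im hc⟩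
    obtain ⟨d', hd'⟩ : ∃ d' : ℝ, l * d = d' := ⟨_, re_of_im hd⟩
    have h5 : ((4096 * D4 p' q' r' : ℝ) : ℂ) =
        ((((a' - b') * (a' - c') * (a' - d') * (b' - c') * (b' - d') * (c' - d')) ^ 2 : ℝ) : ℂ) := by
      have h6 := D4_roots h0 h2 h3 h4
      rw [D4_tilde he] at h6
      have h7 : ((4096 * D4 p' q' r' : ℝ) : ℂ) = l ^ 12 * (4096 * D4 p q r) := by
        unfold D4
        push_cast
        rw [← hp', ← hq', ← hr']
        ring
      rw [h7, h6]
      push_cast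
      rw [← ha', ← hb', ← hc', ← hd']
      ring
    have h8 : 4096 * D4 p' q' r' =
        ((a' - b') * (a' - c') * (a' - d') * (b' - c') * (b' - d') * (c' - d')) ^ 2 := by
      exact_mod_cast h5
    have h9 : D4 p' q' r' ≠ 0 := by
      intro h10
      have h11 : ((D4 p' q' r' : ℝ) : ℂ) = l ^ 12 * D4 p q r := by
        unfold D4
        push_cast
        rw [← hp', ← hq', ← hr']
        ring
      rw [h10, Complex.ofReal_zero] at h11
      exact (mul_ne_zero (pow_ne_zero 12 hl) hD) h11.symm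
    have h12 : 0 ≤ 4096 * D4 p' q' r' := by rw [h8]; positivity
    have h13 : 0 ≤ D4 p' q' r' := by linarith
    exact lt_of_le_of_ne h13 h9.symm

/-- the quartic of the halved point as a discriminant -/
theorem tilde_disc {R : Type*} [CommRing R] {p q e Y : R} :
    Y ^ 4 + tP p e * Y ^ 2 + tQ p q e * Y + tR p q e =
      ((Y + e) ^ 2 + 2 * e * (Y + e) - p - e ^ 2) ^ 2 -
        8 * ((Y + e) + e) * (e * (Y + e) ^ 2 + q + p * e + e ^ 3) := by
  unfold tP tQ tR
  ring

/-- the quartic of the half of the second branch point is positive -/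
theorem tilde_pos {a b c d : ℝ} (h : a + b + c + d = 0) (h1 : a < b) (h2 : b < c) (h3 : c < d)
    (Y : ℝ) : 0 < Y ^ 4 + tP (a * b + a * c + a * d + b * c + b * d + c * d) b * Y ^ 2 +
      tQ (a * b + a * c + a * d + b * c + b * d + c * d)
        (-(a * b * c + a * b * d + a * c * d + b * c * d)) b * Y +
      tR (a * b + a * c + a * d + b * c + b * d + c * d)
        (-(a * b * c + a * b * d + a * c * d + b * c * d)) b := by
  rw [tilde_disc]
  generalize Y + b = X
  set p := a * b + a * c + a * d + b * c + b * d + c * d with hp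
  set q := -(a * b * c + a * b * d + a * c * d + b * c * d) with hq
  -- the quadratic polynomial in `x`
  have hQ : ∀ x : ℝ, -2 * (X + b) * x ^ 2 + (X ^ 2 + 2 * b * X - p - b ^ 2) * x -
      (b * X ^ 2 + q + p * b + b ^ 3) = (X - x) ^ 2 * (x - b) - (x - a) * (x - c) * (x - d) := by
    intro x
    have hd : d = -a - b - c := by linear_combination h
    rw [hp, hq, hd]
    ring
  by_contra hcon
  push Not at hcon
  set A := -2 * (X + b) with hA
  set B := X ^ 2 + 2 * b * X - p - b ^ 2 with hB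
  set C := -(b * X ^ 2 + q + p * b + b ^ 3) with hC
  have hdisc : B ^ 2 - 4 * A * C ≤ 0 := by
    have e1 : B ^ 2 - 4 * A * C = B ^ 2 - 8 * (X + b) * (b * X ^ 2 + q + p * b + b ^ 3) := by
      rw [hA, hC]; ring
    rw [e1]
    exact hcon
  have hval : ∀ x : ℝ, A * x ^ 2 + B * x + C =
      (X - x) ^ 2 * (x - b) - (x - a) * (x - c) * (x - d) := by
    intro x
    rw [← hQ x, hA, hC]
    ring
  have hneg : A * b ^ 2 + B * b + C < 0 := by
    rw [hval b]
    have h4 : 0 < (b - a) * ((c - b) * (d - b)) :=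
      mul_pos (by linarith) (mul_pos (by linarith) (by linarith))
    nlinarith
  have hpos : ∃ y : ℝ, 0 < A * y ^ 2 + B * y + C := by
    by_cases hX : X = c
    · refine ⟨d, ?_⟩
      rw [hval d]
      have h4 : 0 < (X - d) ^ 2 * (d - b) := by
        have : X - d ≠ 0 := by rw [hX]; linarith
        have h5 : 0 < d - b := by linarith
        positivity
      nlinarith
    · refine ⟨c, ?_⟩
      rw [hval c]
      have h4 : 0 < (X - c) ^ 2 * (c - b) := by
        have : X - c ≠ 0 := sub_ne_zero.2 hX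
        have h5 : 0 < c - b := by linarith
        positivity
      nlinarith
  obtain ⟨y, hy⟩ := hpos
  have hsq : ∀ x : ℝ, 0 ≤ 4 * A * (A * x ^ 2 + B * x + C) := by
    intro x
    have e1 : 4 * A * (A * x ^ 2 + B * x + C) = (2 * A * x + B) ^ 2 - (B ^ 2 - 4 * A * C) := by
      ring
    rw [e1]
    have := sq_nonneg (2 * A * x + B)
    linarith
  rcases lt_trichotomy A 0 with hA0 | hA0 | hA0
  · have := hsq y
    nlinarith
  · rw [hA0] at hdisc hneg hy
    have hB0 : B = 0 := by nlinarith [sq_nonneg B]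
    rw [hB0] at hneg hy
    linarith
  · have := hsq b
    nlinarith

/-- Four different real numbers can be ordered. -/
theorem order4 {a b c d : ℝ} (hab : a ≠ b) (hac : a ≠ c) (had : a ≠ d) (hbc : b ≠ c) (hbd : b ≠ d)
    (hcd : c ≠ d) : ∃ a' b' c' d' : ℝ, a' < b' ∧ b' < c' ∧ c' < d' ∧
      a' + b' + c' + d' = a + b + c + d ∧
      a' * b' + a' * c' + a' * d' + b' * c' + b' * d' + c' * d' =
        a * b + a * c + a * d + b * c + b * d + c * d ∧
      a' * b' * c' + a' * b' * d' + a' * c' * d' + b' * c' * d' =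
        a * b * c + a * b * d + a * c * d + b * c * d ∧
      a' * b' * c' * d' = a * b * c * d ∧ (b' = a ∨ b' = b ∨ b' = c ∨ b' = d) := by
  have key : ∀ a b c d : ℝ, a ≠ b → a ≠ c → a ≠ d → b ≠ c → b ≠ d → c ≠ d → a < b → c < d → a < c →
      ∃ a' b' c' d' : ℝ, a' < b' ∧ b' < c' ∧ c' < d' ∧
      a' + b' + c' + d' = a + b + c + d ∧
      a' * b' + a' * c' + a' * d' + b' * c' + b' * d' + c' * d' =
        a * b + a * c + a * d + b * c + b * d + c * d ∧
      a' * b' * c' + a' * b' * d' + a' * c' * d' + b' * c' * d' =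
        a * b * c + a * b * d + a * c * d + b * c * d ∧
      a' * b' * c' * d' = a * b * c * d ∧ (b' = a ∨ b' = b ∨ b' = c ∨ b' = d) := by
    intro a b c d hab hac had hbc hbd hcd h1 h2 h3
    rcases lt_or_gt_of_ne hbc with h4 | h4
    · exact ⟨a, b, c, d, h1, h4, h2, rfl, rfl, rfl, rfl, by simp⟩
    · rcases lt_or_gt_of_ne hbd with h5 | h5
      · exact ⟨a, c, b, d, h3, h4, h5, by ring, by ring, by ring, by ring, by simp⟩
      · exact ⟨a, c, d, b, h3, h2, h5, by ring, by ring, by ring, by ring, by simp⟩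
  have key2 : ∀ a b c d : ℝ, a ≠ b → a ≠ c → a ≠ d → b ≠ c → b ≠ d → c ≠ d → a < b → c < d →
      ∃ a' b' c' d' : ℝ, a' < b' ∧ b' < c' ∧ c' < d' ∧
      a' + b' + c' + d' = a + b + c + d ∧
      a' * b' + a' * c' + a' * d' + b' * c' + b' * d' + c' * d' =
        a * b + a * c + a * d + b * c + b * d + c * d ∧
      a' * b' * c' + a' * b' * d' + a' * c' * d' + b' * c' * d' =
        a * b * c + a * b * d + a * c * d + b * c * d ∧
      a' * b' * c' * d' = a * b * c * d ∧ (b' = a ∨ b' = b ∨ b' = c ∨ b' = d) := by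
    intro a b c d hab hac had hbc hbd hcd h1 h2
    rcases lt_or_gt_of_ne hac with h3 | h3
    · exact key a b c d hab hac had hbc hbd hcd h1 h2 h3
    · obtain ⟨a', b', c', d', k1, k2, k3, k4, k5, k6, k7, k8⟩ :=
        key c d a b hcd hac.symm hbc.symm had.symm hbd.symm hab h2 h1 h3
      exact ⟨a', b', c', d', k1, k2, k3, by linarith, by linarith, by linarith,
        by rw [k7]; ring, by tauto⟩
  rcases lt_or_gt_of_ne hab with h1 | h1 <;> rcases lt_or_gt_of_ne hcd with h2 | h2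
  · exact key2 a b c d hab hac had hbc hbd hcd h1 h2
  · obtain ⟨a', b', c', d', k1, k2, k3, k4, k5, k6, k7, k8⟩ :=
      key2 a b d c hab had hac hbd hbc hcd.symm h1 h2
    exact ⟨a', b', c', d', k1, k2, k3, by linarith, by linarith, by linarith,
      by rw [k7]; ring, by tauto⟩
  · obtain ⟨a', b', c', d', k1, k2, k3, k4, k5, k6, k7, k8⟩ :=
      key2 b a c d hab.symm hbc hbd hac had hcd h1 h2
    exact ⟨a', b', c', d', k1, k2, k3, by linarith, by linarith, by linarith,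
      by rw [k7]; ring, by tauto⟩
  · obtain ⟨a', b', c', d', k1, k2, k3, k4, k5, k6, k7, k8⟩ :=
      key2 b a d c hab.symm hbd hbc had hac hcd.symm h1 h2
    exact ⟨a', b', c', d', k1, k2, k3, by linarith, by linarith, by linarith,
      by rw [k7]; ring, by tauto⟩

/-- If the roots of the quartic are collinear, then there is a root for which the roots of the
quartic of the halved point are not collinear. -/
theorem exists_half {p q r : ℂ} (hD : D4 p q r ≠ 0) (h : CollC p q r) :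
    ∃ e : ℂ, e ^ 4 + p * e ^ 2 + q * e + r = 0 ∧
      (tQ p q e ≠ 0 → ¬ CollC (tP p e) (tQ p q e) (tR p q e)) := by
  obtain ⟨l, hl, hz⟩ := h
  obtain ⟨a, b, c, d, h0, h2, h3, h4, hroot⟩ := exists_roots p q r
  obtain ⟨a', ha'⟩ : ∃ a' : ℝ, l * a = a' := ⟨_, re_of_im (hz a (by rw [hroot]; ring))⟩
  obtain ⟨b', hb'⟩ : ∃ b' : ℝ, l * b = b' := ⟨_, re_of_im (hz b (by rw [hroot]; ring))⟩
  obtain ⟨c', hc'⟩ : ∃ c' : ℝ, l * c = c' := ⟨_, re_of_im (hz c (by rw [hroot]; ring))⟩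
  obtain ⟨d', hd'⟩ : ∃ d' : ℝ, l * d = d' := ⟨_, re_of_im (hz d (by rw [hroot]; ring))⟩
  have hDr := D4_roots h0 h2 h3 h4
  rw [hDr] at hD
  have hne : ∀ x y : ℂ, ∀ x' y' : ℝ, l * x = x' → l * y = y' → x - y ≠ 0 → x' ≠ y' := by
    intro x y x' y' hx hy hxy h5
    apply hxy
    have h6 : l * (x - y) = 0 := by rw [mul_sub, hx, hy, h5, sub_self]
    exact (mul_eq_zero.1 h6).resolve_left hl
  have hab : a - b ≠ 0 := fun h5 => hD (by rw [h5]; ring)
  have hac : a - c ≠ 0 := fun h5 => hD (by rw [h5]; ring)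
  have had : a - d ≠ 0 := fun h5 => hD (by rw [h5]; ring)
  have hbc : b - c ≠ 0 := fun h5 => hD (by rw [h5]; ring)
  have hbd : b - d ≠ 0 := fun h5 => hD (by rw [h5]; ring)
  have hcd : c - d ≠ 0 := fun h5 => hD (by rw [h5]; ring)
  obtain ⟨a1, b1, c1, d1, k1, k2, k3, k4, k5, k6, k7, k8⟩ := order4
    (hne a b a' b' ha' hb' hab) (hne a c a' c' ha' hc' hac) (hne a d a' d' ha' hd' had)
    (hne b c b' c' hb' hc' hbc) (hne b d b' d' hb' hd' hbd) (hne c d c' d' hc' hd' hcd)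
  obtain ⟨e, he1, he⟩ : ∃ e : ℂ, l * e = b1 ∧ e ^ 4 + p * e ^ 2 + q * e + r = 0 := by
    rcases k8 with h5 | h5 | h5 | h5
    · exact ⟨a, by rw [h5, ha'], by rw [hroot]; ring⟩
    · exact ⟨b, by rw [h5, hb'], by rw [hroot]; ring⟩
    · exact ⟨c, by rw [h5, hc'], by rw [hroot]; ring⟩
    · exact ⟨d, by rw [h5, hd'], by rw [hroot]; ring⟩
  refine ⟨e, he, fun hQ hcoll => ?_⟩
  -- the scaled coefficients
  set P' : ℝ := a1 * b1 + a1 * c1 + a1 * d1 + b1 * c1 + b1 * d1 + c1 * d1 with hP'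
  set Q' : ℝ := -(a1 * b1 * c1 + a1 * b1 * d1 + a1 * c1 * d1 + b1 * c1 * d1) with hQ'
  have hs0 : a1 + b1 + c1 + d1 = 0 := by
    have h5 : ((a1 + b1 + c1 + d1 : ℝ) : ℂ) = 0 := by
      rw [k4]
      push_cast
      rw [← ha', ← hb', ← hc', ← hd']
      linear_combination l * h0
    exact_mod_cast h5
  have hpl : l ^ 2 * p = P' := by
    rw [k5]
    push_cast
    rw [← ha', ← hb', ← hc', ← hd', h2]
    ring
  have hql : l ^ 3 * q = Q' := by
    rw [hQ', k6]
    push_cast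
    rw [← ha', ← hb', ← hc', ← hd', h3]
    ring
  have hpos := tilde_pos hs0 k1 k2 k3
  rw [← hP', ← hQ'] at hpos
  -- scale
  rw [← CollC.scale hl] at hcoll
  have e1 : l ^ 2 * tP p e = ((tP P' b1 : ℝ) : ℂ) := by
    unfold tP
    push_cast
    rw [← hpl, ← he1]
    ring
  have e2 : l ^ 3 * tQ p q e = ((tQ P' Q' b1 : ℝ) : ℂ) := by
    unfold tQ
    push_cast
    rw [← hpl, ← hql, ← he1]
    ring
  have e3 : l ^ 4 * tR p q e = ((tR P' Q' b1 : ℝ) : ℂ) := by
    unfold tR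
    push_cast
    rw [← hpl, ← hql, ← he1]
    ring
  have hQne : ((tQ P' Q' b1 : ℝ) : ℂ) ≠ 0 := by
    rw [← e2]
    exact mul_ne_zero (pow_ne_zero 3 hl) hQ
  rw [e1, e2, e3] at hcoll
  obtain ⟨m, hm, hmz⟩ := hcoll
  obtain ⟨x, y, z, w, j0, j2, j3, j4, hr2⟩ := exists_roots ((tP P' b1 : ℝ) : ℂ)
    ((tQ P' Q' b1 : ℝ) : ℂ) ((tR P' Q' b1 : ℝ) : ℂ)
  obtain ⟨x', hx'⟩ : ∃ x' : ℝ, m * x = x' := ⟨_, re_of_im (hmz x (by rw [hr2]; ring))⟩
  obtain ⟨y', hy'⟩ : ∃ y' : ℝ, m * y = y' := ⟨_, re_of_im (hmz y (by rw [hr2]; ring))⟩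
  obtain ⟨z', hz'⟩ : ∃ z' : ℝ, m * z = z' := ⟨_, re_of_im (hmz z (by rw [hr2]; ring))⟩
  obtain ⟨w', hw'⟩ : ∃ w' : ℝ, m * w = w' := ⟨_, re_of_im (hmz w (by rw [hr2]; ring))⟩
  -- `m ^ 2` is real
  have f0 : x' + y' + z' + w' = 0 := by
    have h5 : ((x' + y' + z' + w' : ℝ) : ℂ) = 0 := by
      push_cast
      rw [← hx', ← hy', ← hz', ← hw']
      linear_combination m * j0
    exact_mod_cast h5
  set U : ℝ := x' * y' + x' * z' + x' * w' + y' * z' + y' * w' + z' * w' with hU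
  set V : ℝ := -(x' * y' * z' + x' * y' * w' + x' * z' * w' + y' * z' * w') with hV
  have f2 : m ^ 2 * ((tP P' b1 : ℝ) : ℂ) = U := by
    rw [j2, hU]
    push_cast
    rw [← hx', ← hy', ← hz', ← hw']
    ring
  have f3 : m ^ 3 * ((tQ P' Q' b1 : ℝ) : ℂ) = V := by
    rw [j3, hV]
    push_cast
    rw [← hx', ← hy', ← hz', ← hw']
    ring
  have hVne : (V : ℂ) ≠ 0 := by
    rw [← f3]
    exact mul_ne_zero (pow_ne_zero 3 hm) hQne
  have hUneg : U < 0 := by
    have h5 : 2 * U = -(x' ^ 2 + y' ^ 2 + z' ^ 2 + w' ^ 2) := by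
      have h6 : (x' + y' + z' + w') ^ 2 = 0 := by rw [f0]; ring
      rw [hU]
      linear_combination h6
    have h6 : 0 ≤ x' ^ 2 + y' ^ 2 + z' ^ 2 + w' ^ 2 := by positivity
    by_contra h7
    push Not at h7
    have h8 : x' ^ 2 + y' ^ 2 + z' ^ 2 + w' ^ 2 = 0 := by linarith
    have hx0 : x' = 0 := by nlinarith [sq_nonneg x', sq_nonneg y', sq_nonneg z', sq_nonneg w']
    have hy0 : y' = 0 := by nlinarith [sq_nonneg x', sq_nonneg y', sq_nonneg z', sq_nonneg w']
    have hz0 : z' = 0 := by nlinarith [sq_nonneg x', sq_nonneg y', sq_nonneg z', sq_nonneg w']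
    apply hVne
    rw [hV, hx0, hy0, hz0]
    norm_num
  have hPne : ((tP P' b1 : ℝ) : ℂ) ≠ 0 := by
    intro h5
    rw [h5, mul_zero] at f2
    have h6 : U = 0 := by exact_mod_cast f2.symm
    linarith
  -- `m` is real
  have hU0 : (U : ℂ) ≠ 0 := by
    intro h5
    have : U = 0 := by exact_mod_cast h5
    linarith
  clear_value U V
  generalize tP P' b1 = TP at *
  generalize tQ P' Q' b1 = TQ at *
  generalize tR P' Q' b1 = TR at *
  have hm1 : m = ((V * TP / (U * TQ) : ℝ) : ℂ) := by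
    push_cast
    rw [eq_div_iff (mul_ne_zero hU0 hQne), ← f2, ← f3]
    ring
  obtain ⟨m', hm'⟩ : ∃ m' : ℝ, m = m' := ⟨_, hm1⟩
  have hm'0 : m' ≠ 0 := by
    rintro rfl
    exact hm (by rw [hm']; norm_num)
  have hxr : x = ((x' / m' : ℝ) : ℂ) := by
    push_cast
    rw [eq_div_iff (by exact_mod_cast hm'0), ← hx', hm']
    ring
  have h9 := hr2 x
  rw [sub_self, zero_mul, zero_mul, zero_mul, hxr] at h9
  have h10 := hpos (x' / m')
  have h11 : (x' / m') ^ 4 + TP * (x' / m') ^ 2 + TQ * (x' / m') + TR = 0 := by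
    exact_mod_cast h9
  linarith

end Pool.Agent.E8helper67.EL
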