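import Pool.Agent.E8helper67.EL.Half
set_option autoImplicit false

/-!
The monic integral polynomial of a torsion point on an integral model with unit discriminant.
-/

namespace Pool.Agent.E8helper67.EL

open Polynomial

open Pool.Agent.E8helper67.PS (RealFactor)

theorem collC_of_affine {p q r a b : ℂ} (ha : a ≠ 0)
    (h : ∀ z : ℂ, z ^ 4 + p * z ^ 2 + q * z + r = 0 → (a * z + b).im = 0) : CollC p q r := by
  obtain ⟨z₁, z₂, z₃, z₄, h0, -, -, -, hroot⟩ := exists_roots p q r
  have h1 := h z₁ (by rw [hroot]; ring)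
  have h2 := h z₂ (by rw [hroot]; ring)
  have h3 := h z₃ (by rw [hroot]; ring)
  have h4 := h z₄ (by rw [hroot]; ring)
  have hb : b.im = 0 := by
    have h5 := im_add (im_add (im_add h1 h2) h3) h4
    have h6 : a * z₁ + b + (a * z₂ + b) + (a * z₃ + b) + (a * z₄ + b) = 4 * b := by
      linear_combination a * h0
    rw [h6] at h5
    have h7 : (4 * b).im = 4 * b.im := by simp
    rw [h7] at h5
    linarith
  refine ⟨a, ha, fun z hz => ?_⟩
  have h5 := h z hz
  rw [Complex.add_im, hb, add_zero] at h5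
  exact h5

variable {k : Type*} [Field k] [CharZero k] {W : WeierstrassCurve k}

/-- The polynomial of a torsion point. -/
theorem exists_F [DecidableEq k] [IsAlgClosed k] {M : ℕ} (S : Fin M → (k →+* ℂ)) (hW' : GoodW W)
    {x₀ y₀ : k} (h : TorsPt W x₀ y₀) :
    ∃ (x y κ : k) (F B : k[X]), W.toAffine.Equation x y ∧ κ ≠ 0 ∧ F.Monic ∧ 0 < F.natDegree ∧
      IntC F ∧ F ^ 2 - 4 = B ^ 2 * (fW W x y).comp (C κ * X) ∧
      ((fW W x y).comp (C κ * X)).Separable ∧ ((fW W x y).comp (C κ * X)).natDegree = 4 ∧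
      ∀ i, ¬ RealFactor (F.map (S i)) := by
  obtain ⟨x, y, ⟨hx, hy, hns, n, hn0, hn⟩, hgood⟩ := exists_good_point S hW' _ x₀ y₀ h le_rfl
  obtain ⟨hfm, hfd⟩ := fW_monic (W := W) (x₀ := x) (y₀ := y)
  have hsep := fW_sep hW'.hΔ hns.1
  obtain ⟨F', B', hpell', hF', -, hu'⟩ := exists_pell hW' hx hy hns hn0 hn
  obtain ⟨F₁, B₁, h₁, hF₁, hlc, hmin⟩ := exists_min hfm ⟨F', B', hpell', hF'⟩
  have hu := unit_of_unit hfm (by omega) h₁ hF₁ hmin hlc hpell' hF' hu'
  have hint := pell_int hW' hx hy hns.1 h₁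
  obtain ⟨κ, hκ⟩ := IsAlgClosed.exists_pow_nat_eq (F₁.leadingCoeff)⁻¹ hF₁
  have hlc0 : F₁.leadingCoeff ≠ 0 := by
    rw [Ne, leadingCoeff_eq_zero]
    rintro rfl
    simp at hF₁
  have hκ0 : κ ≠ 0 := by
    rintro rfl
    rw [zero_pow hF₁.ne'] at hκ
    exact inv_ne_zero hlc0 hκ.symm
  have hκi : IsIntegral ℤ κ := by
    refine IsIntegral.of_pow hF₁ ?_
    rw [hκ]
    exact hu
  have hlin : (C κ * X : k[X]).natDegree = 1 := natDegree_C_mul_X κ hκ0
  refine ⟨x, y, κ, F₁.comp (C κ * X), B₁.comp (C κ * X), hns.1, hκ0, ?_, ?_, ?_, ?_, ?_, ?_, ?_⟩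
  · unfold Monic
    rw [leadingCoeff_comp (by rw [hlin]; exact one_ne_zero), leadingCoeff_C_mul_X, hκ,
      mul_inv_cancel₀ hlc0]
  · rw [natDegree_comp, hlin, mul_one]
    exact hF₁
  · intro i
    rw [comp_C_mul_X_coeff]
    exact (hint i).mul (hκi.pow i)
  · have h2 := congrArg (fun p : k[X] => p.comp (C κ * X)) h₁
    simpa [sub_comp, mul_comp, pow_comp] using h2
  · rw [separable_def]
    have h2 := hsep
    rw [separable_def] at h2
    obtain ⟨a, b, hab⟩ := h2
    refine ⟨a.comp (C κ * X), b.comp (C κ * X) * C κ⁻¹, ?_⟩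
    rw [derivative_comp]
    have h3 := congrArg (fun p : k[X] => p.comp (C κ * X)) hab
    simp only [add_comp, mul_comp, one_comp] at h3
    have h4 : derivative (C κ * X : k[X]) = C κ := by simp
    have h5 : (C κ⁻¹ : k[X]) * C κ = 1 := by rw [← C_mul, inv_mul_cancel₀ hκ0, C_1]
    rw [h4]
    linear_combination h3 + b.comp (C κ * X) * (derivative (fW W x y)).comp (C κ * X) * h5
  · rw [natDegree_comp, hlin, hfd]
  · intro i hR
    have hmapd : ∀ p : k[X], (p.map (S i)).natDegree = p.natDegree := fun p =>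
      natDegree_map_eq_of_injective (S i).injective p
    have h2 : (F₁.comp (C κ * X)).map (S i) = (F₁.map (S i)).comp (C (S i κ) * X) := by
      rw [map_comp, Polynomial.map_mul, map_C, map_X]
    rw [h2] at hR
    have h3 := realFactor_comp (by rw [Ne, map_eq_zero]; exact hκ0) hR
    have hp : IsPell ((fW W x y).map (S i)) (F₁.map (S i)) (B₁.map (S i)) := by
      have h4 := congrArg (Polynomial.map (S i)) h₁
      unfold IsPell
      simpa [Polynomial.map_sub, Polynomial.map_mul, Polynomial.map_pow] using h4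
    obtain ⟨a, b, ha, hab⟩ := collinear_of_realFactor (hfm.map (S i)) (by rw [hmapd, hfd])
      (hsep.map) hp (by rw [hmapd]; exact hF₁)
      (min_map (S i) hfm (by omega) h₁ hF₁ hmin) h3
    apply hgood i
    refine collC_of_affine (a := a) (b := b - a * S i (W.a₁ / 2)) ha fun z hz => ?_
    have h5 := hab (z - S i (W.a₁ / 2)) ?_
    · have h6 : a * z + (b - a * S i (W.a₁ / 2)) = a * (z - S i (W.a₁ / 2)) + b := by ring
      rw [h6]
      exact h5
    · have h7 : ((fW W x y).comp (X - C (W.a₁ / 2))) =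
          X ^ 4 + C (cP W x) * X ^ 2 + C (cQ W x y) * X + C (cR W x) := by
        refine Polynomial.funext fun t => ?_
        rw [eval_comp, fW_eval]
        simp
      have h8 := congrArg (fun p : k[X] => (p.map (S i)).eval z) h7
      simp only [map_comp, Polynomial.map_sub, Polynomial.map_add, Polynomial.map_mul,
        Polynomial.map_pow, map_X, map_C, eval_comp, eval_sub, eval_add, eval_mul, eval_pow, eval_X,
        eval_C] at h8
      rw [h8, hz]

end Pool.Agent.E8helper67.EL
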