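import Pool.Agent.E8helper67.EL.Tors
import Pool.Agent.TH826.HD.Ring
set_option autoImplicit false

/-!
The function field of a Weierstrass curve as the fraction field of the ring of the curve
`z + 1/z = F(x)`.
-/

namespace Pool.Agent.E8helper67.EL

open Polynomial

open Pool.Agent.TH826.HD (PRing ppol pz pz_eq evP evP_ppol evP_pz isDomain_PRing peqn monic_peqn)

section Gen

variable {L : Type*} [Field L] (E : WeierstrassCurve L)

/-- the first coordinate of the generic point -/
noncomputable def gX : E.toAffine.FunctionField :=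
  algebraMap E.toAffine.CoordinateRing _ (WeierstrassCurve.Affine.CoordinateRing.mk E.toAffine (C X))

/-- the second coordinate of the generic point -/
noncomputable def gY : E.toAffine.FunctionField :=
  algebraMap E.toAffine.CoordinateRing _ (WeierstrassCurve.Affine.CoordinateRing.mk E.toAffine X)

/-- the constants -/
noncomputable def gc : L →+* E.toAffine.FunctionField := algebraMap L E.toAffine.FunctionField

theorem gc_eq (a : L) : gc E a = algebraMap E.toAffine.CoordinateRing _
    (WeierstrassCurve.Affine.CoordinateRing.mk E.toAffine (C (C a))) := by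
  unfold gc
  rw [IsScalarTower.algebraMap_apply L E.toAffine.CoordinateRing E.toAffine.FunctionField]
  rfl

theorem g_eq : gY E ^ 2 + gc E E.a₁ * gX E * gY E + gc E E.a₃ * gY E =
    gX E ^ 3 + gc E E.a₂ * gX E ^ 2 + gc E E.a₄ * gX E + gc E E.a₆ := by
  have h : WeierstrassCurve.Affine.CoordinateRing.mk E.toAffine
      (X ^ 2 + C (C E.a₁ * X + C E.a₃) * X -
        C (X ^ 3 + C E.a₂ * X ^ 2 + C E.a₄ * X + C E.a₆)) = 0 :=
    AdjoinRoot.mk_self
  have h1 := congrArg (algebraMap E.toAffine.CoordinateRing E.toAffine.FunctionField) h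
  simp only [map_add, map_sub, map_mul, map_pow, map_zero] at h1
  simp only [gc_eq, gX, gY]
  linear_combination h1

theorem eval_gX (p : L[X]) : p.eval₂ (gc E) (gX E) = algebraMap E.toAffine.CoordinateRing _
    (WeierstrassCurve.Affine.CoordinateRing.mk E.toAffine (C p)) := by
  have h : (eval₂RingHom (gc E) (gX E)) =
      ((algebraMap E.toAffine.CoordinateRing E.toAffine.FunctionField).comp
        (WeierstrassCurve.Affine.CoordinateRing.mk E.toAffine)).comp C := by
    apply Polynomial.ringHom_ext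
    · intro a
      rw [coe_eval₂RingHom, eval₂_C, gc_eq]
      rfl
    · rw [coe_eval₂RingHom, eval₂_X]
      rfl
  exact congrArg (fun f : L[X] →+* E.toAffine.FunctionField => f p) h

theorem gX_trans {p : L[X]} (h : p.eval₂ (gc E) (gX E) = 0) : p = 0 := by
  rw [eval_gX] at h
  have h1 := (IsFractionRing.injective E.toAffine.CoordinateRing E.toAffine.FunctionField)
    (h.trans (map_zero _).symm)
  have h2 : p • (1 : E.toAffine.CoordinateRing) +
      (0 : L[X]) • WeierstrassCurve.Affine.CoordinateRing.mk E.toAffine X = 0 := by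
    rw [zero_smul, add_zero, Algebra.smul_def, mul_one]
    exact h1
  exact (WeierstrassCurve.Affine.CoordinateRing.smul_basis_eq_zero h2).1

theorem subfield_eq_top {S : Subfield E.toAffine.FunctionField} (hc : ∀ a, gc E a ∈ S)
    (hX : gX E ∈ S) (hY : gY E ∈ S) : S = ⊤ := by
  have h1 : ∀ p : L[X], p.eval₂ (gc E) (gX E) ∈ S := by
    intro p
    rw [eval₂_eq_sum]
    exact Subfield.sum_mem _ fun i _ => S.mul_mem (hc _) (S.pow_mem hX i)
  have h2 : ∀ a : E.toAffine.CoordinateRing, algebraMap _ E.toAffine.FunctionField a ∈ S := by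
    intro a
    obtain ⟨p, q, rfl⟩ := WeierstrassCurve.Affine.CoordinateRing.exists_smul_basis_eq a
    rw [map_add, Algebra.smul_def, Algebra.smul_def, mul_one, map_mul]
    have h3 := h1 p
    have h4 := h1 q
    rw [eval_gX] at h3 h4
    exact S.add_mem h3 (S.mul_mem h4 hY)
  rw [eq_top_iff]
  intro z _
  obtain ⟨a, b, hb, rfl⟩ := IsFractionRing.div_surjective (A := E.toAffine.CoordinateRing) z
  exact S.div_mem (h2 a) (h2 b)

end Gen

section Chi

variable {L : Type*} [Field L] [CharZero L] (E : WeierstrassCurve L)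

/-- The function field is the fraction field of the ring of the curve `z + 1/z = F(x)`. -/
theorem exists_chi (V : WeierstrassCurve.VariableChange L) {x₀ y₀ κ : L} (hκ : κ ≠ 0)
    (heq : (V • E).toAffine.Equation x₀ y₀) {F B : L[X]} (hF : 0 < F.natDegree)
    (hFB : F ^ 2 - 4 = B ^ 2 * (fW (V • E) x₀ y₀).comp (C κ * X)) :
    ∃ χ : PRing F →+* E.toAffine.FunctionField, (∀ a, χ (ppol F (C a)) = gc E a) ∧
      Function.Injective χ ∧ ∀ z, ∃ a b, z = χ a / χ b := by
  set W := V • E with hWd
  have hE := g_eq E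
  set v : L := ((V.u⁻¹ : Lˣ) : L) with hv
  have hv0 : v ≠ 0 := (V.u⁻¹).ne_zero
  have hg0 : ∀ a : L, a ≠ 0 → gc E a ≠ 0 := fun a ha => by rwa [Ne, map_eq_zero]
  set XW := gc E v ^ 2 * (gX E - gc E V.r) with hXW
  set YW := gc E v ^ 3 * (gY E - gc E V.s * (gX E - gc E V.r) - gc E V.t) with hYW
  have hWeq : YW ^ 2 + gc E W.a₁ * XW * YW + gc E W.a₃ * YW =
      XW ^ 3 + gc E W.a₂ * XW ^ 2 + gc E W.a₄ * XW + gc E W.a₆ := by
    rw [hWd, WeierstrassCurve.variableChange_a₁, WeierstrassCurve.variableChange_a₂,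
      WeierstrassCurve.variableChange_a₃, WeierstrassCurve.variableChange_a₄,
      WeierstrassCurve.variableChange_a₆]
    simp only [map_add, map_sub, map_mul, map_pow, map_ofNat, ← hv]
    simp only [hXW, hYW]
    linear_combination gc E v ^ 6 * hE
  -- integral elements over the constants
  let _ := (gc E).toAlgebra
  have hgc : algebraMap L E.toAffine.FunctionField = gc E := rfl
  have hgX : ¬ IsIntegral L (gX E) := by
    rintro ⟨p, hp, hp0⟩
    exact hp.ne_zero (gX_trans E hp0)
  have hcI : ∀ a, IsIntegral L (gc E a) := fun a => isIntegral_algebraMap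
  have hXWI : ¬ IsIntegral L XW := by
    intro h
    apply hgX
    have h1 : gX E = gc E (v⁻¹ ^ 2) * XW + gc E V.r := by
      rw [hXW, map_pow, map_inv₀]
      have := hg0 v hv0
      field_simp
      ring
    rw [h1]
    exact ((hcI _).mul h).add (hcI _)
  set x' := XW - gc E x₀ with hx'
  have hx'I : ¬ IsIntegral L x' := by
    intro h
    apply hXWI
    have h1 : XW = x' + gc E x₀ := by rw [hx']; ring
    rw [h1]
    exact h.add (hcI _)
  have hx'0 : x' ≠ 0 := by
    intro h
    apply hx'I
    rw [h]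
    exact isIntegral_zero
  set t := (YW - gc E y₀) / x' with ht
  have htx : t * x' = YW - gc E y₀ := by
    rw [ht]
    field_simp
  have hev : ∀ p : L[X], IsIntegral L t → IsIntegral L (p.eval₂ (gc E) t) := by
    intro p h
    rw [eval₂_eq_sum]
    exact IsIntegral.sum _ fun i _ => (hcI _).mul (h.pow i)
  have hh : (hW W x₀).eval₂ (gc E) t = t ^ 2 + gc E W.a₁ * t - (gc E W.a₂ + 3 * gc E x₀) := by
    simp only [hW, eval₂_sub, eval₂_add, eval₂_mul, eval₂_pow, eval₂_X, eval₂_C]
    simp only [map_add, map_mul, map_ofNat]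
  have hl : (lW W x₀ y₀).eval₂ (gc E) t = (2 * gc E y₀ + gc E W.a₁ * gc E x₀ + gc E W.a₃) * t -
      (3 * gc E x₀ ^ 2 + 2 * gc E W.a₂ * gc E x₀ + gc E W.a₄ - gc E W.a₁ * gc E y₀) := by
    simp only [lW, A3, A4, eval₂_sub, eval₂_mul, eval₂_X, eval₂_C]
    simp only [map_add, map_sub, map_mul, map_pow, map_ofNat]
  have hquad : x' ^ 2 - (hW W x₀).eval₂ (gc E) t * x' - (lW W x₀ y₀).eval₂ (gc E) t = 0 := by
    have h1 : XW = x' + gc E x₀ := by rw [hx']; ring
    have h2 : YW = t * x' + gc E y₀ := by rw [htx]; ring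
    rw [WeierstrassCurve.Affine.equation_iff] at heq
    have h3 := congrArg (gc E) heq
    simp only [map_add, map_mul, map_pow] at h3
    rw [h1, h2] at hWeq
    have h4 : x' * (x' ^ 2 - (hW W x₀).eval₂ (gc E) t * x' - (lW W x₀ y₀).eval₂ (gc E) t) = 0 := by
      rw [hh, hl]
      linear_combination -hWeq + h3
    exact (mul_eq_zero.1 h4).resolve_left hx'0
  set h := (hW W x₀).eval₂ (gc E) t with hh'
  set l := (lW W x₀ y₀).eval₂ (gc E) t with hl'
  have h20 : (2 : E.toAffine.FunctionField) ≠ 0 := by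
    have h1 := hg0 2 two_ne_zero
    rwa [map_ofNat] at h1
  have hf : (fW W x₀ y₀).eval₂ (gc E) t = (2 * x' - h) ^ 2 := by
    have h1 : (fW W x₀ y₀).eval₂ (gc E) t = h ^ 2 + 4 * l := by
      have h4 : (4 : L[X]) = C 4 := rfl
      rw [fW, eval₂_add, eval₂_pow, eval₂_mul, h4, eval₂_C, map_ofNat]
    rw [h1]
    linear_combination -4 * hquad
  have htI : ¬ IsIntegral L t := by
    intro hI
    apply hx'I
    have h1 : IsIntegral L (2 * x' - h) := by
      refine IsIntegral.of_pow (n := 2) (by norm_num) ?_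
      rw [← hf]
      exact hev _ hI
    have h2 : x' = gc E 2⁻¹ * ((2 * x' - h) + h) := by
      rw [map_inv₀, map_ofNat]
      field_simp
      ring
    rw [h2]
    exact (hcI _).mul (h1.add (hev _ hI))
  -- the function `x`
  set T := t * gc E κ⁻¹ with hT
  have hκT : gc E κ * T = t := by
    rw [hT, map_inv₀]
    have := hg0 κ hκ
    field_simp
  have hTI : ¬ IsIntegral L T := by
    intro hI
    apply htI
    rw [← hκT]
    exact (hcI _).mul hI
  have hTtr : ∀ p : L[X], p ≠ 0 → p.eval₂ (gc E) T ≠ 0 := by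
    intro p hp h0
    apply hTI
    exact IsAlgebraic.isIntegral ⟨p, hp, by rw [aeval_def]; exact h0⟩
  set w := 2 * x' - h with hw
  have hfT : ((fW W x₀ y₀).comp (C κ * X)).eval₂ (gc E) T = w ^ 2 := by
    rw [eval₂_comp, eval₂_mul, eval₂_C, eval₂_X, hκT, hf]
  set FT := F.eval₂ (gc E) T with hFT
  set BT := B.eval₂ (gc E) T with hBT
  have hFB' : FT ^ 2 - 4 = BT ^ 2 * w ^ 2 := by
    have h1 : (F ^ 2 - 4).eval₂ (gc E) T =
        (B ^ 2 * (fW W x₀ y₀).comp (C κ * X)).eval₂ (gc E) T := by rw [hFB]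
    have h4 : (4 : L[X]) = C 4 := rfl
    rw [eval₂_sub, eval₂_pow, h4, eval₂_C, map_ofNat, eval₂_mul, eval₂_pow, hfT] at h1
    exact h1
  set z := (FT + BT * w) / 2 with hz
  have hz2 : 2 * z = FT + BT * w := by
    rw [hz]
    field_simp
  have hzeq : z ^ 2 - F.eval₂ (gc E) T * z + 1 = 0 := by
    have h1 : 4 * (z ^ 2 - F.eval₂ (gc E) T * z + 1) = 0 := by
      rw [← hFT]
      linear_combination (2 * z - FT + BT * w) * hz2 - hFB'
    have h4 : (4 : E.toAffine.FunctionField) ≠ 0 := by
      have h1 := hg0 4 (by norm_num)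
      rwa [map_ofNat] at h1
    exact (mul_eq_zero.1 h1).resolve_left h4
  have hB0 : BT ≠ 0 := by
    apply hTtr
    rintro rfl
    have h1 := congrArg natDegree hFB
    have e : (4 : L[X]) = C 4 := rfl
    rw [zero_pow two_ne_zero, zero_mul, natDegree_zero, e, natDegree_sub_C, natDegree_pow] at h1
    omega
  have hdom := isDomain_PRing hF
  refine ⟨evP (gc E) T z hzeq, ?_, ?_, ?_⟩
  · intro a
    rw [evP_ppol, eval₂_C]
  · rw [RingHom.injective_iff_ker_eq_bot]
    let _ : Algebra L[X] (PRing F) := (ppol F).toAlgebra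
    have hint : Algebra.IsIntegral L[X] (PRing F) := by
      have h1 : Module.Finite L[X] (AdjoinRoot (peqn F)) := (monic_peqn F).finite_adjoinRoot
      have h2 := Algebra.IsIntegral.of_finite L[X] (AdjoinRoot (peqn F))
      exact ⟨fun x => show (ppol F).IsIntegralElem x from h2.isIntegral x⟩
    refine Ideal.eq_bot_of_comap_eq_bot (R := L[X]) ?_
    rw [eq_bot_iff]
    intro p hp
    rw [Ideal.mem_comap, RingHom.mem_ker] at hp
    have h1 : evP (gc E) T z hzeq (ppol F p) = 0 := hp
    rw [evP_ppol] at h1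
    by_contra h0
    exact hTtr p h0 h1
  · set S := Subfield.closure (Set.range (evP (gc E) T z hzeq)) with hS
    have hmem : ∀ a, evP (gc E) T z hzeq a ∈ S := fun a => Subfield.subset_closure ⟨a, rfl⟩
    have hcS : ∀ a, gc E a ∈ S := by
      intro a
      have h1 := hmem (ppol F (C a))
      rwa [evP_ppol, eval₂_C] at h1
    have hTS : T ∈ S := by
      have h1 := hmem (ppol F X)
      rwa [evP_ppol, eval₂_X] at h1
    have hzS : z ∈ S := by
      have h1 := hmem (pz F)
      rwa [evP_pz] at h1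
    have htS : t ∈ S := by
      rw [← hκT]
      exact S.mul_mem (hcS _) hTS
    have hp : ∀ p : L[X], ∀ y ∈ S, p.eval₂ (gc E) y ∈ S := by
      intro p y hy
      rw [eval₂_eq_sum]
      exact Subfield.sum_mem _ fun i _ => S.mul_mem (hcS _) (S.pow_mem hy i)
    have h2S : (2 : E.toAffine.FunctionField) ∈ S := by
      have h1 := hcS 2
      rwa [map_ofNat] at h1
    have hwS : w ∈ S := by
      have h1 : w = (2 * z - FT) / BT := by
        rw [hz2]
        field_simp
        ring
      rw [h1]
      exact S.div_mem (S.sub_mem (S.mul_mem h2S hzS) (hp _ _ hTS)) (hp _ _ hTS)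
    have hx'S : x' ∈ S := by
      have h1 : x' = (w + h) / 2 := by
        rw [hw]
        field_simp
        ring
      rw [h1]
      exact S.div_mem (S.add_mem hwS (hp _ _ htS)) h2S
    have hXWS : XW ∈ S := by
      have h1 : XW = x' + gc E x₀ := by rw [hx']; ring
      rw [h1]
      exact S.add_mem hx'S (hcS _)
    have hYWS : YW ∈ S := by
      have h1 : YW = t * x' + gc E y₀ := by rw [htx]; ring
      rw [h1]
      exact S.add_mem (S.mul_mem htS hx'S) (hcS _)
    have hgv := hg0 v hv0
    have hXS : gX E ∈ S := by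
      have h1 : gX E = XW / gc E v ^ 2 + gc E V.r := by
        rw [hXW]
        field_simp
        ring
      rw [h1]
      exact S.add_mem (S.div_mem hXWS (S.pow_mem (hcS _) 2)) (hcS _)
    have hYS : gY E ∈ S := by
      have h1 : gY E = YW / gc E v ^ 3 + gc E V.s * (gX E - gc E V.r) + gc E V.t := by
        rw [hYW]
        field_simp
        ring
      rw [h1]
      exact S.add_mem (S.add_mem (S.div_mem hYWS (S.pow_mem (hcS _) 3))
        (S.mul_mem (hcS _) (S.sub_mem hXS (hcS _)))) (hcS _)
    have htop := subfield_eq_top E hcS hXS hYS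
    intro y
    have hy : y ∈ S := by
      rw [htop]
      exact Subfield.mem_top y
    rw [hS, Subfield.mem_closure_iff] at hy
    have hcl : Subring.closure (Set.range (evP (gc E) T z hzeq)) =
        (evP (gc E) T z hzeq).range :=
      Subring.closure_eq (evP (gc E) T z hzeq).range
    rw [hcl] at hy
    obtain ⟨_, ⟨a, rfl⟩, _, ⟨b, rfl⟩, h1⟩ := hy
    exact ⟨a, b, h1.symm⟩

end Chi

end Pool.Agent.E8helper67.EL
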