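import Pool.Agent.E8helper67.EL.Combo
import Pool.Agent.E8helper67.EL.Base
import Pool.Agent.E8helper67.EL.Func
import Pool.Agent.E8helper67.PS.Main
set_option autoImplicit false

/-!
Elliptic curves with integral `j`-invariant.
-/

namespace Pool.Agent.E8helper67.EL

open Polynomial

open Pool.Agent.TH826.MK (KQ symb Torus Unramified)

open Pool.Agent.TH826.HD (PRing POpen ppol pent toP pcst)

open Pool.Agent.E8helper67.PS (RealFactor SymbUnram RegIndep)

/-- The function field of `E` is identified by `φ` with the fraction field of the coordinate ring of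
the plane curve `z² - F(x) z + 1 = 0`, and the symbols `{z, (x - b_k) / (x - b_l)}` in
`K_2(L(E)) ⊗ ℚ` are unramified at all discrete valuations of the function field `L(E)`. -/
def UnramOn {L : Type*} [Field L] (E : WeierstrassCurve L) (F : L[X]) {n : ℕ} (b : Fin n → L) :
    Prop :=
  ∃ φ : POpen F b →+* E.toAffine.FunctionField,
    (∀ a, φ (pcst F b a) = algebraMap L E.toAffine.FunctionField a) ∧
    (Function.Injective fun r => φ (toP F b r)) ∧
    (∀ z, ∃ r r', z = φ (toP F b r) / φ (toP F b r')) ∧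
    ∀ k l, KQ.map 2 φ (symb (pent F b k l)) ∈ Unramified E.toAffine.FunctionField 2

theorem unramOn_of.{w} {L : Type w} [Field L] {E : WeierstrassCurve L} {F : L[X]} {n : ℕ}
    {b : Fin n → L} (χ : PRing F →+* E.toAffine.FunctionField)
    (hc : ∀ a, χ (ppol F (C a)) = gc E a) (hinj : Function.Injective χ)
    (hsurj : ∀ z, ∃ a b, z = χ a / χ b) (hS : SymbUnram.{w} F b) :
    UnramOn E F b := by
  let _ := χ.toAlgebra
  have h1 : algebraMap (PRing F) E.toAffine.FunctionField = χ := rfl
  have : FaithfulSMul (PRing F) E.toAffine.FunctionField := by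
    rw [faithfulSMul_iff_algebraMap_injective]
    exact hinj
  have : IsFractionRing (PRing F) E.toAffine.FunctionField := IsFractionRing.of_field _ _ hsurj
  obtain ⟨φ, hφ, hU⟩ := hS E.toAffine.FunctionField
  rw [h1] at hφ
  refine ⟨φ, fun a => ?_, ?_, fun z => ?_, hU⟩
  · unfold pcst
    rw [RingHom.comp_apply, RingHom.comp_apply, hφ, hc]
    rfl
  · intro r r' hr
    simp only [hφ] at hr
    exact hinj hr
  · obtain ⟨a, a', h⟩ := hsurj z
    exact ⟨a, a', by rw [hφ, hφ, h]⟩

theorem fW_map {R S : Type*} [Field R] [Field S] (f : R →+* S) (W : WeierstrassCurve R) (x y : R) :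
    (fW W x y).map f = fW (W.map f) (f x) (f y) := by
  have h4 : (4 : R[X]).map f = 4 := Polynomial.map_ofNat f 4
  simp only [fW, hW, lW, A3, A4, Polynomial.map_add, Polynomial.map_sub, Polynomial.map_mul,
    Polynomial.map_pow, map_X, map_C, h4, WeierstrassCurve.map]
  simp only [map_add, map_sub, map_mul, map_pow, map_ofNat]

theorem exists_descend {K k : Type*} [Field K] [Field k] [Algebra K k] (K' : IntermediateField K k)
    {p : k[X]} (h : ∀ i, p.coeff i ∈ K') : ∃ q : K'[X], q.map (algebraMap K' k) = p := by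
  have h1 : p ∈ lifts (algebraMap K' k) := by
    rw [lifts_iff_coeff_lifts]
    intro i
    exact ⟨⟨_, h i⟩, rfl⟩
  exact h1

/-- The theorem. -/
theorem mainE.{u} (M : ℕ) (hM : 0 < M) (K : Type u) [Field K] [NumberField K]
    (s : Fin M → (K →+* ℂ)) (E : WeierstrassCurve K) [E.IsElliptic] (hj : IsIntegral ℤ E.j) :
    ∃ (L : Type u) (_ : Field L) (_ : NumberField L) (_ : Algebra K L)
      (σ : Fin M → (L →+* ℂ)) (F : L[X]) (b : Fin (M * 2 + 1) → L),
      (∀ i x, σ i (algebraMap K L x) = s i x) ∧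
      F.Monic ∧ (∀ i, IsIntegral ℤ (F.coeff i)) ∧ (∀ k, IsIntegral ℤ (b k)) ∧
      UnramOn (E.map (algebraMap K L)) F b ∧ RegIndep (N := 2) F b σ := by
  classical
  let k := AlgebraicClosure K
  obtain ⟨S, hS⟩ : ∃ S : Fin M → (k →+* ℂ), ∀ i x, S i (algebraMap K k x) = s i x := by
    have h1 : ∀ i, ∃ S : k →+* ℂ, ∀ x, S (algebraMap K k x) = s i x := by
      intro i
      let _ := (s i).toAlgebra
      exact ⟨(IsAlgClosed.lift (R := K) (M := ℂ) (S := k) : k →ₐ[K] ℂ).toRingHom,
        fun x => AlgHom.commutes _ x⟩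
    choose S hS using h1
    exact ⟨S, hS⟩
  have hj' : IsIntegral ℤ (algebraMap K k E.j) := hj.map (algebraMap K k).toIntAlgHom
  obtain ⟨W, hgood, hT, hc4⟩ := exists_base hj'
  have hWell : W.IsElliptic := ⟨isUnit_iff_ne_zero.2 hgood.hΔ⟩
  have hWj : W.j = algebraMap K k E.j := by
    unfold WeierstrassCurve.j
    rw [hc4, mul_comm, mul_assoc, ← WeierstrassCurve.coe_Δ', Units.mul_inv, mul_one]
    rfl
  obtain ⟨V, hV⟩ : ∃ V : WeierstrassCurve.VariableChange k, V • (E.map (algebraMap K k)) = W :=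
    WeierstrassCurve.exists_variableChange_of_j_eq _ _ (by rw [hWj, WeierstrassCurve.map_j])
  obtain ⟨x, y, κ, F, B, heq, hκ, hFm, hFd, hFi, hFB, hsep, hdeg, hR⟩ := exists_F S hgood hT
  -- the field of definition
  have hfin : ∃ K' : IntermediateField K k, FiniteDimensional K K' ∧ (V.u : k) ∈ K' ∧ V.r ∈ K' ∧
      V.s ∈ K' ∧ V.t ∈ K' ∧ x ∈ K' ∧ y ∈ K' ∧ κ ∈ K' ∧ (∀ i, F.coeff i ∈ K') ∧
      ∀ i, B.coeff i ∈ K' := by
    set T : Set k := {(V.u : k), V.r, V.s, V.t, x, y, κ} ∪ (F.coeffs ∪ B.coeffs : Finset k) with hT'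
    have hTf : Finite T := by
      rw [hT']
      exact (Set.Finite.union (Set.toFinite _) (Finset.finite_toSet _)).to_subtype
    have hsub := IntermediateField.subset_adjoin K T
    have hco : ∀ p : k[X], (p = F ∨ p = B) → ∀ i, p.coeff i ∈ IntermediateField.adjoin K T := by
      intro p hp i
      by_cases h0 : p.coeff i = 0
      · rw [h0]
        exact zero_mem _
      · apply hsub
        right
        have h1 : p.coeff i ∈ p.coeffs := coeff_mem_coeffs h0
        rcases hp with rfl | rfl
        · exact Finset.mem_coe.2 (Finset.mem_union_left _ h1)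
        · exact Finset.mem_coe.2 (Finset.mem_union_right _ h1)
    refine ⟨IntermediateField.adjoin K T,
      IntermediateField.finiteDimensional_adjoin fun z _ => Algebra.IsIntegral.isIntegral z,
      hsub ?_, hsub ?_, hsub ?_, hsub ?_, hsub ?_, hsub ?_, hsub ?_, hco F (Or.inl rfl),
      hco B (Or.inr rfl)⟩
    all_goals
      left
      simp
  obtain ⟨K', hfd, hVu, hVr, hVs, hVt, hx, hy, hκK, hFK, hBK⟩ := hfin
  have hNF : NumberField K' := by
    have h1 : FiniteDimensional ℚ K' := Module.Finite.trans K K'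
    exact { to_charZero := inferInstance, to_finiteDimensional := h1 }
  obtain ⟨F', hF'⟩ := exists_descend K' hFK
  obtain ⟨B', hB'⟩ := exists_descend K' hBK
  set ι := algebraMap K' k with hι
  have hιinj : Function.Injective ι := ι.injective
  have htow : algebraMap K k = ι.comp (algebraMap K K') := IsScalarTower.algebraMap_eq K K' k
  obtain ⟨V', hV'⟩ : ∃ V' : WeierstrassCurve.VariableChange K', V'.map ι = V := by
    refine ⟨⟨Units.mk0 ⟨V.u, hVu⟩ ?_, ⟨V.r, hVr⟩, ⟨V.s, hVs⟩, ⟨V.t, hVt⟩⟩, ?_⟩
    · intro h0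
      exact V.u.ne_zero (congrArg Subtype.val h0)
    · ext <;> rfl
  obtain ⟨x', hx'⟩ : ∃ x' : K', ι x' = x := ⟨⟨x, hx⟩, rfl⟩
  obtain ⟨y', hy'⟩ : ∃ y' : K', ι y' = y := ⟨⟨y, hy⟩, rfl⟩
  obtain ⟨κ', hκ'⟩ : ∃ κ' : K', ι κ' = κ := ⟨⟨κ, hκK⟩, rfl⟩
  have hκ'0 : κ' ≠ 0 := by
    rintro rfl
    rw [map_zero] at hκ'
    exact hκ hκ'.symm
  set E' := E.map (algebraMap K K') with hE'
  set W' := V' • E' with hW'
  have hWW : W'.map ι = W := by
    rw [hW', ← WeierstrassCurve.map_variableChange, hV', hE', WeierstrassCurve.map_map, ← htow, hV]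
  have heq' : W'.toAffine.Equation x' y' := by
    have h1 := heq
    rw [← hWW, ← hx', ← hy'] at h1
    exact (WeierstrassCurve.Affine.map_equation _ hιinj x' y').1 h1
  have hfmap : ((fW W' x' y').comp (C κ' * X)).map ι = (fW W x y).comp (C κ * X) := by
    rw [Polynomial.map_comp, fW_map, hWW, hx', hy', Polynomial.map_mul, map_C, map_X, hκ']
  have hmapd : ∀ p : K'[X], (p.map ι).natDegree = p.natDegree := fun p =>
    natDegree_map_eq_of_injective hιinj p
  have hFB' : F' ^ 2 - 4 = B' ^ 2 * (fW W' x' y').comp (C κ' * X) := by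
    apply map_injective ι hιinj
    have h4 : (4 : K'[X]).map ι = 4 := Polynomial.map_ofNat ι 4
    rw [Polynomial.map_sub, Polynomial.map_pow, h4, Polynomial.map_mul, Polynomial.map_pow, hfmap,
      hF', hB', hFB]
  have hF'm : F'.Monic := monic_of_injective hιinj (by rw [hF']; exact hFm)
  have hF'i : ∀ i, IsIntegral ℤ (F'.coeff i) := by
    intro i
    rw [← isIntegral_algebraMap_iff (A := K') (B := k) hιinj]
    have h1 : algebraMap K' k (F'.coeff i) = F.coeff i := by rw [← hF', coeff_map]
    rw [h1]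
    exact hFi i
  obtain ⟨L, iL, iN, iA, σ, b, hσ, hbi, -, hU, hReg⟩ := PS.main.{u, u} 1 M hM K'
    (fun i => (S i).comp ι) F' B' ((fW W' x' y').comp (C κ' * X)) hF'm hF'i hFB'
    (by rw [← separable_map ι, hfmap]; exact hsep) (Or.inr rfl)
    (by rw [← hmapd, hfmap, hdeg]) (fun i => by
      have h1 : F'.map ((S i).comp ι) = F.map (S i) := by rw [← Polynomial.map_map, hF']
      rw [h1]
      exact hR i)
  let iA' : Algebra K L := ((algebraMap K' L).comp (algebraMap K K')).toAlgebra
  have hKL : algebraMap K L = (algebraMap K' L).comp (algebraMap K K') := rfl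
  refine ⟨L, iL, iN, iA', σ, F'.map (algebraMap K' L), b, ?_, hF'm.map _, ?_, hbi, ?_, hReg⟩
  · intro i z
    rw [hKL, RingHom.comp_apply, hσ, RingHom.comp_apply, ← hS, htow, RingHom.comp_apply]
  · intro i
    rw [coeff_map]
    exact (hF'i i).map (algebraMap K' L).toIntAlgHom
  · have hEL : E.map (algebraMap K L) = E'.map (algebraMap K' L) := by
      rw [hE', WeierstrassCurve.map_map, hKL]
    have hWL : V'.map (algebraMap K' L) • E.map (algebraMap K L) = W'.map (algebraMap K' L) := by
      rw [hEL, hW', WeierstrassCurve.map_variableChange]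
    have hLinj := (algebraMap K' L).injective
    obtain ⟨χ, h1, h2, h3⟩ := exists_chi (E.map (algebraMap K L)) (V'.map (algebraMap K' L))
      (x₀ := algebraMap K' L x') (y₀ := algebraMap K' L y') (κ := algebraMap K' L κ')
      (F := F'.map (algebraMap K' L)) (B := B'.map (algebraMap K' L))
      (by rw [Ne, map_eq_zero]; exact hκ'0)
      (by
        rw [hWL]
        exact (WeierstrassCurve.Affine.map_equation _ hLinj x' y').2 heq')
      (by
        rw [natDegree_map_eq_of_injective hLinj, ← hmapd, hF']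
        exact hFd)
      (by
        have h4 : (4 : K'[X]).map (algebraMap K' L) = 4 := Polynomial.map_ofNat _ 4
        have h5 := congrArg (Polynomial.map (algebraMap K' L)) hFB'
        rw [Polynomial.map_sub, Polynomial.map_pow, h4, Polynomial.map_mul, Polynomial.map_pow,
          Polynomial.map_comp, fW_map, Polynomial.map_mul, map_C, map_X] at h5
        rw [hWL]
        exact h5)
    exact unramOn_of χ h1 h2 h3 hU

end Pool.Agent.E8helper67.EL
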