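import Pool.Agent.E8helper67.EL.Pell
set_option autoImplicit false

/-!
Integrality through valuation rings.
-/

namespace Pool.Agent.E8helper67.EL

open Polynomial

/-- polynomials with integral coefficients -/
def IntC {k : Type*} [Field k] (p : k[X]) : Prop := ∀ i, IsIntegral ℤ (p.coeff i)

section IntC

variable {k : Type*} [Field k]

theorem intC_iff {p : k[X]} : IntC p ↔ (mapRingHom (algebraMap ℤ k)).IsIntegralElem p :=
  (Polynomial.isIntegral_iff_isIntegral_coeff).symm

theorem IntC.add {p q : k[X]} (hp : IntC p) (hq : IntC q) : IntC (p + q) := by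
  rw [intC_iff] at *
  exact RingHom.IsIntegralElem.add _ hp hq

theorem IntC.sub {p q : k[X]} (hp : IntC p) (hq : IntC q) : IntC (p - q) := by
  rw [intC_iff] at *
  exact RingHom.IsIntegralElem.sub _ hp hq

theorem IntC.neg {p : k[X]} (hp : IntC p) : IntC (-p) := by
  rw [intC_iff] at *
  exact RingHom.IsIntegralElem.neg _ hp

theorem IntC.mul {p q : k[X]} (hp : IntC p) (hq : IntC q) : IntC (p * q) := by
  rw [intC_iff] at *
  exact RingHom.IsIntegralElem.mul _ hp hq

theorem IntC.pow {p : k[X]} (hp : IntC p) (n : ℕ) : IntC (p ^ n) := by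
  induction n with
  | zero =>
    rw [pow_zero]
    have h : (1 : k[X]) = C 1 := C_1.symm
    intro i
    rw [h, coeff_C]
    split_ifs
    · exact isIntegral_one
    · exact isIntegral_zero
  | succ n ih =>
    rw [pow_succ]
    exact ih.mul hp

theorem intC_C {a : k} (ha : IsIntegral ℤ a) : IntC (C a) := by
  intro i
  rw [coeff_C]
  split_ifs
  · exact ha
  · exact isIntegral_zero

theorem intC_X : IntC (X : k[X]) := by
  intro i
  rw [coeff_X]
  split_ifs
  · exact isIntegral_one
  · exact isIntegral_zero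

theorem intC_ofNat (n : ℕ) [n.AtLeastTwo] : IntC (OfNat.ofNat n : k[X]) := by
  have h : (OfNat.ofNat n : k[X]) = C (OfNat.ofNat n : k) := rfl
  rw [h]
  refine intC_C ?_
  have h2 : (OfNat.ofNat n : k) = algebraMap ℤ k (OfNat.ofNat n) := by simp
  rw [h2]
  exact isIntegral_algebraMap

/-- `p` is integral if a monic integral polynomial expression in `p` is -/
theorem intC_of_aeval {p : k[X]} {Q : ℤ[X]} (hQ : Q.Monic) (hd : Q.natDegree ≠ 0)
    (h : IntC (aeval p Q)) : IntC p := by
  rw [intC_iff] at *
  let _ := Polynomial.algebra ℤ k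
  have h1 : aeval p (Q.map (C : ℤ →+* ℤ[X])) = aeval p Q := by
    rw [aeval_def, eval₂_map, aeval_def]
    congr 1
    exact RingHom.ext_int _ _
  refine IsIntegral.of_aeval_monic (hQ.map (C : ℤ →+* ℤ[X])) ?_ ?_
  · rw [hQ.natDegree_map]
    exact hd
  · rw [h1]
    exact h

theorem mem_valuationSubring {V : ValuationSubring k} {x : k} (hx : IsIntegral ℤ x) : x ∈ V := by
  have h1 : IsIntegral V x := hx.tower_top
  obtain ⟨y, hy⟩ := IsIntegrallyClosed.isIntegral_iff.1 h1
  rw [← hy]
  exact y.2

theorem isIntegral_of_forall {x : k} (h : ∀ V : ValuationSubring k, x ∈ V) : IsIntegral ℤ x := by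
  have h1 := iInf_valuationSubring_superset (K := k) (s := ∅)
  have h2 : x ∈ (⨅ V : {V : ValuationSubring k // (∅ : Set k) ⊆ V.toSubring}, V.1.toSubring) := by
    rw [Subring.mem_iInf]
    exact fun V => h V.1
  rw [h1] at h2
  have h3 : IsIntegral (Subring.closure (∅ : Set k)) x := h2
  have h4 : Algebra.IsIntegral ℤ (Subring.closure (∅ : Set k)) := by
    constructor
    intro y
    have hy := y.2
    have h5 : IsIntegral ℤ (y : k) := by
      have h6 : (y : k) ∈ (integralClosure ℤ k).toSubring := by
        have h7 : Subring.closure (∅ : Set k) ≤ (integralClosure ℤ k).toSubring := by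
          rw [Subring.closure_le]
          exact Set.empty_subset _
        exact h7 hy
      exact h6
    rw [← isIntegral_algHom_iff ((Subring.closure (∅ : Set k)).subtype.toIntAlgHom)
      Subtype.val_injective]
    exact h5
  exact isIntegral_trans x h3

end IntC

section Gauss

variable {k : Type*} [Field k] (V : ValuationSubring k)

/-- lifting polynomials to the valuation ring -/
theorem exists_lift {p : k[X]} (h : ∀ i, p.coeff i ∈ V) :
    ∃ q : V[X], q.map (algebraMap V k) = p := by
  have h1 : p ∈ lifts (algebraMap V k) := by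
    rw [lifts_iff_coeff_lifts]
    exact fun i => ⟨⟨p.coeff i, h i⟩, rfl⟩
  exact (mem_lifts _).1 h1

/-- Gauss lemma for an anisotropic binary form. -/
theorem gauss {H L N : V[X]} {a b : k[X]}
    (h : a ^ 2 + a * b * H.map (algebraMap V k) - b ^ 2 * L.map (algebraMap V k) =
      N.map (algebraMap V k))
    (hani : ∀ u v : (IsLocalRing.ResidueField V)[X],
      u ^ 2 + u * v * H.map (IsLocalRing.residue V) - v ^ 2 * L.map (IsLocalRing.residue V) = 0 →
        u = 0 ∧ v = 0) :
    (∀ i, a.coeff i ∈ V) ∧ ∀ i, b.coeff i ∈ V := by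
  classical
  by_contra hcon
  have hex : ∃ w : k, w ∉ V ∧ (∀ i, V.valuation (a.coeff i) ≤ V.valuation w) ∧
      (∀ i, V.valuation (b.coeff i) ≤ V.valuation w) ∧
      ((∃ i, a.coeff i = w) ∨ ∃ i, b.coeff i = w) := by
    have hex0 : ∃ i, a.coeff i ∉ V ∨ b.coeff i ∉ V := by
      by_contra h0
      push Not at h0
      exact hcon ⟨fun i => (h0 i).1, fun i => (h0 i).2⟩
    obtain ⟨i₀, hi₀⟩ := hex0
    set S := a.support ∪ b.support with hS
    have hmem : i₀ ∈ S := by
      rw [hS, Finset.mem_union, mem_support_iff, mem_support_iff]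
      rcases hi₀ with h1 | h1
      · left
        intro h2
        rw [h2] at h1
        exact h1 V.zero_mem
      · right
        intro h2
        rw [h2] at h1
        exact h1 V.zero_mem
    obtain ⟨j, hj, hmax⟩ := Finset.exists_max_image S
      (fun i => max (V.valuation (a.coeff i)) (V.valuation (b.coeff i))) ⟨i₀, hmem⟩
    have hall : ∀ i, V.valuation (a.coeff i) ≤
        max (V.valuation (a.coeff j)) (V.valuation (b.coeff j)) ∧
        V.valuation (b.coeff i) ≤ max (V.valuation (a.coeff j)) (V.valuation (b.coeff j)) := by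
      intro i
      by_cases hi : i ∈ S
      · have h1 := hmax i hi
        exact ⟨(le_max_left _ _).trans h1, (le_max_right _ _).trans h1⟩
      · rw [hS, Finset.mem_union, mem_support_iff, mem_support_iff] at hi
        push Not at hi
        rw [hi.1, hi.2, map_zero]
        exact ⟨zero_le, zero_le⟩
    have hbig : ∀ w : k, V.valuation w = max (V.valuation (a.coeff j)) (V.valuation (b.coeff j)) →
        w ∉ V := by
      intro w hw hwV
      rw [← V.valuation_le_one_iff] at hwV
      rcases hi₀ with h1 | h1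
      · apply h1
        rw [← V.valuation_le_one_iff]
        exact ((hall i₀).1.trans_eq hw.symm).trans hwV
      · apply h1
        rw [← V.valuation_le_one_iff]
        exact ((hall i₀).2.trans_eq hw.symm).trans hwV
    rcases le_total (V.valuation (a.coeff j)) (V.valuation (b.coeff j)) with h1 | h1
    · have h2 : V.valuation (b.coeff j) =
          max (V.valuation (a.coeff j)) (V.valuation (b.coeff j)) := (max_eq_right h1).symm
      exact ⟨b.coeff j, hbig _ h2, fun i => (hall i).1.trans_eq h2.symm,
        fun i => (hall i).2.trans_eq h2.symm, Or.inr ⟨j, rfl⟩⟩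
    · have h2 : V.valuation (a.coeff j) =
          max (V.valuation (a.coeff j)) (V.valuation (b.coeff j)) := (max_eq_left h1).symm
      exact ⟨a.coeff j, hbig _ h2, fun i => (hall i).1.trans_eq h2.symm,
        fun i => (hall i).2.trans_eq h2.symm, Or.inl ⟨j, rfl⟩⟩
  obtain ⟨w, hw, ha, hb, hone⟩ := hex
  have hw0 : w ≠ 0 := by rintro rfl; exact hw V.zero_mem
  have hwi : w⁻¹ ∈ V := (V.mem_or_inv_mem w).resolve_left hw
  have hdiv : ∀ x : k, V.valuation x ≤ V.valuation w → w⁻¹ * x ∈ V := by
    intro x hx
    rw [← V.valuation_le_one_iff, map_mul, map_inv₀]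
    have h1 : V.valuation w ≠ 0 := (Valuation.ne_zero_iff _).2 hw0
    calc (V.valuation w)⁻¹ * V.valuation x ≤ (V.valuation w)⁻¹ * V.valuation w :=
          mul_le_mul_right hx _
      _ = 1 := inv_mul_cancel₀ h1
  obtain ⟨a', ha'⟩ := exists_lift V (p := C w⁻¹ * a) (fun i => by
    rw [coeff_C_mul]; exact hdiv _ (ha i))
  obtain ⟨b', hb'⟩ := exists_lift V (p := C w⁻¹ * b) (fun i => by
    rw [coeff_C_mul]; exact hdiv _ (hb i))
  set ω : V := ⟨w⁻¹, hwi⟩ with hω
  have hωm : ω ∈ IsLocalRing.maximalIdeal V := by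
    rw [IsLocalRing.mem_maximalIdeal, mem_nonunits_iff]
    intro hu
    apply hw
    obtain ⟨u, hu⟩ := hu.exists_right_inv
    have h1 := congrArg (algebraMap V k) hu
    rw [map_mul, map_one] at h1
    have h2 : w⁻¹ * (u : k) = 1 := h1
    have h3 : (u : k) = w := by
      rw [inv_mul_eq_one₀ hw0] at h2
      exact h2.symm
    rw [← h3]
    exact u.2
  have hinj : Function.Injective (algebraMap V k) := IsFractionRing.injective V k
  have heq : a' ^ 2 + a' * b' * H - b' ^ 2 * L = C (ω ^ 2) * N := by
    apply Polynomial.map_injective _ hinj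
    simp only [Polynomial.map_add, Polynomial.map_sub, Polynomial.map_mul, Polynomial.map_pow,
      map_C, ha', hb', ← h]
    have h1 : algebraMap V k ω = w⁻¹ := rfl
    rw [map_pow, h1, C_pow]
    ring
  have hred := congrArg (Polynomial.map (IsLocalRing.residue V)) heq
  simp only [Polynomial.map_add, Polynomial.map_sub, Polynomial.map_mul, Polynomial.map_pow,
    map_C, map_pow] at hred
  have hω0 : IsLocalRing.residue V ω = 0 := by
    rw [IsLocalRing.residue_eq_zero_iff]
    exact hωm
  rw [hω0, C_0, zero_pow two_ne_zero, zero_mul] at hred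
  obtain ⟨h1, h2⟩ := hani _ _ hred
  rcases hone with ⟨i, hi⟩ | ⟨i, hi⟩
  · have h3 : a'.coeff i = 1 := by
      apply hinj
      rw [← coeff_map, ha', coeff_C_mul, hi, inv_mul_cancel₀ hw0, map_one]
    have h4 := congrArg (fun p => p.coeff i) h1
    simp only [coeff_map, h3, map_one, coeff_zero] at h4
    exact one_ne_zero h4
  · have h3 : b'.coeff i = 1 := by
      apply hinj
      rw [← coeff_map, hb', coeff_C_mul, hi, inv_mul_cancel₀ hw0, map_one]
    have h4 := congrArg (fun p => p.coeff i) h2
    simp only [coeff_map, h3, map_one, coeff_zero] at h4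
    exact one_ne_zero h4

end Gauss

section Aniso

variable {κ : Type*} [Field κ]

/-- the norm form of the curve is anisotropic -/
theorem aniso_curve {H L : κ[X]} (hH : H.natDegree = 2) (hL : L ≠ 0)
    (hLd : L.natDegree ≤ 1) {u v : κ[X]} (h : u ^ 2 + u * v * H - v ^ 2 * L = 0) :
    u = 0 ∧ v = 0 := by
  classical
  by_cases hv : v = 0
  · refine ⟨?_, hv⟩
    rw [hv] at h
    have h1 : u ^ 2 = 0 := by linear_combination h
    exact pow_eq_zero_iff two_ne_zero |>.1 h1
  · exfalso
    obtain ⟨g, u', v', hg, hcop, hu, hv'⟩ : ∃ g u' v' : κ[X], g ≠ 0 ∧ IsCoprime u' v' ∧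
        u = g * u' ∧ v = g * v' := by
      have hg : EuclideanDomain.gcd u v ≠ 0 := fun h0 =>
        hv (EuclideanDomain.gcd_eq_zero_iff.1 h0).2
      obtain ⟨u', hu'⟩ := EuclideanDomain.gcd_dvd_left u v
      obtain ⟨v', hv'⟩ := EuclideanDomain.gcd_dvd_right u v
      refine ⟨_, u', v', hg, ?_, hu', hv'⟩
      have h1 := EuclideanDomain.gcd_eq_gcd_ab u v
      refine ⟨EuclideanDomain.gcdA u v, EuclideanDomain.gcdB u v, ?_⟩
      apply mul_left_cancel₀ hg
      linear_combination -h1 - EuclideanDomain.gcdA u v * hu' - EuclideanDomain.gcdB u v * hv'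
    have h1 : u' ^ 2 + u' * v' * H - v' ^ 2 * L = 0 := by
      apply mul_left_cancel₀ (pow_ne_zero 2 hg)
      rw [hu, hv'] at h
      linear_combination h
    -- `v'` is a unit
    have h2 : v' ∣ u' ^ 2 := ⟨v' * L - u' * H, by linear_combination h1⟩
    have h3 : IsUnit v' := by
      have h4 : IsCoprime (u' ^ 2) v' := hcop.pow_left
      exact h4.isUnit_of_dvd' h2 dvd_rfl
    have hu'0 : u' ≠ 0 := by
      rintro rfl
      have h4 : v' ^ 2 * L = 0 := by linear_combination -h1
      exact (mul_ne_zero (pow_ne_zero 2 h3.ne_zero) hL) h4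
    have hprod : u' * (u' + v' * H) = v' ^ 2 * L := by linear_combination h1
    have hv'd : v'.natDegree = 0 := natDegree_eq_zero_of_isUnit h3
    have hR : (v' ^ 2 * L).natDegree ≤ 1 := by
      refine natDegree_mul_le.trans ?_
      rw [natDegree_pow, hv'd]
      omega
    have hne : u' + v' * H ≠ 0 := by
      intro h0
      rw [h0, mul_zero] at hprod
      exact (mul_ne_zero (pow_ne_zero 2 h3.ne_zero) hL) hprod.symm
    have hd := natDegree_mul hu'0 hne
    rw [hprod] at hd
    have hH0 : H ≠ 0 := by rintro rfl; simp at hH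
    have hvH : (v' * H).natDegree = 2 := by
      rw [natDegree_mul h3.ne_zero hH0, hv'd, hH]
    have h5 : (u' + v' * H).natDegree = 2 := by
      rw [natDegree_add_eq_right_of_natDegree_lt, hvH]
      rw [hvH]
      omega
    omega

/-- the norm form of the coordinate ring of a Weierstrass curve is anisotropic -/
theorem aniso_weier (W : WeierstrassCurve κ) {u v : κ[X]}
    (h : u ^ 2 + u * v * (-(C W.a₁ * X + C W.a₃)) -
      v ^ 2 * (X ^ 3 + C W.a₂ * X ^ 2 + C W.a₄ * X + C W.a₆) = 0) : u = 0 ∧ v = 0 := by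
  have h1 := WeierstrassCurve.Affine.CoordinateRing.degree_norm_smul_basis (W' := W.toAffine) u v
  rw [WeierstrassCurve.Affine.CoordinateRing.norm_smul_basis] at h1
  have h2 : u ^ 2 - u * v * (C W.toAffine.a₁ * X + C W.toAffine.a₃) -
      v ^ 2 * (X ^ 3 + C W.toAffine.a₂ * X ^ 2 + C W.toAffine.a₄ * X + C W.toAffine.a₆) = 0 := by
    linear_combination h
  rw [h2, degree_zero] at h1
  have h3 := (max_eq_bot.1 h1.symm)
  constructor
  · by_contra hu
    rw [degree_eq_natDegree hu] at h3
    have h4 := h3.1
    rw [two_nsmul] at h4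
    exact absurd h4 (by exact_mod_cast WithBot.coe_ne_bot)
  · by_contra hv
    rw [degree_eq_natDegree hv] at h3
    have h4 := h3.2
    rw [two_nsmul] at h4
    exact absurd h4 (by exact_mod_cast WithBot.coe_ne_bot)

end Aniso

end Pool.Agent.E8helper67.EL
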