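import Pool.Agent.E8helper67.EL.Minim
import Pool.Agent.E8helper67.EL.Coll
set_option autoImplicit false

/-!
The quartic of a point, and the halves of a point.
-/

namespace Pool.Agent.E8helper67.EL

open Polynomial

variable {k : Type*} [Field k]

/-- roots of integral monic polynomials are integral -/
theorem isIntegral_of_root {F : k[X]} (hF : F.Monic) (hn : 0 < F.natDegree) (hint : IntC F) {b : k}
    (hb : F.eval b = 0) : IsIntegral ℤ b := by
  have hl : F ∈ lifts (algebraMap (integralClosure ℤ k) k) := by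
    rw [lifts_iff_coeff_lifts]
    intro i
    exact ⟨⟨F.coeff i, hint i⟩, rfl⟩
  obtain ⟨q, hq, hqd, hqm⟩ := lifts_and_natDegree_eq_and_monic hl hF
  have h1 : aeval b q = 0 := by
    rw [← hb, ← hq, eval_map]
    rfl
  have h2 : IsIntegral (integralClosure ℤ k) b := by
    refine IsIntegral.of_aeval_monic hqm (by omega) ?_
    rw [h1]
    exact isIntegral_zero
  exact isIntegral_trans b h2

variable (W : WeierstrassCurve k) (x₀ y₀ : k)

/-- the coefficients of the quartic of a point, centered -/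
def cP : k := -(W.b₂ + 12 * x₀) / 2

def cQ : k := 4 * A3 W x₀ y₀

def cR : k := W.b₂ ^ 2 / 16 - W.b₂ * x₀ / 2 - 3 * x₀ ^ 2 - 2 * W.b₄

variable {W x₀ y₀} [CharZero k]

theorem fW_eval (t : k) : (fW W x₀ y₀).eval t = (t + W.a₁ / 2) ^ 4 +
    cP W x₀ * (t + W.a₁ / 2) ^ 2 + cQ W x₀ y₀ * (t + W.a₁ / 2) + cR W x₀ := by
  simp only [fW, hW, lW, A3, A4, cP, cQ, cR, eval_add, eval_sub, eval_mul, eval_pow, eval_X, eval_C,
    WeierstrassCurve.b₂, WeierstrassCurve.b₄]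
  have h4 : (4 : k[X]).eval t = 4 := by
    have : (4 : k[X]) = C 4 := rfl
    rw [this, eval_C]
  rw [h4]
  ring

theorem D4_eq (h : W.toAffine.Equation x₀ y₀) :
    D4 (cP W x₀) (cQ W x₀ y₀) (cR W x₀) = 256 * W.Δ := by
  rw [WeierstrassCurve.Affine.equation_iff] at h
  have h6 : W.a₆ = y₀ ^ 2 + W.a₁ * x₀ * y₀ + W.a₃ * y₀ - x₀ ^ 3 - W.a₂ * x₀ ^ 2 - W.a₄ * x₀ := by
    linear_combination -h
  simp only [D4, cP, cQ, cR, A3, WeierstrassCurve.b₂, WeierstrassCurve.b₄, WeierstrassCurve.b₆,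
    WeierstrassCurve.b₈, WeierstrassCurve.Δ]
  rw [h6]
  ring

theorem D4_ne (hΔ : W.Δ ≠ 0) (h : W.toAffine.Equation x₀ y₀) :
    D4 (cP W x₀) (cQ W x₀ y₀) (cR W x₀) ≠ 0 := by
  rw [D4_eq h]
  exact mul_ne_zero (by norm_num) hΔ

/-- no double roots -/
theorem D4_double {R : Type*} [CommRing R] {p q r e : R} (h : e ^ 4 + p * e ^ 2 + q * e + r = 0)
    (h' : 4 * e ^ 3 + 2 * p * e + q = 0) : D4 p q r = 0 := by
  have hq : q = -(4 * e ^ 3 + 2 * p * e) := by linear_combination h'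
  have hr : r = 3 * e ^ 4 + p * e ^ 2 := by linear_combination h - e * h'
  rw [hq, hr]
  unfold D4
  ring

omit [CharZero k] in
theorem fW_monic : (fW W x₀ y₀).Monic ∧ (fW W x₀ y₀).natDegree = 4 := by
  have h1 : (hW W x₀ ^ 2).Monic := (hW_monic W x₀).pow 2
  have h2 : (hW W x₀ ^ 2).natDegree = 4 := by
    rw [natDegree_pow, hW_natDegree]
  have h3 : (4 * lW W x₀ y₀).natDegree < (hW W x₀ ^ 2).natDegree := by
    rw [h2]
    have h4 : (4 : k[X]) = C 4 := rfl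
    have h5 := (natDegree_C_mul_le 4 (lW W x₀ y₀)).trans (lW_natDegree W x₀ y₀)
    rw [← h4] at h5
    omega
  unfold fW
  exact ⟨h1.add_of_left (degree_lt_degree h3), by rw [natDegree_add_eq_left_of_natDegree_lt h3, h2]⟩

theorem fW_sep [IsAlgClosed k] (hΔ : W.Δ ≠ 0) (h : W.toAffine.Equation x₀ y₀) :
    (fW W x₀ y₀).Separable := by
  unfold Polynomial.Separable
  rw [Polynomial.isCoprime_iff_aeval_ne_zero_of_isAlgClosed k k]
  intro t
  by_contra hc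
  push Not at hc
  obtain ⟨h1, h2⟩ := hc
  rw [coe_aeval_eq_eval] at h1 h2
  refine D4_ne hΔ h (D4_double (e := t + W.a₁ / 2) ?_ ?_)
  · rw [← fW_eval, h1]
  · have h3 : (derivative (fW W x₀ y₀)).eval t = 4 * (t + W.a₁ / 2) ^ 3 +
        2 * cP W x₀ * (t + W.a₁ / 2) + cQ W x₀ y₀ := by
      have h4 : (4 : k[X]) = C 4 := rfl
      simp only [fW, hW, lW, A3, A4, cP, cQ, h4, derivative_add, derivative_sub, derivative_mul,
        derivative_pow, derivative_X, derivative_C, eval_add, eval_sub, eval_mul, eval_pow,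
        eval_X, eval_C, WeierstrassCurve.b₂, eval_one, eval_zero, Nat.cast_ofNat]
      ring
    rw [← h3, h2]

open WeierstrassCurve.Affine

/-- the halves of a point -/
theorem exists_half_point [DecidableEq k] (hW' : GoodW W) (hx : IsIntegral ℤ x₀)
    (h : W.toAffine.Nonsingular x₀ y₀) {n : ℕ} (hn0 : 0 < n)
    (hn : n • (Point.some x₀ y₀ h) = 0) {e : k}
    (he : e ^ 4 + cP W x₀ * e ^ 2 + cQ W x₀ y₀ * e + cR W x₀ = 0) :
    ∃ (x₁ y₁ : k) (h₁ : W.toAffine.Nonsingular x₁ y₁), IsIntegral ℤ x₁ ∧ IsIntegral ℤ y₁ ∧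
      (∃ m : ℕ, 0 < m ∧ m • (Point.some x₁ y₁ h₁) = 0) ∧
      cP W x₁ = (-1 / 2) ^ 2 * tP (cP W x₀) e ∧
      cQ W x₁ y₁ = (-1 / 2) ^ 3 * tQ (cP W x₀) (cQ W x₀ y₀) e ∧
      cR W x₁ = (-1 / 2) ^ 4 * tR (cP W x₀) (cQ W x₀ y₀) e := by
  set θ := (e ^ 2 - (W.b₂ / 4 + 3 * x₀)) / 2 with hθ
  set t := e - W.a₁ / 2 with ht
  set x₁ := x₀ + θ with hx₁
  set y₁ := y₀ + t * θ with hy₁
  have heq := h.1
  have hD := D4_ne hW'.hΔ heq
  rw [equation_iff] at heq
  have hq : cQ W x₁ y₁ = 4 * e ^ 3 + 2 * cP W x₀ * e + cQ W x₀ y₀ := by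
    simp only [cQ, cP, A3, hx₁, hy₁, hθ, ht, WeierstrassCurve.b₂]
    ring
  have hη : A3 W x₁ y₁ ≠ 0 := by
    intro h0
    apply hD
    refine D4_double he ?_
    rw [← hq, cQ, h0, mul_zero]
  have heq₁ : W.toAffine.Equation x₁ y₁ := by
    rw [equation_iff]
    simp only [cP, cQ, cR, A3, WeierstrassCurve.b₂, WeierstrassCurve.b₄] at he
    simp only [hx₁, hy₁, hθ, ht, WeierstrassCurve.b₂]
    linear_combination heq + ((e ^ 2 - ((W.a₁ ^ 2 + 4 * W.a₂) / 4 + 3 * x₀)) / 8) * he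
  have h₁ := (W.toAffine.equation_iff_nonsingular_of_Δ_ne_zero hW'.hΔ).1 heq₁
  have hslope : 3 * x₁ ^ 2 + 2 * W.a₂ * x₁ + W.a₄ - W.a₁ * y₁ = t * A3 W x₁ y₁ := by
    simp only [cP, cQ, cR, A3, WeierstrassCurve.b₂, WeierstrassCurve.b₄] at he
    simp only [hx₁, hy₁, hθ, ht, WeierstrassCurve.b₂, A3]
    linear_combination (-1 / 4) * he
  have hx₀ : x₀ = t ^ 2 + W.a₁ * t - W.a₂ - 2 * x₁ := by
    simp only [hx₁, hθ, ht, WeierstrassCurve.b₂]
    ring
  have heq₁' := heq₁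
  rw [equation_iff] at heq₁'
  have hquart : x₁ ^ 4 - W.b₄ * x₁ ^ 2 - 2 * W.b₆ * x₁ - W.b₈ =
      x₀ * (4 * x₁ ^ 3 + W.b₂ * x₁ ^ 2 + 2 * W.b₄ * x₁ + W.b₆) := by
    have h2 : (A3 W x₁ y₁) ^ 2 = 4 * x₁ ^ 3 + W.b₂ * x₁ ^ 2 + 2 * W.b₄ * x₁ + W.b₆ := by
      simp only [A3, WeierstrassCurve.b₂, WeierstrassCurve.b₄, WeierstrassCurve.b₆]
      linear_combination 4 * heq₁'
    rw [← h2]
    have h3 : x₀ * (A3 W x₁ y₁) ^ 2 = (3 * x₁ ^ 2 + 2 * W.a₂ * x₁ + W.a₄ - W.a₁ * y₁) ^ 2 +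
        W.a₁ * (3 * x₁ ^ 2 + 2 * W.a₂ * x₁ + W.a₄ - W.a₁ * y₁) * A3 W x₁ y₁ -
        (W.a₂ + 2 * x₁) * A3 W x₁ y₁ ^ 2 := by
      rw [hslope]
      linear_combination (A3 W x₁ y₁) ^ 2 * hx₀
    rw [h3]
    simp only [A3, WeierstrassCurve.b₄, WeierstrassCurve.b₆, WeierstrassCurve.b₈]
    linear_combination (8 * x₁ + W.a₁ ^ 2 + 4 * W.a₂) * heq₁'
  have h2' := isIntegral_ofNat (k := k) 2
  have h4' := isIntegral_ofNat (k := k) 4
  have hb2 : IsIntegral ℤ W.b₂ := (hW'.h1.pow 2).add (h4'.mul hW'.h2)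
  have hb4 : IsIntegral ℤ W.b₄ := (h2'.mul hW'.h4).add (hW'.h1.mul hW'.h3)
  have hb6 : IsIntegral ℤ W.b₆ := (hW'.h3.pow 2).add (h4'.mul hW'.h6)
  have hb8 : IsIntegral ℤ W.b₈ := by
    have h5 := ((((hW'.h1.pow 2).mul hW'.h6).add ((h4'.mul hW'.h2).mul hW'.h6)).sub
      ((hW'.h1.mul hW'.h3).mul hW'.h4)).add (hW'.h2.mul (hW'.h3.pow 2))
    exact h5.sub (hW'.h4.pow 2)
  have hx₁i : IsIntegral ℤ x₁ := by
    refine isIntegral_of_root (F := X ^ 4 - C (4 * x₀) * X ^ 3 - C (W.b₄ + x₀ * W.b₂) * X ^ 2 -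
      C (2 * W.b₆ + x₀ * (2 * W.b₄)) * X - C (W.b₈ + x₀ * W.b₆)) (by monicity!) ?_ ?_ ?_
    · have h6 : (X ^ 4 - C (4 * x₀) * X ^ 3 - C (W.b₄ + x₀ * W.b₂) * X ^ 2 -
          C (2 * W.b₆ + x₀ * (2 * W.b₄)) * X - C (W.b₈ + x₀ * W.b₆)).natDegree = 4 := by
        compute_degree!
      omega
    · exact ((((intC_X.pow 4).sub ((intC_C (h4'.mul hx)).mul (intC_X.pow 3))).sub
        ((intC_C (hb4.add (hx.mul hb2))).mul (intC_X.pow 2))).sub
        ((intC_C ((h2'.mul hb6).add (hx.mul (h2'.mul hb4)))).mul intC_X)).sub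
        (intC_C (hb8.add (hx.mul hb6)))
    · simp only [eval_sub, eval_mul, eval_pow, eval_X, eval_C]
      linear_combination hquart
  have hy₁i : IsIntegral ℤ y₁ := by
    refine isIntegral_of_root (F := X ^ 2 + C (W.a₁ * x₁ + W.a₃) * X -
      C (x₁ ^ 3 + W.a₂ * x₁ ^ 2 + W.a₄ * x₁ + W.a₆)) (by monicity!) ?_ ?_ ?_
    · have h6 : (X ^ 2 + C (W.a₁ * x₁ + W.a₃) * X -
          C (x₁ ^ 3 + W.a₂ * x₁ ^ 2 + W.a₄ * x₁ + W.a₆)).natDegree = 2 := by
        compute_degree!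
      omega
    · exact ((intC_X.pow 2).add ((intC_C ((hW'.h1.mul hx₁i).add hW'.h3)).mul intC_X)).sub
        (intC_C ((((hx₁i.pow 3).add (hW'.h2.mul (hx₁i.pow 2))).add (hW'.h4.mul hx₁i)).add hW'.h6))
    · simp only [eval_sub, eval_add, eval_mul, eval_pow, eval_X, eval_C]
      linear_combination heq₁'
  refine ⟨x₁, y₁, h₁, hx₁i, hy₁i, ⟨n * 2, by omega, ?_⟩, ?_, ?_, ?_⟩
  · have hYne : y₁ ≠ W.toAffine.negY x₁ y₁ := by
      intro h0
      apply hη
      unfold negY at h0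
      unfold A3
      linear_combination h0
    have hsl : W.toAffine.slope x₁ x₁ y₁ y₁ = t := by
      rw [slope_of_Y_ne rfl hYne, div_eq_iff (sub_ne_zero.2 hYne)]
      have h5 : y₁ - W.toAffine.negY x₁ y₁ = A3 W x₁ y₁ := by
        unfold negY A3
        ring
      rw [h5]
      exact hslope
    have h2P : 2 • Point.some x₁ y₁ h₁ = -Point.some x₀ y₀ h := by
      rw [two_nsmul, Point.add_self_of_Y_ne hYne, Point.neg_some, Point.some.injEq, hsl]
      have h5 : W.toAffine.addX x₁ x₁ t = x₀ := by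
        unfold addX
        linear_combination -hx₀
      refine ⟨h5, ?_⟩
      unfold addY negAddY
      rw [h5]
      congr 1
      rw [hx₁, hy₁]
      ring
    rw [mul_nsmul', h2P, smul_neg, hn, neg_zero]
  · simp only [cP, tP, hx₁, hθ]
    ring
  · rw [hq]
    unfold tQ
    ring
  · simp only [cP, cQ, cR, A3, WeierstrassCurve.b₂, WeierstrassCurve.b₄] at he
    simp only [cP, cQ, cR, A3, tR, hx₁, hθ, WeierstrassCurve.b₂, WeierstrassCurve.b₄]
    linear_combination he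

/-- integral torsion points -/
def TorsPt [DecidableEq k] (W : WeierstrassCurve k) (x y : k) : Prop :=
  IsIntegral ℤ x ∧ IsIntegral ℤ y ∧ ∃ h : W.toAffine.Nonsingular x y,
    ∃ n : ℕ, 0 < n ∧ n • (Point.some x y h) = 0

/-- There is a torsion point whose quartic does not have collinear roots, at any finite number of
places. -/
theorem exists_good_point [DecidableEq k] [IsAlgClosed k] {M : ℕ} (S : Fin M → (k →+* ℂ))
    (hW' : GoodW W) : ∀ (N : ℕ) (x₀ y₀ : k), TorsPt W x₀ y₀ →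
      Set.ncard {i | CollC (S i (cP W x₀)) (S i (cQ W x₀ y₀)) (S i (cR W x₀))} ≤ N →
      ∃ x y, TorsPt W x y ∧ ∀ i, ¬ CollC (S i (cP W x)) (S i (cQ W x y)) (S i (cR W x)) := by
  intro N
  induction N with
  | zero =>
    intro x₀ y₀ h hcard
    refine ⟨x₀, y₀, h, fun i hi => ?_⟩
    have h1 : Set.ncard {i | CollC (S i (cP W x₀)) (S i (cQ W x₀ y₀)) (S i (cR W x₀))} = 0 := by
      omega
    rw [Set.ncard_eq_zero] at h1
    have h2 : i ∈ ({i | CollC (S i (cP W x₀)) (S i (cQ W x₀ y₀)) (S i (cR W x₀))} : Set _) := hi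
    rw [h1] at h2
    exact h2
  | succ N ih =>
    intro x₀ y₀ h hcard
    by_cases hbad : ∃ i, CollC (S i (cP W x₀)) (S i (cQ W x₀ y₀)) (S i (cR W x₀))
    swap
    · push Not at hbad
      exact ⟨x₀, y₀, h, hbad⟩
    obtain ⟨i₀, hi₀⟩ := hbad
    obtain ⟨hxi, hyi, hns, n, hn0, hn⟩ := h
    have hD := D4_ne hW'.hΔ hns.1
    have hDS : ∀ i, D4 (S i (cP W x₀)) (S i (cQ W x₀ y₀)) (S i (cR W x₀)) ≠ 0 := by
      intro i h0
      apply hD
      apply (S i).injective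
      rw [map_zero, ← h0]
      simp [D4, map_ofNat]
    obtain ⟨eC, heC, heC'⟩ := exists_half (hDS i₀) hi₀
    obtain ⟨e, rfl⟩ : ∃ e, S i₀ e = eC := by
      refine exists_map_elt (S i₀) (p := X ^ 4 + C (cP W x₀) * X ^ 2 + C (cQ W x₀ y₀) * X +
        C (cR W x₀)) ?_ ?_
      · refine Monic.ne_zero ?_
        monicity!
      · simp only [eval₂_add, eval₂_mul, eval₂_pow, eval₂_X, eval₂_C]
        exact heC
    have he : e ^ 4 + cP W x₀ * e ^ 2 + cQ W x₀ y₀ * e + cR W x₀ = 0 := by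
      apply (S i₀).injective
      rw [map_zero, ← heC]
      simp
    obtain ⟨x₁, y₁, hns₁, hx₁, hy₁, ⟨m, hm0, hm⟩, hp, hq, hr⟩ :=
      exists_half_point hW' hxi hns hn0 hn he
    have hQ : tQ (cP W x₀) (cQ W x₀ y₀) e ≠ 0 := by
      intro h0
      apply hD
      refine D4_double he ?_
      unfold tQ at h0
      have h8 : (8 : k) ≠ 0 := by norm_num
      have h1 : (8 : k) * (4 * e ^ 3 + 2 * cP W x₀ * e + cQ W x₀ y₀) = 0 := by
        linear_combination -h0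
      exact (mul_eq_zero.1 h1).resolve_left h8
    have hQS : ∀ i, tQ (S i (cP W x₀)) (S i (cQ W x₀ y₀)) (S i e) ≠ 0 := by
      intro i h0
      apply hQ
      apply (S i).injective
      rw [map_zero, ← h0]
      simp [tQ, map_ofNat]
    have hcoll : ∀ i, CollC (S i (cP W x₁)) (S i (cQ W x₁ y₁)) (S i (cR W x₁)) ↔
        CollC (tP (S i (cP W x₀)) (S i e)) (tQ (S i (cP W x₀)) (S i (cQ W x₀ y₀)) (S i e))
          (tR (S i (cP W x₀)) (S i (cQ W x₀ y₀)) (S i e)) := by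
      intro i
      rw [← CollC.scale (p := tP (S i (cP W x₀)) (S i e))
        (q := tQ (S i (cP W x₀)) (S i (cQ W x₀ y₀)) (S i e))
        (r := tR (S i (cP W x₀)) (S i (cQ W x₀ y₀)) (S i e)) (m := (-1 / 2 : ℂ)) (by norm_num),
        hp, hq, hr]
      simp [tP, tQ, tR, map_ofNat]
    refine ih x₁ y₁ ⟨hx₁, hy₁, hns₁, m, hm0, hm⟩ ?_
    have hlt : Set.ncard {i | CollC (S i (cP W x₁)) (S i (cQ W x₁ y₁)) (S i (cR W x₁))} <
        Set.ncard {i | CollC (S i (cP W x₀)) (S i (cQ W x₀ y₀)) (S i (cR W x₀))} := by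
      refine Set.ncard_lt_ncard ?_ (Set.toFinite _)
      rw [Set.ssubset_iff_of_subset]
      · refine ⟨i₀, hi₀, fun hj => ?_⟩
        exact heC' (hQS i₀) ((hcoll i₀).1 hj)
      · intro j hj
        refine coll_of_tilde ?_ (hDS j) (hQS j) ((hcoll j).1 hj)
        have h2 := congrArg (S j) he
        simpa using h2
    omega

end Pool.Agent.E8helper67.EL
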