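import Pool.Agent.E8helper67.EL.Tors2
set_option autoImplicit false

/-!
Integral solutions of the Pell equation of an integral point on an integral Weierstrass curve with
unit discriminant.
-/

namespace Pool.Agent.E8helper67.EL

open Polynomial

open WeierstrassCurve.Affine WeierstrassCurve.Affine.CoordinateRing

variable {k : Type*} [Field k]

/-- integral Weierstrass curves with unit discriminant -/
structure GoodW (W : WeierstrassCurve k) : Prop where
  h1 : IsIntegral ℤ W.a₁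
  h2 : IsIntegral ℤ W.a₂
  h3 : IsIntegral ℤ W.a₃
  h4 : IsIntegral ℤ W.a₄
  h6 : IsIntegral ℤ W.a₆
  hΔ : W.Δ ≠ 0
  hΔi : IsIntegral ℤ (W.Δ)⁻¹

theorem isIntegral_ofNat (n : ℕ) [n.AtLeastTwo] : IsIntegral ℤ (OfNat.ofNat n : k) := by
  have h2 : (OfNat.ofNat n : k) = algebraMap ℤ k (OfNat.ofNat n) := by simp
  rw [h2]
  exact isIntegral_algebraMap

variable {W : WeierstrassCurve k} {x₀ y₀ : k}

theorem hW_int (hW' : GoodW W) (hx : IsIntegral ℤ x₀) : IntC (hW W x₀) := by
  unfold hW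
  exact ((intC_X.pow 2).add ((intC_C hW'.h1).mul intC_X)).sub
    (intC_C (hW'.h2.add ((isIntegral_ofNat 3).mul hx)))

theorem A3_int (hW' : GoodW W) (hx : IsIntegral ℤ x₀) (hy : IsIntegral ℤ y₀) :
    IsIntegral ℤ (A3 W x₀ y₀) :=
  (((isIntegral_ofNat 2).mul hy).add (hW'.h1.mul hx)).add hW'.h3

theorem A4_int (hW' : GoodW W) (hx : IsIntegral ℤ x₀) (hy : IsIntegral ℤ y₀) :
    IsIntegral ℤ (A4 W x₀ y₀) :=
  ((((isIntegral_ofNat 3).mul (hx.pow 2)).add (((isIntegral_ofNat 2).mul hW'.h2).mul hx)).add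
    hW'.h4).sub (hW'.h1.mul hy)

theorem lW_int (hW' : GoodW W) (hx : IsIntegral ℤ x₀) (hy : IsIntegral ℤ y₀) :
    IntC (lW W x₀ y₀) :=
  ((intC_C (A3_int hW' hx hy)).mul intC_X).sub (intC_C (A4_int hW' hx hy))

/-- lifts of integral polynomials -/
theorem lift_int (V : ValuationSubring k) {p : k[X]} (hp : IntC p) :
    ∃ q : V[X], q.map (algebraMap V k) = p :=
  exists_lift V fun i => mem_valuationSubring (hp i)

/-- lifts of integral elements -/
theorem lift_elt (V : ValuationSubring k) {x : k} (hx : IsIntegral ℤ x) :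
    ∃ y : V, algebraMap V k y = x := ⟨⟨x, mem_valuationSubring hx⟩, rfl⟩

/-- the reduction of `l` does not vanish -/
theorem reduce (hW' : GoodW W) (hx : IsIntegral ℤ x₀) (hy : IsIntegral ℤ y₀)
    (heq : W.toAffine.Equation x₀ y₀) (V : ValuationSubring k) :
    ∃ H L : V[X], H.map (algebraMap V k) = hW W x₀ ∧ L.map (algebraMap V k) = lW W x₀ y₀ ∧
      H.Monic ∧ H.natDegree = 2 ∧ L.map (IsLocalRing.residue V) ≠ 0 ∧ L.natDegree ≤ 1 := by
  obtain ⟨b₁, hb₁⟩ := lift_elt V hW'.h1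
  obtain ⟨b₂, hb₂⟩ := lift_elt V hW'.h2
  obtain ⟨b₃, hb₃⟩ := lift_elt V hW'.h3
  obtain ⟨b₄, hb₄⟩ := lift_elt V hW'.h4
  obtain ⟨b₆, hb₆⟩ := lift_elt V hW'.h6
  obtain ⟨x, hx'⟩ := lift_elt V hx
  obtain ⟨y, hy'⟩ := lift_elt V hy
  obtain ⟨d, hd⟩ := lift_elt V hW'.hΔi
  have hinj : Function.Injective (algebraMap V k) := IsFractionRing.injective V k
  set WV : WeierstrassCurve V := ⟨b₁, b₂, b₃, b₄, b₆⟩ with hWV
  have hmap : WV.map (algebraMap V k) = W := by
    ext <;> simp [hWV, WeierstrassCurve.map, hb₁, hb₂, hb₃, hb₄, hb₆]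
  have hΔu : WV.Δ * d = 1 := by
    apply hinj
    rw [map_mul, map_one, hd, ← WeierstrassCurve.map_Δ, hmap, mul_inv_cancel₀ hW'.hΔ]
  have heqV : WV.toAffine.Equation x y := by
    rw [equation_iff] at heq ⊢
    apply hinj
    simp only [map_add, map_mul, map_pow]
    rw [hx', hy']
    show y₀ ^ 2 + algebraMap V k b₁ * x₀ * y₀ + algebraMap V k b₃ * y₀ =
      x₀ ^ 3 + algebraMap V k b₂ * x₀ ^ 2 + algebraMap V k b₄ * x₀ + algebraMap V k b₆
    rw [hb₁, hb₂, hb₃, hb₄, hb₆]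
    exact heq
  set Wr := WV.map (IsLocalRing.residue V) with hWr
  have hΔr : Wr.Δ ≠ 0 := by
    intro h0
    rw [hWr, WeierstrassCurve.map_Δ] at h0
    have h1 := congrArg (IsLocalRing.residue V) hΔu
    rw [map_mul, h0, zero_mul, map_one] at h1
    exact zero_ne_one h1
  have heqr : Wr.toAffine.Equation (IsLocalRing.residue V x) (IsLocalRing.residue V y) := by
    rw [equation_iff] at heqV ⊢
    have h1 := congrArg (IsLocalRing.residue V) heqV
    simp only [map_add, map_mul, map_pow] at h1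
    exact h1
  have hns := nonsing (((Wr.toAffine).equation_iff_nonsingular_of_Δ_ne_zero hΔr).1 heqr)
  refine ⟨X ^ 2 + C b₁ * X - C (b₂ + 3 * x), C (2 * y + b₁ * x + b₃) * X -
    C (3 * x ^ 2 + 2 * b₂ * x + b₄ - b₁ * y), ?_, ?_, ?_, ?_, ?_, ?_⟩
  · simp only [hW, Polynomial.map_sub, Polynomial.map_add, Polynomial.map_mul, Polynomial.map_pow,
      map_X, map_C, map_add, map_mul, hb₁, hb₂, hx', map_ofNat, Polynomial.map_ofNat]
  · simp only [lW, A3, A4, Polynomial.map_sub, Polynomial.map_add, Polynomial.map_mul,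
      Polynomial.map_add, Polynomial.map_pow, Polynomial.map_ofNat,
      map_X, map_C, map_add, map_sub, map_mul, map_pow, hb₁, hb₂, hb₃, hb₄, hx', hy', map_ofNat]
  · monicity!
  · compute_degree!
  · have h1 : (C (2 * y + b₁ * x + b₃) * X -
        C (3 * x ^ 2 + 2 * b₂ * x + b₄ - b₁ * y) : V[X]).map (IsLocalRing.residue V) =
        lW Wr (IsLocalRing.residue V x) (IsLocalRing.residue V y) := by
      simp only [lW, A3, A4, Polynomial.map_sub, Polynomial.map_mul,
        Polynomial.map_add, Polynomial.map_pow, Polynomial.map_ofNat,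
        map_X, map_C, map_add, map_sub, map_mul, map_pow, map_ofNat]
      rfl
    rw [h1]
    exact lW_ne_zero _ _ _ hns
  · compute_degree

/-- Gauss lemma for the curve -/
theorem gauss_curve (hW' : GoodW W) (hx : IsIntegral ℤ x₀) (hy : IsIntegral ℤ y₀)
    (heq : W.toAffine.Equation x₀ y₀) {a b N : k[X]} (hN : IntC N)
    (h : a ^ 2 + a * b * hW W x₀ - b ^ 2 * lW W x₀ y₀ = N) : IntC a ∧ IntC b := by
  have key : ∀ V : ValuationSubring k, (∀ i, a.coeff i ∈ V) ∧ ∀ i, b.coeff i ∈ V := by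
    intro V
    obtain ⟨H, L, hH, hL, hHm, hHd, hL0, hLd⟩ := reduce hW' hx hy heq V
    obtain ⟨N', hN'⟩ := lift_int V hN
    refine gauss V (H := H) (L := L) (N := N') (by rw [hH, hL, hN', h]) ?_
    intro u v huv
    refine aniso_curve ?_ hL0 (natDegree_map_le.trans hLd) huv
    rw [hHm.natDegree_map, hHd]
  exact ⟨fun i => isIntegral_of_forall fun V => (key V).1 i,
    fun i => isIntegral_of_forall fun V => (key V).2 i⟩

/-- Gauss lemma for the coordinate ring -/
theorem gauss_weier (hW' : GoodW W) {p q N : k[X]} (hN : IntC N)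
    (h : p ^ 2 - p * q * (C W.a₁ * X + C W.a₃) -
        q ^ 2 * (X ^ 3 + C W.a₂ * X ^ 2 + C W.a₄ * X + C W.a₆) = N) : IntC p ∧ IntC q := by
  have key : ∀ V : ValuationSubring k, (∀ i, p.coeff i ∈ V) ∧ ∀ i, q.coeff i ∈ V := by
    intro V
    obtain ⟨b₁, hb₁⟩ := lift_elt V hW'.h1
    obtain ⟨b₂, hb₂⟩ := lift_elt V hW'.h2
    obtain ⟨b₃, hb₃⟩ := lift_elt V hW'.h3
    obtain ⟨b₄, hb₄⟩ := lift_elt V hW'.h4
    obtain ⟨b₆, hb₆⟩ := lift_elt V hW'.h6
    obtain ⟨N', hN'⟩ := lift_int V hN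
    refine gauss V (H := -(C b₁ * X + C b₃)) (L := X ^ 3 + C b₂ * X ^ 2 + C b₄ * X + C b₆)
      (N := N') ?_ ?_
    · simp only [Polynomial.map_neg, Polynomial.map_add, Polynomial.map_mul, Polynomial.map_pow,
        map_X, map_C, hb₁, hb₂, hb₃, hb₄, hb₆, hN']
      linear_combination h
    · intro u v huv
      simp only [Polynomial.map_neg, Polynomial.map_add, Polynomial.map_mul, Polynomial.map_pow,
        map_X, map_C] at huv
      exact aniso_weier ⟨IsLocalRing.residue V b₁, IsLocalRing.residue V b₂,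
        IsLocalRing.residue V b₃, IsLocalRing.residue V b₄, IsLocalRing.residue V b₆⟩ huv
  exact ⟨fun i => isIntegral_of_forall fun V => (key V).1 i,
    fun i => isIntegral_of_forall fun V => (key V).2 i⟩

theorem intC_comp_X_add {p : k[X]} (hp : IntC p) {x : k} (hx : IsIntegral ℤ x) :
    IntC (p.comp (X + C x)) := by
  rw [comp, eval₂_eq_sum]
  unfold Polynomial.sum
  generalize p.support = s
  classical
  induction s using Finset.induction_on with
  | empty =>
    rw [Finset.sum_empty, ← C_0]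
    exact intC_C isIntegral_zero
  | insert a s ha ih =>
    rw [Finset.sum_insert ha]
    exact ((intC_C (hp a)).mul ((intC_X.add (intC_C hx)).pow a)).add ih

variable [CharZero k]

/-- solutions of the Pell equation are integral -/
theorem pell_int (hW' : GoodW W) (hx : IsIntegral ℤ x₀) (hy : IsIntegral ℤ y₀)
    (heq : W.toAffine.Equation x₀ y₀) {F B : k[X]} (h : IsPell (fW W x₀ y₀) F B) : IntC F := by
  obtain ⟨w, hw⟩ : ∃ w : k[X], 2 * w = 1 := by
    refine ⟨C (2⁻¹), ?_⟩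
    have : (2 : k[X]) = C 2 := rfl
    rw [this, ← C_mul, mul_inv_cancel₀ two_ne_zero, C_1]
  have h1 : (w * (F - B * hW W x₀)) ^ 2 + (w * (F - B * hW W x₀)) * B * hW W x₀ -
      B ^ 2 * lW W x₀ y₀ = 1 := by
    unfold IsPell fW at h
    have hw4 : 4 * w ^ 2 = 1 := by linear_combination (2 * w + 1) * hw
    linear_combination w ^ 2 * h + (w * B ^ 2 * hW W x₀ ^ 2 - w * F * B * hW W x₀) * hw +
      (B ^ 2 * lW W x₀ y₀ + 1) * hw4
  have h2 : IntC (1 : k[X]) := by rw [← C_1]; exact intC_C isIntegral_one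
  obtain ⟨h3, h4⟩ := gauss_curve hW' hx hy heq h2 h1
  have h5 : F = 2 * (w * (F - B * hW W x₀)) + B * hW W x₀ := by
    linear_combination -(F - B * hW W x₀) * hw
  rw [h5]
  exact ((intC_ofNat 2).mul h3).add (h4.mul (hW_int hW' hx))

/-- There is an integral solution with unit leading coefficient. -/
theorem exists_pell [IsAlgClosed k] [DecidableEq k] (hW' : GoodW W) (hx : IsIntegral ℤ x₀)
    (hy : IsIntegral ℤ y₀) (h : W.toAffine.Nonsingular x₀ y₀) {n : ℕ} (hn0 : 0 < n)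
    (hn : n • (Point.some x₀ y₀ h) = 0) :
    ∃ F B : k[X], IsPell (fW W x₀ y₀) F B ∧ 0 < F.natDegree ∧ IntC F ∧
      IsIntegral ℤ (F.leadingCoeff)⁻¹ := by
  obtain ⟨p, q, m, c, ν, hm, hc, hν, hnorm, hdeg, hmon, hν'⟩ := exists_gen_normal h hn0 hn
  have hcint : IsIntegral ℤ c := by
    rcases hc with rfl | rfl
    · exact isIntegral_one
    · exact isIntegral_one.neg
  obtain ⟨hp, hq⟩ := gauss_weier hW' ((intC_C hcint).mul ((intC_X.sub (intC_C hx)).pow m)) hnorm
  obtain ⟨ha, hb⟩ := co_int (hW_int hW' hx) (lW_int hW' hx hy) hy (intC_comp_X_add hp hx)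
    (intC_comp_X_add hq hx)
  set a := (co (hW W x₀) (lW W x₀ y₀) y₀ (p.comp (X + C x₀)) (q.comp (X + C x₀))).1 with ha'
  set b := (co (hW W x₀) (lW W x₀ y₀) y₀ (p.comp (X + C x₀)) (q.comp (X + C x₀))).2 with hb'
  have hνint : IsIntegral ℤ ν := by
    have h1 : IntC (C ν) := by
      rw [← hν']
      exact ((ha.pow 2).add ((ha.mul hb).mul (hW_int hW' hx))).sub
        ((hb.pow 2).mul (lW_int hW' hx hy))
    have h2 := h1 0
    rwa [coeff_C_zero] at h2
  obtain ⟨μ, hμ⟩ := IsAlgClosed.exists_pow_nat_eq ν (n := 2) (by norm_num)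
  have hμ0 : μ ≠ 0 := by
    rintro rfl
    rw [zero_pow two_ne_zero] at hμ
    exact hν hμ.symm
  have hμint : IsIntegral ℤ μ := by
    refine IsIntegral.of_pow (n := 2) (by norm_num) ?_
    rw [hμ]
    exact hνint
  have hpell : IsPell (fW W x₀ y₀) (C μ⁻¹ * (2 * a + b * hW W x₀)) (C μ⁻¹ * b) := by
    unfold IsPell fW
    have h1 := pell_of_norm hν'
    have h2 : (C μ⁻¹ : k[X]) ^ 2 * C ν = 1 := by
      rw [← C_pow, ← C_mul, ← hμ, ← C_1]
      congr 1
      field_simp
    linear_combination (C μ⁻¹) ^ 2 * h1 + 4 * h2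
  refine ⟨_, _, hpell, ?_, pell_int hW' hx hy h.1 hpell, ?_⟩
  · rw [natDegree_C_mul (inv_ne_zero hμ0), hdeg]
    exact hm
  · rw [leadingCoeff_mul, leadingCoeff_C, hmon.leadingCoeff, mul_one, inv_inv]
    exact hμint

end Pool.Agent.E8helper67.EL
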