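import Pool.Agent.E8helper67.EL.Pell
import Pool.Agent.E8helper67.PS.RDef
set_option autoImplicit false

/-!
Real factors of minimal solutions of the Pell equation.
-/

namespace Pool.Agent.E8helper67.EL

open Polynomial

open Pool.Agent.E8helper67.PS (RealFactor)

/-- squarefree part -/
theorem exists_sq_mul (P : ℂ[X]) (hP : P ≠ 0) : ∃ b φ : ℂ[X], P = b ^ 2 * φ ∧ Squarefree φ := by
  obtain ⟨n, hn⟩ : ∃ n, P.natDegree = n := ⟨_, rfl⟩
  induction n using Nat.strong_induction_on generalizing P with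
  | _ n ih =>
  by_cases hs : Squarefree P
  · exact ⟨1, P, by rw [one_pow, one_mul], hs⟩
  · unfold Squarefree at hs
    push Not at hs
    obtain ⟨x, ⟨Q, hQ⟩, hx⟩ := hs
    have hx0 : x ≠ 0 := by rintro rfl; rw [zero_mul, zero_mul] at hQ; exact hP hQ
    have hQ0 : Q ≠ 0 := by rintro rfl; rw [mul_zero] at hQ; exact hP hQ
    have hxd : 0 < x.natDegree := by
      by_contra h0
      apply hx
      rw [isUnit_iff_degree_eq_zero, degree_eq_natDegree hx0]
      have : x.natDegree = 0 := by omega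
      rw [this]; rfl
    have hd := natDegree_mul (mul_ne_zero hx0 hx0) hQ0
    rw [← hQ, natDegree_mul hx0 hx0] at hd
    obtain ⟨b, φ, h1, h2⟩ := ih Q.natDegree (by omega) Q hQ0 rfl
    exact ⟨x * b, φ, by rw [hQ, h1]; ring, h2⟩

/-- squarefree parts are unique up to units -/
theorem associated_of_sq_mul {x y ψ f : ℂ[X]} (hψ : Squarefree ψ) (hf : Squarefree f)
    (hx : x ≠ 0) (hy : y ≠ 0) (h : x ^ 2 * ψ = y ^ 2 * f) : Associated ψ f := by
  have hψ0 := hψ.ne_zero
  have hf0 := hf.ne_zero
  have h1 : y ^ 2 ∣ (x * ψ) ^ 2 := ⟨f * ψ, by linear_combination ψ * h⟩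
  obtain ⟨w, hw⟩ := (UniqueFactorizationMonoid.pow_dvd_pow_iff_dvd two_ne_zero).1 h1
  have h2 : w ^ 2 = f * ψ := by
    apply mul_left_cancel₀ (pow_ne_zero 2 hy)
    have h3 : (x * ψ) ^ 2 = (y * w) ^ 2 := by rw [hw]
    linear_combination ψ * h - h3
  obtain ⟨u, hu⟩ := (hψ.dvd_pow_iff_dvd two_ne_zero).1 (⟨f, by rw [h2, mul_comm]⟩ : ψ ∣ w ^ 2)
  have h3 : f = ψ * (u * u) := by
    apply mul_left_cancel₀ hψ0
    rw [hu] at h2
    linear_combination -h2
  have h4 : IsUnit (u * u) := by
    have h5 : IsUnit u := hf u ⟨ψ, by rw [h3]; ring⟩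
    exact h5.mul h5
  exact ⟨h4.unit, h3.symm⟩

/-- A minimal solution of the Pell equation with a real factor has real branch points, up to an
affine transformation. -/
theorem collinear_of_realFactor {f F B : ℂ[X]} (hf : f.Monic) (hfd : f.natDegree = 4)
    (hsep : f.Separable) (h : IsPell f F B) (hF : 0 < F.natDegree)
    (hmin : ∀ F' B', IsPell f F' B' → 0 < F'.natDegree → F.natDegree ≤ F'.natDegree)
    (hR : RealFactor F) : ∃ a b : ℂ, a ≠ 0 ∧ ∀ e, f.eval e = 0 → (a * e + b).im = 0 := by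
  obtain ⟨G, H, hG, hFGH, hre⟩ := hR
  set Gc := G.map Complex.ofRealHom with hGc
  have hGd : Gc.natDegree = G.natDegree :=
    natDegree_map_eq_of_injective Complex.ofRealHom.injective G
  have hFd : F.natDegree = Gc.natDegree * H.natDegree := by rw [hFGH, natDegree_comp]
  have hHd : 0 < H.natDegree := by
    rw [hFd] at hF
    exact Nat.pos_of_mul_pos_left hF
  have hP0 : Gc ^ 2 - 4 ≠ 0 := by
    intro h0
    have h1 := natDegree_sq_sub Gc
    rw [h0, natDegree_zero] at h1
    omega
  obtain ⟨b, φ, hbφ, hφ⟩ := exists_sq_mul _ hP0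
  have hφ0 : φ ≠ 0 := hφ.ne_zero
  have hb0 : b ≠ 0 := by rintro rfl; rw [zero_pow two_ne_zero, zero_mul] at hbφ; exact hP0 hbφ
  have hφd : 2 * Gc.natDegree = 2 * b.natDegree + φ.natDegree := by
    rw [← natDegree_sq_sub, hbφ, natDegree_mul (pow_ne_zero 2 hb0) hφ0, natDegree_pow]
  have hcomp0 : ∀ p : ℂ[X], p ≠ 0 → p.comp H ≠ 0 := by
    intro p hp h0
    rw [comp_eq_zero_iff] at h0
    rcases h0 with h0 | ⟨-, h0⟩
    · exact hp h0
    · rw [h0, natDegree_C] at hHd
      exact lt_irrefl _ hHd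
  have hBne := h.B_ne hF
  -- the squarefree part of `φ ∘ H`
  obtain ⟨s, ψ, hsψ, hψ⟩ := exists_sq_mul (φ.comp H) (hcomp0 φ hφ0)
  have hs0 : s ≠ 0 := by
    rintro rfl
    rw [zero_pow two_ne_zero, zero_mul] at hsψ
    exact hcomp0 φ hφ0 hsψ
  have h1 : (b.comp H * s) ^ 2 * ψ = B ^ 2 * f := by
    have h2 := congrArg (fun p => p.comp H) hbφ
    simp only [sub_comp, pow_comp, mul_comp] at h2
    have e4 : (4 : ℂ[X]).comp H = 4 := by
      have : (4 : ℂ[X]) = C 4 := rfl
      rw [this, C_comp]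
    rw [e4] at h2
    unfold IsPell at h
    rw [← h, hFGH]
    linear_combination -h2 - (b.comp H) ^ 2 * hsψ
  obtain ⟨u, hu⟩ := associated_of_sq_mul hψ hsep.squarefree
    (mul_ne_zero (hcomp0 b hb0) hs0) hBne h1
  obtain ⟨c, hc, hcu⟩ := Polynomial.isUnit_iff.1 u.isUnit
  have hc0 : c ≠ 0 := hc.ne_zero
  obtain ⟨d, hd⟩ := IsAlgClosed.exists_pow_nat_eq c⁻¹ (n := 2) (by norm_num)
  have hd0 : d ≠ 0 := by
    rintro rfl
    rw [zero_pow two_ne_zero] at hd
    exact inv_ne_zero hc0 hd.symm
  set t := C d * s with ht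
  have hφf : φ.comp H = t ^ 2 * f := by
    rw [hsψ, ht, mul_pow, ← C_pow, hd, ← hu, ← hcu]
    have e1 : (C c⁻¹ : ℂ[X]) * C c = 1 := by
      rw [← C_mul, inv_mul_cancel₀ hc0, C_1]
    linear_combination -(s ^ 2 * ψ) * e1
  have ht0 : t ≠ 0 := mul_ne_zero (C_ne_zero.2 hd0) hs0
  -- degrees
  have hdeg : φ.natDegree * H.natDegree = 2 * t.natDegree + 4 := by
    rw [← natDegree_comp, hφf, natDegree_mul (pow_ne_zero 2 ht0) hf.ne_zero, natDegree_pow, hfd]
  have hdvd : t ∣ derivative H := by
    obtain ⟨p, q, hpq⟩ := PerfectField.separable_iff_squarefree.2 hφ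
    have h2 := congrArg (fun r => r.comp H) hpq
    simp only [add_comp, mul_comp, one_comp] at h2
    have h3 := congrArg derivative hφf
    rw [derivative_comp, derivative_mul, derivative_pow] at h3
    simp only [Nat.cast_ofNat, map_ofNat, Nat.add_one_sub_one, pow_one] at h3
    refine ⟨derivative H * p.comp H * t * f +
      q.comp H * (2 * derivative t * f + t * derivative f), ?_⟩
    have h4 : derivative H = derivative H * (p.comp H * φ.comp H) +
        q.comp H * (derivative H * (derivative φ).comp H) := by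
      linear_combination -(derivative H) * h2
    rw [h3, hφf] at h4
    linear_combination h4
  have hH' : derivative H ≠ 0 := by
    intro h0
    have := derivative_eq_zero.1 h0
    omega
  have hts : t.natDegree ≤ H.natDegree - 1 := by
    rw [← natDegree_derivative H]
    exact natDegree_le_of_dvd hdvd hH'
  rcases Nat.lt_or_ge 1 H.natDegree with hH2 | hH1
  · -- impossible by minimality
    exfalso
    have hk : φ.natDegree = 2 := by
      have h2 : φ.natDegree * H.natDegree ≤ 2 * (H.natDegree - 1) + 4 := by omega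
      have h3 : φ.natDegree < 4 := by
        by_contra h4
        push Not at h4
        have h5 : 4 * H.natDegree ≤ φ.natDegree * H.natDegree := Nat.mul_le_mul_right _ h4
        omega
      have h4 : φ.natDegree ≠ 0 := by
        intro h5
        rw [h5, zero_mul] at hdeg
        omega
      omega
    have hsp := IsAlgClosed.splits φ
    have hcard : φ.roots.card = 2 := by rw [← hsp.natDegree_eq_card_roots, hk]
    obtain ⟨y₁, y₂, hy⟩ := Multiset.card_eq_two.1 hcard
    have hnd : φ.roots.Nodup := nodup_roots (PerfectField.separable_iff_squarefree.2 hφ)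
    have hne : y₁ ≠ y₂ := by
      rw [hy] at hnd
      intro h2
      rw [h2] at hnd
      simp at hnd
    have hφe : φ = C φ.leadingCoeff * ((X - C y₁) * (X - C y₂)) := by
      have h2 := hsp.eq_prod_roots
      rw [hy] at h2
      simpa using h2
    have hlc0 : φ.leadingCoeff ≠ 0 := leadingCoeff_ne_zero.2 hφ0
    have hy12 : y₁ - y₂ ≠ 0 := sub_ne_zero.2 hne
    set a := 4 / (y₁ - y₂) with ha
    have ha0 : a ≠ 0 := div_ne_zero (by norm_num) hy12
    set Lp : ℂ[X] := C a * X + C (2 - a * y₁) with hLp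
    obtain ⟨v, hv⟩ := IsAlgClosed.exists_pow_nat_eq (a ^ 2 / φ.leadingCoeff) (n := 2) (by norm_num)
    have hL : Lp ^ 2 - 4 = C (v ^ 2) * φ := by
      have e1 : Lp - 2 = C a * (X - C y₁) := by
        rw [hLp]
        have : (2 : ℂ[X]) = C 2 := rfl
        rw [this, C_sub, C_mul]
        ring
      have e2 : Lp + 2 = C a * (X - C y₂) := by
        rw [hLp]
        have : (2 : ℂ[X]) = C 2 := rfl
        have h5 : (2 - a * y₁ + 2 : ℂ) = -(a * y₂) := by
          rw [ha]; field_simp; ring
        have h6 : C (2 - a * y₁) + (2 : ℂ[X]) = C (-(a * y₂)) := by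
          rw [this, ← C_add, h5]
        have h7 : (C (-(a * y₂)) : ℂ[X]) = -(C a * C y₂) := by rw [C_neg, C_mul]
        linear_combination h6 + h7
      have e3 : (C (v ^ 2) : ℂ[X]) * C φ.leadingCoeff = C a ^ 2 := by
        rw [hv, ← C_mul, div_mul_cancel₀ _ hlc0, C_pow]
      have e4 : Lp ^ 2 - 4 = (Lp - 2) * (Lp + 2) := by ring
      rw [e4, e1, e2]
      conv_rhs => rw [hφe]
      linear_combination -((X - C y₁) * (X - C y₂)) * e3
    have hpell : IsPell f (Lp.comp H) (C v * t) := by
      unfold IsPell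
      have h2 := congrArg (fun r => r.comp H) hL
      simp only [sub_comp, pow_comp, mul_comp, C_comp] at h2
      have e4 : (4 : ℂ[X]).comp H = 4 := by
        have : (4 : ℂ[X]) = C 4 := rfl
        rw [this, C_comp]
      rw [e4, hφf, C_pow] at h2
      rw [h2]
      ring
    have hLd : Lp.natDegree = 1 := by
      rw [hLp, natDegree_add_C, natDegree_C_mul_X _ ha0]
    have h2 := hmin _ _ hpell (by rw [natDegree_comp, hLd, one_mul]; exact hHd)
    rw [natDegree_comp, hLd, one_mul, hFd, hGd] at h2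
    have h3 : 2 * H.natDegree ≤ G.natDegree * H.natDegree := Nat.mul_le_mul_right _ hG
    omega
  · have hH1' : H.natDegree = 1 := by omega
    have h2 := eq_X_add_C_of_natDegree_le_one hH1'.le
    have h3 : H.coeff 1 ≠ 0 := by
      rw [← hH1']
      exact leadingCoeff_ne_zero.2 (by rintro rfl; simp at hH1')
    refine ⟨H.coeff 1, H.coeff 0, h3, fun e he => ?_⟩
    have h4 : H.eval e = H.coeff 1 * e + H.coeff 0 := by
      conv_lhs => rw [h2]
      rw [eval_add, eval_mul, eval_C, eval_X, eval_C]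
    rw [← h4]
    have h5 : φ.eval (H.eval e) = 0 := by
      rw [← eval_comp, hφf, eval_mul, he, mul_zero]
    have h6 : Gc.eval (H.eval e) ^ 2 - 4 = 0 := by
      have h7 := congrArg (Polynomial.eval (H.eval e)) hbφ
      rw [eval_sub, eval_pow, eval_ofNat, eval_mul, h5, mul_zero] at h7
      exact h7
    have h7 : (Gc.eval (H.eval e) - 2) * (Gc.eval (H.eval e) + 2) = 0 := by
      linear_combination h6
    rcases mul_eq_zero.1 h7 with h8 | h8
    · refine hre 2 (by norm_num) _ ?_
      rw [sub_eq_zero.1 h8]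
      norm_num
    · refine hre (-2) (by norm_num) _ ?_
      rw [eq_neg_of_add_eq_zero_left h8]
      norm_num

end Pool.Agent.E8helper67.EL
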