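import Pool.Agent.E8helper67.EL.Integ
import Pool.Agent.E8helper67.EL.RealF
set_option autoImplicit false

/-!
Minimal solutions of the Pell equation: units and base change.
-/

namespace Pool.Agent.E8helper67.EL

open Polynomial

open Pool.Agent.E8helper67.PS (RealFactor)

variable {k : Type*} [Field k]

/-- a minimal solution -/
theorem exists_min {f : k[X]} (hf : f.Monic) (h : ∃ F B, IsPell f F B ∧ 0 < F.natDegree) :
    ∃ F B, IsPell f F B ∧ 0 < F.natDegree ∧ F.leadingCoeff = B.leadingCoeff ∧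
      ∀ F' B', IsPell f F' B' → 0 < F'.natDegree → F.natDegree ≤ F'.natDegree := by
  classical
  have hex : ∃ n, ∃ F B, IsPell f F B ∧ 0 < F.natDegree ∧ F.natDegree = n := by
    obtain ⟨F, B, h1, h2⟩ := h
    exact ⟨_, F, B, h1, h2, rfl⟩
  obtain ⟨F, B, h1, h2, h3⟩ := Nat.find_spec hex
  have hmin : ∀ F' B', IsPell f F' B' → 0 < F'.natDegree → F.natDegree ≤ F'.natDegree := by
    intro F' B' h4 h5
    rw [h3]
    exact Nat.find_min' hex ⟨F', B', h4, h5, rfl⟩
  have h4 := h1.lc hf h2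
  rcases sq_eq_sq_iff_eq_or_eq_neg.1 h4 with h5 | h5
  · exact ⟨F, B, h1, h2, h5, hmin⟩
  · exact ⟨F, -B, h1.neg, h2, by rw [leadingCoeff_neg, h5], hmin⟩

theorem aeval_eq_comp (F : k[X]) (p : ℤ[X]) :
    aeval F p = (p.map (Int.castRingHom k)).comp F := by
  rw [comp, eval₂_map, aeval_def]
  congr 1

theorem lc_aeval_cp {F : k[X]} (hF : 0 < F.natDegree) {j : ℕ} (hj : 0 < j) :
    (aeval F (cp j)).leadingCoeff = F.leadingCoeff ^ j := by
  obtain ⟨i, rfl⟩ : ∃ i, j = i + 1 := ⟨j - 1, by omega⟩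
  obtain ⟨h1, h2⟩ := cp_monic i
  rw [aeval_eq_comp, leadingCoeff_comp hF.ne', (h1.map _).leadingCoeff, one_mul,
    h1.natDegree_map, h2]

/-- the leading coefficient of the minimal solution is a unit if that of some solution is -/
theorem unit_of_unit [NeZero (2 : k)] {f F₁ B₁ F B : k[X]} (hf : f.Monic) (hf0 : 0 < f.natDegree)
    (h₁ : IsPell f F₁ B₁) (hF₁ : 0 < F₁.natDegree)
    (hmin : ∀ F B, IsPell f F B → 0 < F.natDegree → F₁.natDegree ≤ F.natDegree)
    (hlc : F₁.leadingCoeff = B₁.leadingCoeff) (h : IsPell f F B) (hF : 0 < F.natDegree)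
    (hu : IsIntegral ℤ (F.leadingCoeff)⁻¹) : IsIntegral ℤ (F₁.leadingCoeff)⁻¹ := by
  obtain ⟨B', hB', hlc'⟩ : ∃ B', IsPell f F B' ∧ F.leadingCoeff = B'.leadingCoeff := by
    rcases sq_eq_sq_iff_eq_or_eq_neg.1 (h.lc hf hF) with h5 | h5
    · exact ⟨B, h, h5⟩
    · exact ⟨-B, h.neg, by rw [leadingCoeff_neg, h5]⟩
  obtain ⟨j, ε, hε, h1, -, h2⟩ := pell_structure hf hf0 h₁ hF₁ hmin hlc F.natDegree F B' hB' rfl
    (fun _ => hlc')
  have hj := h2 hF
  have h3 : (F₁.leadingCoeff)⁻¹ ^ j = (F.leadingCoeff)⁻¹ ∨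
      (F₁.leadingCoeff)⁻¹ ^ j = -(F.leadingCoeff)⁻¹ := by
    have h4 := lc_aeval_cp hF₁ hj
    rcases hε with rfl | rfl
    · left
      rw [h1, one_mul, h4, inv_pow]
    · right
      rw [h1, neg_one_mul, leadingCoeff_neg, h4, inv_neg, neg_neg, inv_pow]
  refine IsIntegral.of_pow hj ?_
  rcases h3 with h3 | h3
  · rw [h3]; exact hu
  · rw [h3]; exact hu.neg

/-- algebraic elements over an algebraically closed field -/
theorem exists_map_elt [IsAlgClosed k] {A : Type*} [Field A] (σ : k →+* A) {x : A} {p : k[X]}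
    (hp : p ≠ 0) (hx : p.eval₂ σ x = 0) : ∃ y, σ y = x := by
  let _ := σ.toAlgebra
  have h1 : IsIntegral k x := by
    refine IsAlgebraic.isIntegral ⟨p, hp, ?_⟩
    rw [aeval_def]
    exact hx
  exact minpoly.mem_range_of_degree_eq_one k _
    (IsAlgClosed.degree_eq_one_of_irreducible k (minpoly.irreducible h1))

/-- integrality over the image of polynomials over an algebraically closed field -/
theorem exists_map_eq [IsAlgClosed k] (σ : k →+* ℂ) {p : ℂ[X]}
    (hp : (mapRingHom σ).IsIntegralElem p) : ∃ q : k[X], q.map σ = p := by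
  let _ := σ.toAlgebra
  have h1 : ∀ i, IsIntegral k (p.coeff i) := Polynomial.isIntegral_iff_isIntegral_coeff.1 hp
  have h2 : ∀ i, ∃ x, σ x = p.coeff i := fun i => minpoly.mem_range_of_degree_eq_one k _
    (IsAlgClosed.degree_eq_one_of_irreducible k (minpoly.irreducible (h1 i)))
  have h3 : p ∈ lifts σ := by
    rw [lifts_iff_coeff_lifts]
    exact h2
  exact h3

/-- minimal solutions stay minimal over the complex numbers -/
theorem min_map [IsAlgClosed k] [NeZero (2 : k)] (σ : k →+* ℂ) {f F B : k[X]} (hf : f.Monic)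
    (hf0 : 0 < f.natDegree) (h : IsPell f F B) (hF : 0 < F.natDegree)
    (hmin : ∀ F' B', IsPell f F' B' → 0 < F'.natDegree → F.natDegree ≤ F'.natDegree) :
    ∀ F' B', IsPell (f.map σ) F' B' → 0 < F'.natDegree → (F.map σ).natDegree ≤ F'.natDegree := by
  have hmap : ∀ {f F B : k[X]}, IsPell f F B → IsPell (f.map σ) (F.map σ) (B.map σ) := by
    intro f F B h
    have h1 := congrArg (Polynomial.map σ) h
    unfold IsPell
    simpa [Polynomial.map_sub, Polynomial.map_mul, Polynomial.map_pow] using h1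
  have hd : ∀ p : k[X], (p.map σ).natDegree = p.natDegree := fun p =>
    natDegree_map_eq_of_injective σ.injective p
  obtain ⟨F₁, B₁, h₁, hF₁, hlc, hmin₁⟩ := exists_min (hf.map σ)
    ⟨F.map σ, B.map σ, hmap h, by rw [hd]; exact hF⟩
  obtain ⟨B', hB', hlc'⟩ : ∃ B', IsPell (f.map σ) (F.map σ) B' ∧
      (F.map σ).leadingCoeff = B'.leadingCoeff := by
    rcases sq_eq_sq_iff_eq_or_eq_neg.1 ((hmap h).lc (hf.map σ) (by rw [hd]; exact hF)) with h5 | h5
    · exact ⟨_, hmap h, h5⟩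
    · exact ⟨_, (hmap h).neg, by rw [leadingCoeff_neg, h5]⟩
  obtain ⟨j, ε, hε, h1, -, h2⟩ := pell_structure (hf.map σ) (by rw [hd]; exact hf0) h₁ hF₁ hmin₁ hlc
    (F.map σ).natDegree (F.map σ) B' hB' rfl (fun _ => hlc')
  have hj := h2 (by rw [hd]; exact hF)
  -- `F₁` is defined over `k`
  obtain ⟨G, hG⟩ : ∃ G : k[X], G.map σ = F₁ := by
    apply exists_map_eq
    obtain ⟨i, rfl⟩ : ∃ i, j = i + 1 := ⟨j - 1, by omega⟩
    obtain ⟨hc1, hc2⟩ := cp_monic i
    obtain ⟨F', hF'⟩ : ∃ F' : k[X], F'.map σ = aeval F₁ (cp (i + 1)) := by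
      rcases hε with rfl | rfl
      · exact ⟨F, by rw [h1, one_mul]⟩
      · exact ⟨-F, by rw [Polynomial.map_neg, h1, neg_one_mul, neg_neg]⟩
    refine ⟨(cp (i + 1)).map (Int.castRingHom k[X]) - C F', ?_, ?_⟩
    · refine Monic.sub_of_left (hc1.map _) ?_
      refine lt_of_le_of_lt degree_C_le ?_
      rw [← natDegree_pos_iff_degree_pos, hc1.natDegree_map, hc2]
      omega
    · rw [eval₂_sub, eval₂_map, eval₂_C, coe_mapRingHom, hF', aeval_def, sub_eq_zero]
      congr 1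
      exact RingHom.ext_int _ _
  -- so is the other polynomial
  have hdvd : f ∣ G ^ 2 - 4 := by
    rw [← map_dvd_map σ σ.injective hf]
    have h3 : (G ^ 2 - 4).map σ = F₁ ^ 2 - 4 := by
      simp [Polynomial.map_sub, Polynomial.map_pow, hG]
    rw [h3, h₁]
    exact dvd_mul_left _ _
  obtain ⟨Q, hQ⟩ := hdvd
  have hQ' : Q.map σ = B₁ ^ 2 := by
    have h3 : (G ^ 2 - 4).map σ = F₁ ^ 2 - 4 := by
      simp [Polynomial.map_sub, Polynomial.map_pow, hG]
    rw [hQ, h₁, Polynomial.map_mul, mul_comm] at h3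
    exact mul_right_cancel₀ (hf.map σ).ne_zero h3
  obtain ⟨D, hD⟩ : ∃ D : k[X], D.map σ = B₁ := by
    apply exists_map_eq
    refine ⟨X ^ 2 - C Q, ?_, ?_⟩
    · monicity!
    · rw [eval₂_sub, eval₂_pow, eval₂_X, eval₂_C, coe_mapRingHom, hQ', sub_self]
  have hpell : IsPell f G D := by
    unfold IsPell
    apply map_injective σ σ.injective
    rw [hQ, Polynomial.map_mul, Polynomial.map_mul, Polynomial.map_pow, hD, hQ', mul_comm]
  have h3 := hmin G D hpell (by rw [← hd, hG]; exact hF₁)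
  intro F' B' h4 h5
  rw [hd]
  refine h3.trans ?_
  rw [← hd G, hG]
  exact hmin₁ F' B' h4 h5

/-- real factors and affine substitutions -/
theorem realFactor_comp {F : ℂ[X]} {a : ℂ} (ha : a ≠ 0) (h : RealFactor (F.comp (C a * X))) :
    RealFactor F := by
  obtain ⟨G, H, hG, hF, hre⟩ := h
  refine ⟨G, H.comp (C a⁻¹ * X), hG, ?_, hre⟩
  rw [← comp_assoc, ← hF, comp_assoc]
  have h1 : (C a * X : ℂ[X]).comp (C a⁻¹ * X) = X := by
    rw [mul_comp, C_comp, X_comp, ← mul_assoc, ← C_mul, mul_inv_cancel₀ ha, C_1, one_mul]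
  rw [h1, comp_X]

end Pool.Agent.E8helper67.EL
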