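import Mathlib
set_option autoImplicit false

/-!
The solutions of the polynomial Pell equation `F² - 4 = B² f`.
-/

namespace Pool.Agent.E8helper67.EL

open Polynomial

/-- the polynomials with `c_n (z + 1/z) = z^n + z^(-n)` -/
noncomputable def cp : ℕ → ℤ[X]
  | 0 => 2
  | 1 => X
  | n + 2 => X * cp (n + 1) - cp n

/-- the polynomials with `(z - 1/z) s_n (z + 1/z) = z^n - z^(-n)` -/
noncomputable def sp : ℕ → ℤ[X]
  | 0 => 0
  | 1 => 1
  | n + 2 => X * sp (n + 1) - sp n

theorem cp_sp (n : ℕ) : cp n + X * sp n = 2 * sp (n + 1) ∧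
    X * cp n + (X ^ 2 - 4) * sp n = 2 * cp (n + 1) := by
  have h : (cp n + X * sp n = 2 * sp (n + 1) ∧
      X * cp n + (X ^ 2 - 4) * sp n = 2 * cp (n + 1)) ∧
      (cp (n + 1) + X * sp (n + 1) = 2 * sp (n + 2) ∧
      X * cp (n + 1) + (X ^ 2 - 4) * sp (n + 1) = 2 * cp (n + 2)) := by
    induction n with
    | zero =>
      refine ⟨⟨?_, ?_⟩, ?_, ?_⟩
      · simp only [cp, sp]; ring
      · simp only [cp, sp]; ring
      · simp only [cp, sp]; ring
      · simp only [cp, sp]; ring
    | succ n ih =>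
      obtain ⟨⟨h1, h2⟩, h3, h4⟩ := ih
      refine ⟨⟨h3, h4⟩, ?_, ?_⟩
      · have e1 : cp (n + 2) = X * cp (n + 1) - cp n := rfl
        have e2 : sp (n + 3) = X * sp (n + 2) - sp (n + 1) := rfl
        have e3 : sp (n + 2) = X * sp (n + 1) - sp n := rfl
        show cp (n + 2) + X * sp (n + 2) = 2 * sp (n + 3)
        rw [e2]
        linear_combination e1 + X * h3 - h1 + X * e3
      · have e1 : cp (n + 2) = X * cp (n + 1) - cp n := rfl
        have e2 : cp (n + 3) = X * cp (n + 2) - cp (n + 1) := rfl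
        have e3 : sp (n + 2) = X * sp (n + 1) - sp n := rfl
        show X * cp (n + 2) + (X ^ 2 - 4) * sp (n + 2) = 2 * cp (n + 3)
        rw [e2]
        linear_combination X * e1 + X * h4 - h2 + (X ^ 2 - 4) * e3
  exact h.1

theorem cp_monic (n : ℕ) : (cp (n + 1)).Monic ∧ (cp (n + 1)).natDegree = n + 1 := by
  have h : ((cp (n + 1)).Monic ∧ (cp (n + 1)).natDegree = n + 1) ∧
      ((cp (n + 2)).Monic ∧ (cp (n + 2)).natDegree = n + 2) := by
    induction n with
    | zero =>
      refine ⟨⟨?_, ?_⟩, ?_, ?_⟩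
      · exact monic_X
      · exact natDegree_X
      · show (X * X - 2 : ℤ[X]).Monic
        have e : (2 : ℤ[X]) = C 2 := rfl
        rw [e, ← sq]
        exact monic_X_pow_sub_C 2 two_ne_zero
      · show (X * X - 2 : ℤ[X]).natDegree = 2
        have e : (2 : ℤ[X]) = C 2 := rfl
        rw [e, ← sq, natDegree_X_pow_sub_C]
    | succ n ih =>
      obtain ⟨⟨h1, h2⟩, h3, h4⟩ := ih
      refine ⟨⟨h3, h4⟩, ?_⟩
      have e2 : cp (n + 1 + 2) = X * cp (n + 2) - cp (n + 1) := rfl
      have hd : (X * cp (n + 2)).natDegree = n + 3 := by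
        rw [natDegree_X_mul h3.ne_zero, h4]
      have hm : (X * cp (n + 2)).Monic := monic_X.mul h3
      have hlt : (cp (n + 1)).natDegree < (X * cp (n + 2)).natDegree := by
        rw [h2, hd]; omega
      rw [e2]
      refine ⟨?_, ?_⟩
      · refine hm.sub_of_left ?_
        rw [degree_eq_natDegree h1.ne_zero, degree_eq_natDegree hm.ne_zero]
        exact_mod_cast hlt
      · rw [natDegree_sub_eq_left_of_natDegree_lt hlt, hd]
  exact h.1

variable {k : Type*} [Field k]

/-- a solution of the Pell equation -/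
def IsPell (f F B : k[X]) : Prop := F ^ 2 - 4 = B ^ 2 * f

theorem natDegree_sq_sub (F : k[X]) : (F ^ 2 - 4).natDegree = 2 * F.natDegree := by
  have e : (4 : k[X]) = C 4 := rfl
  rw [e, natDegree_sub_C, natDegree_pow]

theorem IsPell.B_ne {f F B : k[X]} (h : IsPell f F B) (hF : 0 < F.natDegree) : B ≠ 0 := by
  rintro rfl
  have h1 := natDegree_sq_sub F
  unfold IsPell at h
  rw [h, zero_pow two_ne_zero, zero_mul, natDegree_zero] at h1
  omega

theorem IsPell.deg {f F B : k[X]} (h : IsPell f F B) (hf : f.Monic) (hF : 0 < F.natDegree) :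
    2 * B.natDegree + f.natDegree = 2 * F.natDegree := by
  have h1 := natDegree_sq_sub F
  have h2 := h.B_ne hF
  unfold IsPell at h
  rw [h, natDegree_mul (pow_ne_zero 2 h2) hf.ne_zero, natDegree_pow] at h1
  exact h1

theorem IsPell.lc {f F B : k[X]} (h : IsPell f F B) (hf : f.Monic) (hF : 0 < F.natDegree) :
    F.leadingCoeff ^ 2 = B.leadingCoeff ^ 2 := by
  have h1 : (F ^ 2 - 4).leadingCoeff = F.leadingCoeff ^ 2 := by
    rw [← leadingCoeff_pow]
    have e : (4 : k[X]) = C 4 := rfl
    refine leadingCoeff_sub_of_degree_lt ?_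
    rw [e]
    refine lt_of_le_of_lt degree_C_le ?_
    rw [← natDegree_pos_iff_degree_pos, natDegree_pow]
    omega
  unfold IsPell at h
  rw [← h1, h, leadingCoeff_mul, leadingCoeff_pow, hf.leadingCoeff, mul_one]

theorem IsPell.neg {f F B : k[X]} (h : IsPell f F B) : IsPell f F (-B) := by
  unfold IsPell at *
  rw [h]; ring

/-- constant solutions -/
theorem IsPell.const {f F B : k[X]} (h : IsPell f F B) (hf : f.Monic) (hf0 : 0 < f.natDegree)
    (hF : F.natDegree = 0) : B = 0 ∧ (F = 2 ∨ F = -2) := by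
  have hB : B = 0 := by
    by_contra hB
    have h1 := natDegree_sq_sub F
    unfold IsPell at h
    rw [h, natDegree_mul (pow_ne_zero 2 hB) hf.ne_zero, hF] at h1
    omega
  refine ⟨hB, ?_⟩
  unfold IsPell at h
  rw [hB, zero_pow two_ne_zero, zero_mul] at h
  have h2 : (F - 2) * (F + 2) = 0 := by linear_combination h
  rcases mul_eq_zero.1 h2 with h3 | h3
  · left; linear_combination h3
  · right; linear_combination h3

variable [NeZero (2 : k)]

theorem two_ne : (2 : k[X]) ≠ 0 := by
  have : (2 : k[X]) = C 2 := rfl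
  rw [this, Ne, C_eq_zero]
  exact NeZero.ne _

/-- the structure of the solutions of the Pell equation -/
theorem pell_structure {f F₁ B₁ : k[X]} (hf : f.Monic) (hf0 : 0 < f.natDegree)
    (h₁ : IsPell f F₁ B₁) (hF₁ : 0 < F₁.natDegree)
    (hmin : ∀ F B, IsPell f F B → 0 < F.natDegree → F₁.natDegree ≤ F.natDegree)
    (hlc : F₁.leadingCoeff = B₁.leadingCoeff) :
    ∀ n : ℕ, ∀ F B, IsPell f F B → F.natDegree = n → (0 < n → F.leadingCoeff = B.leadingCoeff) →
      ∃ (j : ℕ) (ε : k[X]), (ε = 1 ∨ ε = -1) ∧ F = ε * aeval F₁ (cp j) ∧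
        B = ε * (aeval F₁ (sp j) * B₁) ∧ (0 < n → 0 < j) := by
  intro n
  induction n using Nat.strong_induction_on with
  | _ n ih =>
  intro F B h hn hl
  have h2 := two_ne (k := k)
  rcases Nat.eq_zero_or_pos n with h0 | hpos
  · obtain ⟨hB, hF | hF⟩ := h.const hf hf0 (hn.trans h0)
    · refine ⟨0, 1, Or.inl rfl, ?_, ?_, by omega⟩
      · rw [one_mul, hF]
        exact (map_ofNat (aeval F₁) 2).symm
      · simp [sp, hB]
    · refine ⟨0, -1, Or.inr rfl, ?_, ?_, by omega⟩
      · rw [hF]
        have h5 : aeval F₁ (cp 0) = (2 : k[X]) := map_ofNat (aeval F₁) 2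
        rw [h5]
        ring
      · simp [sp, hB]
  · have hFpos : 0 < F.natDegree := by omega
    have hm := hmin F B h hFpos
    set m := F₁.natDegree with hm_def
    have hl' := hl hpos
    have hBne := h.B_ne hFpos
    have hB₁ne := h₁.B_ne hF₁
    have hFne : F ≠ 0 := by rintro rfl; simp at hFpos
    have hF₁ne : F₁ ≠ 0 := by rintro rfl; simp [m] at hF₁
    have hd := h.deg hf hFpos
    have hd₁ := h₁.deg hf hF₁
    -- halves
    obtain ⟨w, hw⟩ : ∃ w : k[X], 2 * w = 1 := by
      refine ⟨C (2⁻¹), ?_⟩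
      have : (2 : k[X]) = C 2 := rfl
      rw [this, ← C_mul, mul_inv_cancel₀ (NeZero.ne _), C_1]
    obtain ⟨F', hF'⟩ : ∃ F', F' = w * (F * F₁ - B * B₁ * f) := ⟨_, rfl⟩
    obtain ⟨B', hB'⟩ : ∃ B', B' = w * (F₁ * B - F * B₁) := ⟨_, rfl⟩
    obtain ⟨F'', hF''⟩ : ∃ F'', F'' = w * (F * F₁ + B * B₁ * f) := ⟨_, rfl⟩
    have hw4 : w ^ 2 * 4 = 1 := by linear_combination (2 * w + 1) * hw
    have hP' : IsPell f F' B' := by
      unfold IsPell at *
      rw [hF', hB']
      linear_combination (w ^ 2 * F₁ ^ 2 - w ^ 2 * B₁ ^ 2 * f) * h + w ^ 2 * 4 * h₁ +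
        4 * hw4
    have hprod : F' * F'' = F ^ 2 + F₁ ^ 2 - 4 := by
      unfold IsPell at *
      rw [hF', hF'']
      linear_combination w ^ 2 * (B₁ ^ 2 * f) * h + w ^ 2 * (F ^ 2 - 4) * h₁ +
        (F ^ 2 + F₁ ^ 2 - 4) * hw4
    have hdeg1 : (F * F₁).natDegree = n + m := by
      rw [natDegree_mul hFne hF₁ne, hn]
    have hdeg2 : (B * B₁ * f).natDegree = n + m := by
      rw [natDegree_mul (mul_ne_zero hBne hB₁ne) hf.ne_zero, natDegree_mul hBne hB₁ne]
      omega
    have hc1 : (F * F₁).coeff (n + m) = F.leadingCoeff * F₁.leadingCoeff := by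
      rw [← hdeg1, coeff_natDegree, leadingCoeff_mul]
    have hc2 : (B * B₁ * f).coeff (n + m) = F.leadingCoeff * F₁.leadingCoeff := by
      rw [← hdeg2, coeff_natDegree, leadingCoeff_mul, leadingCoeff_mul, hf.leadingCoeff, mul_one,
        hl', hlc]
    have hwC : w = C (w.coeff 0) := by
      have : w = C (2⁻¹ : k) := by
        apply mul_left_cancel₀ h2
        rw [hw]
        have : (2 : k[X]) = C 2 := rfl
        rw [this, ← C_mul, mul_inv_cancel₀ (NeZero.ne _), C_1]
      rw [this, coeff_C_zero]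
    have hlcne : F.leadingCoeff * F₁.leadingCoeff ≠ 0 :=
      mul_ne_zero (leadingCoeff_ne_zero.2 hFne) (leadingCoeff_ne_zero.2 hF₁ne)
    have hF''c : 2 * F''.coeff (n + m) = 2 * (F.leadingCoeff * F₁.leadingCoeff) := by
      have h3 : 2 * F'' = F * F₁ + B * B₁ * f := by
        rw [hF'', ← mul_assoc, hw, one_mul]
      have h4 := congrArg (fun p => p.coeff (n + m)) h3
      have e : (2 : k[X]) = C 2 := rfl
      simp only [e, coeff_C_mul, coeff_add, hc1, hc2] at h4
      rw [h4]; ring
    have hF''c' : F''.coeff (n + m) = F.leadingCoeff * F₁.leadingCoeff :=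
      mul_left_cancel₀ (NeZero.ne _) hF''c
    have hF''d : F''.natDegree = n + m := by
      refine natDegree_eq_of_le_of_coeff_ne_zero ?_ (by rw [hF''c']; exact hlcne)
      rw [hF'', hwC]
      refine (natDegree_C_mul_le _ _).trans ((natDegree_add_le _ _).trans ?_)
      rw [hdeg1, hdeg2, max_self]
    have hF''ne : F'' ≠ 0 := by
      intro h0
      rw [h0, coeff_zero] at hF''c'
      exact hlcne hF''c'.symm
    -- F' is not zero
    have hF'ne : F' ≠ 0 := by
      intro h0
      unfold IsPell at hP'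
      have h5 := congrArg natDegree hP'
      have hB'ne : B' ≠ 0 := by
        intro hb
        rw [h0, hb] at hP'
        have h6 : (4 : k[X]) = 0 := by linear_combination -hP'
        have h7 : (2 : k[X]) * 2 = 0 := by linear_combination h6
        exact (mul_ne_zero h2 h2) h7
      rw [natDegree_sq_sub, h0, natDegree_zero, natDegree_mul (pow_ne_zero 2 hB'ne) hf.ne_zero] at h5
      omega
    have hdeg' : F'.natDegree + (n + m) = (F ^ 2 + F₁ ^ 2 - 4).natDegree := by
      rw [← hprod, natDegree_mul hF'ne hF''ne, hF''d]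
    have hle : (F ^ 2 + F₁ ^ 2 - 4).natDegree ≤ 2 * n := by
      have e : (4 : k[X]) = C 4 := rfl
      rw [e, natDegree_sub_C]
      refine (natDegree_add_le _ _).trans ?_
      rw [natDegree_pow, natDegree_pow, hn]
      exact max_le le_rfl (by omega)
    have hF'd : F'.natDegree = n - m := by
      rcases eq_or_lt_of_le hm with he | hlt
      · omega
      · have h6 : (F ^ 2 + F₁ ^ 2 - 4).natDegree = 2 * n := by
          have e : (4 : k[X]) = C 4 := rfl
          rw [e, natDegree_sub_C, natDegree_add_eq_left_of_natDegree_lt, natDegree_pow, hn]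
          rw [natDegree_pow, natDegree_pow]
          omega
        omega
    -- recover F and B
    have hFrec : 2 * F = F' * F₁ + B' * (B₁ * f) := by
      unfold IsPell at *
      rw [hF', hB']
      linear_combination -w * F * (h₁) - (2 * F) * hw
    have hBrec : 2 * B = F' * B₁ + F₁ * B' := by
      unfold IsPell at *
      rw [hF', hB']
      linear_combination -w * B * (h₁) - (2 * B) * hw
    have hl'' : 0 < n - m → F'.leadingCoeff = B'.leadingCoeff := by
      intro hnm
      -- if the leading coefficients were opposite then F would have smaller degree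
      have hF'pos : 0 < F'.natDegree := by omega
      have h7 := hP'.lc hf hF'pos
      rcases sq_eq_sq_iff_eq_or_eq_neg.1 h7 with h8 | h8
      · exact h8
      · exfalso
        have hB'ne := hP'.B_ne hF'pos
        have hd' := hP'.deg hf hF'pos
        have h9 : (F' * F₁).natDegree = n := by
          rw [natDegree_mul hF'ne hF₁ne]; omega
        have h10 : (B' * (B₁ * f)).natDegree = n := by
          rw [natDegree_mul hB'ne (mul_ne_zero hB₁ne hf.ne_zero), natDegree_mul hB₁ne hf.ne_zero]
          omega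
        have h11 : (F' * F₁).coeff n = F'.leadingCoeff * F₁.leadingCoeff := by
          conv_lhs => rw [← h9]
          rw [coeff_natDegree, leadingCoeff_mul]
        have h12 : (B' * (B₁ * f)).coeff n = -(F'.leadingCoeff * F₁.leadingCoeff) := by
          conv_lhs => rw [← h10]
          rw [coeff_natDegree, leadingCoeff_mul, leadingCoeff_mul, hf.leadingCoeff, mul_one, h8,
            hlc]
          ring
        have h13 := congrArg (fun p => p.coeff n) hFrec
        have e : (2 : k[X]) = C 2 := rfl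
        simp only [e, coeff_C_mul, coeff_add, h11, h12, add_neg_cancel] at h13
        have h14 : F.coeff n ≠ 0 := by
          rw [← hn, coeff_natDegree]
          exact leadingCoeff_ne_zero.2 hFne
        exact (mul_ne_zero (NeZero.ne _) h14) h13
    obtain ⟨j, ε, hε, e1, e2, -⟩ := ih (n - m) (by omega) F' B' hP' hF'd hl''
    refine ⟨j + 1, ε, hε, ?_, ?_, fun _ => Nat.succ_pos j⟩
    · apply mul_left_cancel₀ h2
      rw [hFrec]
      have h3 := congrArg (aeval F₁) (cp_sp j).2
      simp only [map_add, map_mul, map_sub, map_pow, aeval_X, map_ofNat] at h3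
      rw [e1, e2]
      unfold IsPell at h₁
      linear_combination ε * h3 - ε * aeval F₁ (sp j) * h₁
    · apply mul_left_cancel₀ h2
      rw [hBrec]
      have h3 := congrArg (aeval F₁) (cp_sp j).1
      simp only [map_add, map_mul, aeval_X, map_ofNat] at h3
      rw [e1, e2]
      linear_combination ε * B₁ * h3

end Pool.Agent.E8helper67.EL
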