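import Pool.Agent.E8helper67.EL.Gauss
set_option autoImplicit false

/-!
The quadratic extension `θ² = h θ + l` of a polynomial ring.
-/

namespace Pool.Agent.E8helper67.EL

open Polynomial

variable {k : Type*} [Field k]

/-- the polynomial `θ² - h θ - l` -/
noncomputable def qp (h l : k[X]) : k[X][X] := X ^ 2 - C h * X - C l

theorem qp_monic (h l : k[X]) : (qp h l).Monic := by
  unfold qp
  monicity!

theorem qp_natDegree (h l : k[X]) : (qp h l).natDegree = 2 := by
  unfold qp
  compute_degree!

/-- the quadratic extension -/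
abbrev RQ (h l : k[X]) : Type _ := AdjoinRoot (qp h l)

variable {h l : k[X]}

noncomputable abbrev qo (h l : k[X]) : k[X] →+* RQ h l := AdjoinRoot.of (qp h l)

noncomputable abbrev th (h l : k[X]) : RQ h l := AdjoinRoot.root (qp h l)

theorem th_eq (h l : k[X]) : th h l ^ 2 = qo h l h * th h l + qo h l l := by
  have h1 := AdjoinRoot.mk_self (f := qp h l)
  have h2 : AdjoinRoot.mk (qp h l) (qp h l) = th h l ^ 2 - qo h l h * th h l - qo h l l := by
    conv_lhs => rw [show AdjoinRoot.mk (qp h l) (qp h l) =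
      AdjoinRoot.mk (qp h l) (X ^ 2 - C h * X - C l) from rfl]
    rw [map_sub, map_sub, map_mul, map_pow, AdjoinRoot.mk_X, AdjoinRoot.mk_C, AdjoinRoot.mk_C]
  rw [h2] at h1
  linear_combination h1

theorem qo_add_mul_eq_zero {a b : k[X]} (hab : qo h l a + qo h l b * th h l = 0) :
    a = 0 ∧ b = 0 := by
  have h1 : AdjoinRoot.mk (qp h l) (C b * X + C a) = 0 := by
    rw [map_add, map_mul, AdjoinRoot.mk_X, AdjoinRoot.mk_C, AdjoinRoot.mk_C]
    linear_combination hab
  rw [AdjoinRoot.mk_eq_zero] at h1
  have h2 : (C b * X + C a : k[X][X]) = 0 := by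
    by_contra h3
    refine (qp_monic h l).not_dvd_of_natDegree_lt h3 ?_ h1
    rw [qp_natDegree]
    exact lt_of_le_of_lt natDegree_linear_le (by norm_num)
  constructor
  · have h3 := congrArg (fun p => p.coeff 0) h2
    simpa using h3
  · have h3 := congrArg (fun p => p.coeff 1) h2
    simpa using h3

theorem qo_injective : Function.Injective (qo h l) := by
  rw [injective_iff_map_eq_zero]
  intro a ha
  exact (qo_add_mul_eq_zero (b := 0) (by rw [ha, map_zero, zero_mul, add_zero])).1

theorem exists_qo (u : RQ h l) : ∃ a b : k[X], u = qo h l a + qo h l b * th h l := by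
  obtain ⟨p, rfl⟩ := AdjoinRoot.mk_surjective u
  have h1 : AdjoinRoot.mk (qp h l) p = AdjoinRoot.mk (qp h l) (p %ₘ qp h l) := by
    rw [AdjoinRoot.mk_eq_mk]
    exact ⟨p /ₘ qp h l, by linear_combination -(modByMonic_add_div p (qp h l))⟩
  have h2 : (p %ₘ qp h l).natDegree ≤ 1 := by
    have h3 := natDegree_modByMonic_lt p (qp_monic h l) (by
      intro h4
      have h5 := qp_natDegree h l
      rw [h4, natDegree_one] at h5
      omega)
    rw [qp_natDegree] at h3
    omega
  refine ⟨(p %ₘ qp h l).coeff 0, (p %ₘ qp h l).coeff 1, ?_⟩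
  rw [h1]
  conv_lhs => rw [eq_X_add_C_of_natDegree_le_one h2]
  rw [map_add, map_mul, AdjoinRoot.mk_X, AdjoinRoot.mk_C, AdjoinRoot.mk_C]
  ring

theorem eval₂_qp {S : Type*} [CommRing S] (f : k[X] →+* S) (x : S) :
    eval₂ f x (qp h l) = x ^ 2 - f h * x - f l := by
  unfold qp
  simp only [eval₂_sub, eval₂_mul, eval₂_pow, eval₂_X, eval₂_C]

/-- the conjugation -/
noncomputable def cj (h l : k[X]) : RQ h l →+* RQ h l :=
  AdjoinRoot.lift (qo h l) (qo h l h - th h l) (by
    rw [eval₂_qp]
    linear_combination th_eq h l)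

theorem cj_qo (a : k[X]) : cj h l (qo h l a) = qo h l a := AdjoinRoot.lift_of _

theorem cj_th : cj h l (th h l) = qo h l h - th h l := AdjoinRoot.lift_root _

theorem add_cj (a b : k[X]) : (qo h l a + qo h l b * th h l) +
    cj h l (qo h l a + qo h l b * th h l) = qo h l (2 * a + b * h) := by
  rw [map_add, map_mul, cj_qo, cj_qo, cj_th, map_add, map_mul, map_mul, map_ofNat]
  ring

theorem mul_cj (a b : k[X]) : (qo h l a + qo h l b * th h l) *
    cj h l (qo h l a + qo h l b * th h l) = qo h l (a ^ 2 + a * b * h - b ^ 2 * l) := by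
  simp only [map_add, map_mul, map_sub, map_pow, cj_qo, cj_th]
  linear_combination -(qo h l b) ^ 2 * th_eq h l

/-- the norm of a unit is a constant -/
theorem norm_unit {a b : k[X]} (hu : IsUnit (qo h l a + qo h l b * th h l)) :
    ∃ ν : k, ν ≠ 0 ∧ a ^ 2 + a * b * h - b ^ 2 * l = C ν := by
  obtain ⟨v, hv⟩ := hu.exists_right_inv
  obtain ⟨a', b', rfl⟩ := exists_qo v
  have h1 := congrArg (fun w => w * cj h l w) hv
  simp only [map_mul, map_one, one_mul] at h1
  have h2 : qo h l ((a ^ 2 + a * b * h - b ^ 2 * l) * (a' ^ 2 + a' * b' * h - b' ^ 2 * l)) =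
      qo h l 1 := by
    rw [map_mul, ← mul_cj, ← mul_cj, map_one, ← h1]
    ring
  have h3 := qo_injective h2
  obtain ⟨ν, hν, hν'⟩ := Polynomial.isUnit_iff.1 (IsUnit.of_mul_eq_one _ h3)
  exact ⟨ν, hν.ne_zero, hν'.symm⟩

/-- the Pell equation of an element of norm `ν` -/
theorem pell_of_norm {a b : k[X]} {ν : k} (hab : a ^ 2 + a * b * h - b ^ 2 * l = C ν) :
    (2 * a + b * h) ^ 2 - 4 * C ν = b ^ 2 * (h ^ 2 + 4 * l) := by
  rw [← hab]
  ring

/-- the powers of `θ` -/
noncomputable def al (h l : k[X]) : ℕ → k[X] × k[X]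
  | 0 => (1, 0)
  | n + 1 => (l * (al h l n).2, (al h l n).1 + h * (al h l n).2)

theorem th_pow (n : ℕ) : th h l ^ n = qo h l (al h l n).1 + qo h l (al h l n).2 * th h l := by
  induction n with
  | zero => simp [al]
  | succ n ih =>
    rw [pow_succ, ih]
    simp only [al, map_mul, map_add]
    linear_combination (qo h l (al h l n).2) * th_eq h l

/-- the traces of the powers of `θ` -/
noncomputable def tr (h l : k[X]) (n : ℕ) : k[X] := 2 * (al h l n).1 + (al h l n).2 * h

theorem tr_rec (n : ℕ) : tr h l (n + 2) = h * tr h l (n + 1) + l * tr h l n := by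
  simp only [tr, al]
  ring

theorem tr_monic (hh : h.Monic) (hd : h.natDegree = 2) (hl : l.natDegree ≤ 1) (n : ℕ) :
    (tr h l (n + 1)).Monic ∧ (tr h l (n + 1)).natDegree = 2 * (n + 1) := by
  have t0 : tr h l 0 = C 2 := by
    simp only [tr, al]
    have : (C 2 : k[X]) = 2 := rfl
    rw [this]
    ring
  have t1 : tr h l 1 = h := by simp only [tr, al]; ring
  have key : ∀ m, (tr h l (m + 1)).Monic → (tr h l (m + 1)).natDegree = 2 * (m + 1) →
      (tr h l m).natDegree ≤ 2 * m →
      (tr h l (m + 2)).Monic ∧ (tr h l (m + 2)).natDegree = 2 * (m + 2) := by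
    intro m h1 h2 h3
    have h4 : (h * tr h l (m + 1)).natDegree = 2 * (m + 2) := by
      rw [hh.natDegree_mul h1, hd, h2]; ring
    have h5 : (l * tr h l m).natDegree < 2 * (m + 2) := by
      refine lt_of_le_of_lt natDegree_mul_le ?_
      omega
    rw [tr_rec]
    refine ⟨?_, ?_⟩
    · refine (hh.mul h1).add_of_left ?_
      rw [degree_eq_natDegree (hh.mul h1).ne_zero, h4]
      refine lt_of_le_of_lt degree_le_natDegree ?_
      exact_mod_cast h5
    · rw [natDegree_add_eq_left_of_natDegree_lt, h4]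
      rw [h4]
      exact h5
  have h : ((tr h l (n + 1)).Monic ∧ (tr h l (n + 1)).natDegree = 2 * (n + 1)) ∧
      ((tr h l (n + 2)).Monic ∧ (tr h l (n + 2)).natDegree = 2 * (n + 2)) := by
    induction n with
    | zero =>
      have h1 : (tr h l 1).Monic ∧ (tr h l 1).natDegree = 2 * (0 + 1) := by
        rw [t1]; exact ⟨hh, hd⟩
      exact ⟨h1, key 0 h1.1 h1.2 (by rw [t0, natDegree_C])⟩
    | succ n ih => exact ⟨ih.2, key (n + 1) ih.2.1 ih.2.2 ih.1.2.le⟩
  exact h.1

theorem tr_natDegree_le (hh : h.Monic) (hd : h.natDegree = 2) (hl : l.natDegree ≤ 1) (n : ℕ) :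
    (tr h l n).natDegree ≤ 2 * n := by
  rcases n with _ | n
  · have t0 : tr h l 0 = C 2 := by
      simp only [tr, al]
      have : (C 2 : k[X]) = 2 := rfl
      rw [this]
      ring
    rw [t0, natDegree_C]
  · exact (tr_monic hh hd hl n).2.le

/-- the components of `p(θ) + q(θ) (t θ + y)` -/
noncomputable def co (h l : k[X]) (y : k) (p q : k[X]) : k[X] × k[X] :=
  (p.sum (fun j c => C c * (al h l j).1) + q.sum (fun j c => C c * (X * (al h l (j + 1)).1 +
      C y * (al h l j).1)),
    p.sum (fun j c => C c * (al h l j).2) + q.sum (fun j c => C c * (X * (al h l (j + 1)).2 +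
      C y * (al h l j).2)))

theorem co_eq (y : k) (p q : k[X]) :
    eval₂ ((qo h l).comp C) (th h l) p +
      eval₂ ((qo h l).comp C) (th h l) q * (qo h l X * th h l + qo h l (C y)) =
      qo h l (co h l y p q).1 + qo h l (co h l y p q).2 * th h l := by
  simp only [co, map_add, Polynomial.sum, map_sum, map_mul, eval₂_eq_sum, RingHom.comp_apply,
    Finset.sum_mul, add_mul]
  have e1 : ∀ j, qo h l (C (p.coeff j)) * th h l ^ j = qo h l (C (p.coeff j)) *
      qo h l (al h l j).1 + qo h l (C (p.coeff j)) * qo h l (al h l j).2 * th h l := by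
    intro j
    rw [th_pow]
    ring
  have e2 : ∀ j, qo h l (C (q.coeff j)) * th h l ^ j * (qo h l X * th h l + qo h l (C y)) =
      qo h l (C (q.coeff j)) * (qo h l X * qo h l (al h l (j + 1)).1 +
        qo h l (C y) * qo h l (al h l j).1) +
      qo h l (C (q.coeff j)) * (qo h l X * qo h l (al h l (j + 1)).2 +
        qo h l (C y) * qo h l (al h l j).2) * th h l := by
    intro j
    have e3 := th_pow (h := h) (l := l) (j + 1)
    have e4 := th_pow (h := h) (l := l) j
    rw [pow_succ] at e3
    linear_combination (qo h l (C (q.coeff j)) * qo h l X) * e3 +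
      (qo h l (C (q.coeff j)) * qo h l (C y)) * e4
  simp only [e1, e2, Finset.sum_add_distrib]
  ring

/-- the trace `F₀` -/
theorem co_trace (y : k) (p q : k[X]) :
    2 * (co h l y p q).1 + (co h l y p q).2 * h =
      p.sum (fun j c => C c * tr h l j) +
        q.sum (fun j c => C c * (X * tr h l (j + 1) + C y * tr h l j)) := by
  simp only [co, Polynomial.sum, tr, mul_add, add_mul, Finset.mul_sum, Finset.sum_mul,
    Finset.sum_add_distrib]
  have e : ∀ (s : Finset ℕ) (f g : ℕ → k[X]), (∀ i, f i = g i) → ∑ i ∈ s, f i = ∑ i ∈ s, g i :=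
    fun s f g hfg => Finset.sum_congr rfl fun i _ => hfg i
  rw [e p.support (fun i => 2 * (C (p.coeff i) * (al h l i).1))
      (fun i => C (p.coeff i) * (2 * (al h l i).1)) (fun i => by ring),
    e p.support (fun i => C (p.coeff i) * (al h l i).2 * h)
      (fun i => C (p.coeff i) * ((al h l i).2 * h)) (fun i => by ring),
    e q.support (fun i => 2 * (C (q.coeff i) * (X * (al h l (i + 1)).1)))
      (fun i => C (q.coeff i) * (X * (2 * (al h l (i + 1)).1))) (fun i => by ring),
    e q.support (fun i => 2 * (C (q.coeff i) * (C y * (al h l i).1)))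
      (fun i => C (q.coeff i) * (C y * (2 * (al h l i).1))) (fun i => by ring),
    e q.support (fun i => C (q.coeff i) * (X * (al h l (i + 1)).2) * h)
      (fun i => C (q.coeff i) * (X * ((al h l (i + 1)).2 * h))) (fun i => by ring),
    e q.support (fun i => C (q.coeff i) * (C y * (al h l i).2) * h)
      (fun i => C (q.coeff i) * (C y * ((al h l i).2 * h))) (fun i => by ring)]
  ring

theorem al_int (hh : IntC h) (hl : IntC l) (n : ℕ) : IntC (al h l n).1 ∧ IntC (al h l n).2 := by
  induction n with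
  | zero =>
    have h1 : IntC (1 : k[X]) := by rw [← C_1]; exact intC_C isIntegral_one
    have h0 : IntC (0 : k[X]) := by rw [← C_0]; exact intC_C isIntegral_zero
    exact ⟨h1, h0⟩
  | succ n ih => exact ⟨hl.mul ih.2, ih.1.add (hh.mul ih.2)⟩

theorem intC_sum {p : k[X]} (hp : IntC p) {f : ℕ → k[X]} (hf : ∀ j, IntC (f j)) :
    IntC (p.sum fun j c => C c * f j) := by
  unfold Polynomial.sum
  generalize p.support = s
  classical
  induction s using Finset.induction_on with
  | empty =>
    rw [Finset.sum_empty, ← C_0]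
    exact intC_C isIntegral_zero
  | insert a s ha ih =>
    rw [Finset.sum_insert ha]
    exact ((intC_C (hp a)).mul (hf a)).add ih

theorem co_int (hh : IntC h) (hl : IntC l) {y : k} (hy : IsIntegral ℤ y) {p q : k[X]}
    (hp : IntC p) (hq : IntC q) : IntC (co h l y p q).1 ∧ IntC (co h l y p q).2 := by
  refine ⟨(intC_sum hp fun j => (al_int hh hl j).1).add (intC_sum hq fun j =>
    (intC_X.mul (al_int hh hl (j + 1)).1).add ((intC_C hy).mul (al_int hh hl j).1)),
    (intC_sum hp fun j => (al_int hh hl j).2).add (intC_sum hq fun j =>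
    (intC_X.mul (al_int hh hl (j + 1)).2).add ((intC_C hy).mul (al_int hh hl j).2))⟩

/-- the degree of the trace: general sums -/
theorem sum_natDegree_le {p : k[X]} {f : ℕ → k[X]} {c : ℕ} (hf : ∀ j, (f j).natDegree ≤ 2 * j + c) :
    (p.sum fun j a => C a * f j).natDegree ≤ 2 * p.natDegree + c := by
  unfold Polynomial.sum
  refine natDegree_sum_le_of_forall_le _ _ fun j hj => ?_
  refine (natDegree_C_mul_le _ _).trans ((hf j).trans ?_)
  have := le_natDegree_of_mem_supp j hj
  omega

theorem sum_coeff {p : k[X]} {f : ℕ → k[X]} {c : ℕ} (hf : ∀ j, (f j).natDegree ≤ 2 * j + c)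
    (hm : (f p.natDegree).coeff (2 * p.natDegree + c) = 1) :
    (p.sum fun j a => C a * f j).coeff (2 * p.natDegree + c) = p.leadingCoeff := by
  by_cases hp : p = 0
  · rw [hp]
    simp
  · unfold Polynomial.sum
    rw [finsetSum_coeff, Finset.sum_eq_single p.natDegree]
    · rw [coeff_C_mul, hm, mul_one]
      rfl
    · intro j hj hne
      have h1 := le_natDegree_of_mem_supp j hj
      have h2 : (f j).coeff (2 * p.natDegree + c) = 0 := by
        refine coeff_eq_zero_of_natDegree_lt (lt_of_le_of_lt (hf j) ?_)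
        omega
      rw [coeff_C_mul, h2, mul_zero]
    · intro h1
      exact absurd (natDegree_mem_support_of_nonzero hp) h1

end Pool.Agent.E8helper67.EL
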