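import Pool.Agent.E8helper67.EL.Quad
set_option autoImplicit false

/-!
Torsion points of elliptic curves and units.
-/

namespace Pool.Agent.E8helper67.EL

open Polynomial

open WeierstrassCurve.Affine WeierstrassCurve.Affine.CoordinateRing

variable {k : Type*} [Field k] (W : WeierstrassCurve k) (x₀ y₀ : k)

/-- the derivative of the equation with respect to `Y` at the point -/
def A3 : k := 2 * y₀ + W.a₁ * x₀ + W.a₃

/-- minus the derivative of the equation with respect to `X` at the point -/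
def A4 : k := 3 * x₀ ^ 2 + 2 * W.a₂ * x₀ + W.a₄ - W.a₁ * y₀

noncomputable def hW : k[X] := X ^ 2 + C W.a₁ * X - C (W.a₂ + 3 * x₀)

noncomputable def lW : k[X] := C (A3 W x₀ y₀) * X - C (A4 W x₀ y₀)

/-- the quartic polynomial: the discriminant of the quadratic equation for the `X`-coordinate of
the points of the lines through the given point -/
noncomputable def fW : k[X] := hW W x₀ ^ 2 + 4 * lW W x₀ y₀

theorem hW_monic : (hW W x₀).Monic := by
  unfold hW
  monicity!

theorem hW_natDegree : (hW W x₀).natDegree = 2 := by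
  unfold hW
  compute_degree!

theorem lW_natDegree : (lW W x₀ y₀).natDegree ≤ 1 := by
  unfold lW
  compute_degree

theorem lW_ne_zero (h : A3 W x₀ y₀ ≠ 0 ∨ A4 W x₀ y₀ ≠ 0) : lW W x₀ y₀ ≠ 0 := by
  intro h0
  have h1 := congrArg (fun p => p.coeff 1) h0
  have h2 := congrArg (fun p => p.coeff 0) h0
  simp [lW, coeff_C] at h1 h2
  rcases h with h | h
  · exact h h1
  · exact h h2

variable {W x₀ y₀}

theorem nonsing (h : W.toAffine.Nonsingular x₀ y₀) : A3 W x₀ y₀ ≠ 0 ∨ A4 W x₀ y₀ ≠ 0 := by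
  rw [nonsingular_iff'] at h
  rcases h.2 with h1 | h1
  · right
    intro h2
    apply h1
    unfold A4 at h2
    linear_combination -h2
  · left
    exact h1

/-- the ring homomorphism from the coordinate ring -/
noncomputable def phi (h : W.toAffine.Equation x₀ y₀) :
    W.toAffine.CoordinateRing →+* RQ (hW W x₀) (lW W x₀ y₀) :=
  AdjoinRoot.lift (eval₂RingHom ((qo (hW W x₀) (lW W x₀ y₀)).comp C)
      (th (hW W x₀) (lW W x₀ y₀) + qo _ _ (C x₀)))
    (qo _ _ X * th (hW W x₀) (lW W x₀ y₀) + qo _ _ (C y₀)) (by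
      rw [WeierstrassCurve.Affine.polynomial]
      simp only [eval₂_add, eval₂_sub, eval₂_mul, eval₂_pow, eval₂_X, eval₂_C, coe_eval₂RingHom,
        RingHom.comp_apply]
      rw [equation_iff] at h
      have h1 := congrArg (fun z => qo (hW W x₀) (lW W x₀ y₀) (C z)) h
      simp only [map_add, map_mul, map_pow] at h1
      have h2 := th_eq (hW W x₀) (lW W x₀ y₀)
      have h3 : qo (hW W x₀) (lW W x₀ y₀) (hW W x₀) = qo _ _ X ^ 2 + qo _ _ (C W.a₁) * qo _ _ X -
          (qo _ _ (C W.a₂) + 3 * qo _ _ (C x₀)) := by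
        conv_lhs => rw [show qo (hW W x₀) (lW W x₀ y₀) (hW W x₀) =
          qo (hW W x₀) (lW W x₀ y₀) (X ^ 2 + C W.a₁ * X - C (W.a₂ + 3 * x₀)) from rfl]
        simp only [map_add, map_sub, map_mul, map_pow, map_ofNat]
      have h4 : qo (hW W x₀) (lW W x₀ y₀) (lW W x₀ y₀) =
          (2 * qo _ _ (C y₀) + qo _ _ (C W.a₁) * qo _ _ (C x₀) + qo _ _ (C W.a₃)) * qo _ _ X -
          (3 * qo _ _ (C x₀) ^ 2 + 2 * qo _ _ (C W.a₂) * qo _ _ (C x₀) + qo _ _ (C W.a₄) -
            qo _ _ (C W.a₁) * qo _ _ (C y₀)) := by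
        conv_lhs => rw [show qo (hW W x₀) (lW W x₀ y₀) (lW W x₀ y₀) =
          qo (hW W x₀) (lW W x₀ y₀) (C (A3 W x₀ y₀) * X - C (A4 W x₀ y₀)) from rfl]
        simp only [A3, A4, map_add, map_sub, map_mul, map_pow, map_ofNat]
      rw [h3, h4] at h2
      linear_combination h1 - th (hW W x₀) (lW W x₀ y₀) * h2)

theorem phi_mk (h : W.toAffine.Equation x₀ y₀) (p : k[X][X]) :
    phi h (CoordinateRing.mk W.toAffine p) =
      eval₂ (eval₂RingHom ((qo (hW W x₀) (lW W x₀ y₀)).comp C)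
        (th (hW W x₀) (lW W x₀ y₀) + qo _ _ (C x₀)))
        (qo _ _ X * th (hW W x₀) (lW W x₀ y₀) + qo _ _ (C y₀)) p :=
  AdjoinRoot.lift_mk _ p

theorem phi_basis (h : W.toAffine.Equation x₀ y₀) (p q : k[X]) :
    phi h (p • (1 : W.toAffine.CoordinateRing) + q • CoordinateRing.mk W.toAffine X) =
      qo _ _ (co (hW W x₀) (lW W x₀ y₀) y₀ (p.comp (X + C x₀)) (q.comp (X + C x₀))).1 +
      qo _ _ (co (hW W x₀) (lW W x₀ y₀) y₀ (p.comp (X + C x₀)) (q.comp (X + C x₀))).2 *
        th (hW W x₀) (lW W x₀ y₀) := by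
  rw [← co_eq]
  have e1 : p • (1 : W.toAffine.CoordinateRing) + q • CoordinateRing.mk W.toAffine X =
      CoordinateRing.mk W.toAffine (C p + C q * X) := by
    rw [map_add, map_mul, Algebra.smul_def, Algebra.smul_def, mul_one]
    rfl
  rw [e1, phi_mk, eval₂_add, eval₂_mul, eval₂_C, eval₂_C, eval₂_X, coe_eval₂RingHom, eval₂_comp,
    eval₂_comp, eval₂_add, eval₂_X, eval₂_C]
  rfl

theorem phi_X (h : W.toAffine.Equation x₀ y₀) :
    phi h (XClass W.toAffine x₀) = th (hW W x₀) (lW W x₀ y₀) := by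
  have e1 : XClass W.toAffine x₀ = CoordinateRing.mk W.toAffine (C (X - C x₀)) := rfl
  rw [e1, phi_mk, eval₂_C, coe_eval₂RingHom, eval₂_sub, eval₂_X, eval₂_C]
  simp

theorem phi_Y (h : W.toAffine.Equation x₀ y₀) :
    phi h (YClass W.toAffine (C (W.toAffine.negY x₀ y₀))) =
      qo _ _ X * th (hW W x₀) (lW W x₀ y₀) + qo _ _ (C (A3 W x₀ y₀)) := by
  have e1 : YClass W.toAffine (C (W.toAffine.negY x₀ y₀)) =
    CoordinateRing.mk W.toAffine (X - C (C (W.toAffine.negY x₀ y₀))) := rfl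
  rw [e1, phi_mk, eval₂_sub, eval₂_X, eval₂_C, coe_eval₂RingHom, eval₂_C, RingHom.comp_apply]
  have e2 : A3 W x₀ y₀ = y₀ - W.toAffine.negY x₀ y₀ := by
    unfold A3 negY
    ring
  rw [e2, map_sub, map_sub]
  ring

theorem isUnit_phi (h : W.toAffine.Nonsingular x₀ y₀) {n : ℕ} {g : W.toAffine.CoordinateRing}
    (hg : XYIdeal W.toAffine x₀ (C (W.toAffine.negY x₀ y₀)) ^ n = Ideal.span {g}) :
    IsUnit (phi h.1 g) := by
  have h1 : Ideal.map (phi h.1) (XYIdeal W.toAffine x₀ (C (W.toAffine.negY x₀ y₀))) = ⊤ := by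
    set J := Ideal.map (phi h.1) (XYIdeal W.toAffine x₀ (C (W.toAffine.negY x₀ y₀))) with hJ
    have hX : th (hW W x₀) (lW W x₀ y₀) ∈ J := by
      rw [← phi_X h.1]
      exact Ideal.mem_map_of_mem _ (Ideal.subset_span (Or.inl rfl))
    have hY : qo _ _ X * th (hW W x₀) (lW W x₀ y₀) + qo _ _ (C (A3 W x₀ y₀)) ∈ J := by
      rw [← phi_Y h.1]
      exact Ideal.mem_map_of_mem _ (Ideal.subset_span (Or.inr rfl))
    have hA3 : qo (hW W x₀) (lW W x₀ y₀) (C (A3 W x₀ y₀)) ∈ J := by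
      have h2 := J.sub_mem hY (J.mul_mem_left (qo _ _ X) hX)
      rwa [add_sub_cancel_left] at h2
    by_cases h3 : A3 W x₀ y₀ = 0
    · have h4 := (nonsing h).resolve_left (fun h5 => h5 h3)
      have h5 : qo (hW W x₀) (lW W x₀ y₀) (C (A4 W x₀ y₀)) ∈ J := by
        have h6 : qo (hW W x₀) (lW W x₀ y₀) (C (A4 W x₀ y₀)) =
            (qo _ _ (hW W x₀) - th (hW W x₀) (lW W x₀ y₀)) * th (hW W x₀) (lW W x₀ y₀) := by
          have h7 : qo (hW W x₀) (lW W x₀ y₀) (lW W x₀ y₀) = - qo _ _ (C (A4 W x₀ y₀)) := by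
            conv_lhs => rw [show qo (hW W x₀) (lW W x₀ y₀) (lW W x₀ y₀) =
              qo (hW W x₀) (lW W x₀ y₀) (C (A3 W x₀ y₀) * X - C (A4 W x₀ y₀)) from rfl]
            rw [h3, C_0, zero_mul, zero_sub, map_neg]
          linear_combination th_eq (hW W x₀) (lW W x₀ y₀) + h7
        rw [h6]
        exact J.mul_mem_left _ hX
      refine Ideal.eq_top_of_isUnit_mem _ h5 ?_
      exact ((isUnit_iff_ne_zero.2 h4).map C).map _
    · refine Ideal.eq_top_of_isUnit_mem _ hA3 ?_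
      exact ((isUnit_iff_ne_zero.2 h3).map C).map _
  have h2 : Ideal.map (phi h.1) (XYIdeal W.toAffine x₀ (C (W.toAffine.negY x₀ y₀)) ^ n) = ⊤ := by
    rw [Ideal.map_pow, h1, Ideal.top_pow]
  rw [hg, Ideal.map_span, Set.image_singleton] at h2
  exact Ideal.span_singleton_eq_top.1 h2

theorem norm_X (x : k) : Algebra.norm k[X] (XClass W.toAffine x) = (X - C x) ^ 2 := by
  have e1 : XClass W.toAffine x = (X - C x) • (1 : W.toAffine.CoordinateRing) +
      (0 : k[X]) • CoordinateRing.mk W.toAffine X := by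
    rw [zero_smul, add_zero, Algebra.smul_def, mul_one]
    rfl
  rw [e1, norm_smul_basis]
  ring

theorem xyIdeal_ne_top {x y : k} (h : W.toAffine.Equation x y) :
    XYIdeal W.toAffine x (C y) ≠ ⊤ := by
  intro h1
  have h2 : (W.toAffine.polynomial.eval (C y)).eval x = 0 := h
  have e := quotientXYIdealEquiv h2
  rw [h1] at e
  have h3 : Subsingleton (W.toAffine.CoordinateRing ⧸ (⊤ : Ideal W.toAffine.CoordinateRing)) :=
    Ideal.Quotient.subsingleton_iff.2 rfl
  exact zero_ne_one (e.symm.injective (Subsingleton.elim _ _) : (0 : k) = 1)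

variable [DecidableEq k]

/-- principal powers of the ideal of a torsion point -/
theorem exists_gen {x y : k} (h : W.toAffine.Nonsingular x y) {n : ℕ}
    (hn : n • (Point.some x y h) = 0) :
    ∃ g : W.toAffine.CoordinateRing, g ≠ 0 ∧ XYIdeal W.toAffine x (C y) ^ n = Ideal.span {g} := by
  have h1 := congrArg (Point.toClass (W := W.toAffine)) hn
  rw [map_nsmul, Point.toClass_zero, Point.toClass_some] at h1
  have h2 : (ClassGroup.mk W.toAffine.FunctionField (XYIdeal' (W := W.toAffine) h)) ^ n = 1 := h1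
  rw [← map_pow] at h2
  have h3 : ((XYIdeal' (W := W.toAffine) h ^ n :
      (FractionalIdeal (nonZeroDivisors W.toAffine.CoordinateRing)
        (FractionRing W.toAffine.CoordinateRing))ˣ) :
      FractionalIdeal (nonZeroDivisors W.toAffine.CoordinateRing)
        (FractionRing W.toAffine.CoordinateRing)) =
      ((XYIdeal W.toAffine x (C y) ^ n : Ideal W.toAffine.CoordinateRing) :
        FractionalIdeal (nonZeroDivisors W.toAffine.CoordinateRing)
        (FractionRing W.toAffine.CoordinateRing)) := by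
    rw [Units.val_pow_eq_pow_val, XYIdeal'_eq, FractionalIdeal.coeIdeal_pow]
  exact (ClassGroup.mk_eq_one_of_coe_ideal h3).1 h2

/-- the generator of the ideal and its norm -/
theorem exists_gen_norm (h : W.toAffine.Nonsingular x₀ y₀) {n : ℕ} (hn0 : 0 < n)
    (hn : n • (Point.some x₀ y₀ h) = 0) :
    ∃ (p q : k[X]) (m : ℕ) (c : k), 0 < m ∧ c ≠ 0 ∧
      p ^ 2 - p * q * (C W.a₁ * X + C W.a₃) -
        q ^ 2 * (X ^ 3 + C W.a₂ * X ^ 2 + C W.a₄ * X + C W.a₆) = C c * (X - C x₀) ^ m ∧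
      IsUnit (phi h.1 (p • (1 : W.toAffine.CoordinateRing) +
        q • CoordinateRing.mk W.toAffine X)) := by
  have hneg : W.toAffine.Nonsingular x₀ (W.toAffine.negY x₀ y₀) := (nonsingular_neg ..).2 h
  have hn' : n • (Point.some x₀ (W.toAffine.negY x₀ y₀) hneg) = 0 := by
    have h1 : (Point.some x₀ (W.toAffine.negY x₀ y₀) hneg) = -(Point.some x₀ y₀ h) :=
      (Point.neg_some h).symm
    rw [h1, smul_neg, hn, neg_zero]
  obtain ⟨g, hg0, hg⟩ := exists_gen hneg hn'
  have hdvd : g ∣ XClass W.toAffine x₀ ^ n := by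
    rw [← Ideal.mem_span_singleton, ← hg]
    have h1 : XIdeal W.toAffine x₀ ^ n ≤
        XYIdeal W.toAffine x₀ (C (W.toAffine.negY x₀ y₀)) ^ n := by
      rw [← XYIdeal_neg_mul h, mul_pow]
      exact Ideal.mul_le_left
    exact h1 (Ideal.pow_mem_pow (Ideal.mem_span_singleton_self _) n)
  have hN : Algebra.norm k[X] g ∣ (X - C x₀) ^ (2 * n) := by
    obtain ⟨w, hw⟩ := hdvd
    have h1 := congrArg (Algebra.norm k[X]) hw
    rw [map_mul, map_pow, norm_X, ← pow_mul] at h1
    exact ⟨_, h1⟩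
  obtain ⟨m, -, hm⟩ := (dvd_prime_pow (prime_X_sub_C x₀) _).1 hN
  obtain ⟨u, hu⟩ := hm.symm
  obtain ⟨c, hc, hcu⟩ := Polynomial.isUnit_iff.1 u.isUnit
  obtain ⟨p, q, rfl⟩ := exists_smul_basis_eq g
  have hnorm : p ^ 2 - p * q * (C W.a₁ * X + C W.a₃) -
        q ^ 2 * (X ^ 3 + C W.a₂ * X ^ 2 + C W.a₄ * X + C W.a₆) = C c * (X - C x₀) ^ m := by
    have h1 := norm_smul_basis (W' := W.toAffine) p q
    rw [← hu, ← hcu] at h1
    rw [mul_comm (C c)]
    exact h1.symm
  refine ⟨p, q, m, c, ?_, hc.ne_zero, hnorm, isUnit_phi h hg⟩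
  by_contra hm0
  have hm0' : m = 0 := by omega
  rw [hm0', pow_zero, mul_one] at hnorm
  have h1 := degree_norm_smul_basis (W' := W.toAffine) p q
  rw [norm_smul_basis] at h1
  have h2 : p ^ 2 - p * q * (C W.toAffine.a₁ * X + C W.toAffine.a₃) -
      q ^ 2 * (X ^ 3 + C W.toAffine.a₂ * X ^ 2 + C W.toAffine.a₄ * X + C W.toAffine.a₆) =
      C c := hnorm
  rw [h2, degree_C hc.ne_zero] at h1
  have hq0 : q = 0 := by
    by_contra hq
    have h3 : (2 • q.degree + 3 : WithBot ℕ) ≤ 0 := (le_max_right _ _).trans_eq h1.symm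
    rw [degree_eq_natDegree hq, two_nsmul] at h3
    have h4 : q.natDegree + q.natDegree + 3 ≤ 0 := by exact_mod_cast h3
    omega
  have hp0 : p ≠ 0 := by
    rintro rfl
    rw [hq0] at hg0
    simp at hg0
  have hpd : p.natDegree = 0 := by
    have h3 : (2 • p.degree : WithBot ℕ) ≤ 0 := (le_max_left _ _).trans_eq h1.symm
    rw [degree_eq_natDegree hp0, two_nsmul] at h3
    have h4 : p.natDegree + p.natDegree ≤ 0 := by exact_mod_cast h3
    omega
  have hunit : IsUnit (p • (1 : W.toAffine.CoordinateRing) +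
      q • CoordinateRing.mk W.toAffine X) := by
    rw [hq0, zero_smul, add_zero, Algebra.smul_def, mul_one]
    refine IsUnit.map _ ?_
    rw [isUnit_iff_degree_eq_zero, degree_eq_natDegree hp0, hpd]
    rfl
  rw [Ideal.span_singleton_eq_top.2 hunit] at hg
  have h6 : XYIdeal W.toAffine x₀ (C (W.toAffine.negY x₀ y₀)) = ⊤ := by
    rw [eq_top_iff, ← hg]
    exact Ideal.pow_le_self hn0.ne'
  exact xyIdeal_ne_top hneg.1 h6

end Pool.Agent.E8helper67.EL
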