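import Pool.Agent.E8helper67.EL.Tors
set_option autoImplicit false

/-!
Integral solutions of the Pell equation from torsion points.
-/

namespace Pool.Agent.E8helper67.EL

open Polynomial

open WeierstrassCurve.Affine WeierstrassCurve.Affine.CoordinateRing

section Lead

variable {k : Type*} [Field k] {h l : k[X]}

theorem co_smul (y s : k) (p q : k[X]) :
    (co h l y (C s * p) (C s * q)).1 = C s * (co h l y p q).1 ∧
      (co h l y (C s * p) (C s * q)).2 = C s * (co h l y p q).2 := by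
  have h1 := co_eq (h := h) (l := l) y (C s * p) (C s * q)
  have h2 := co_eq (h := h) (l := l) y p q
  rw [eval₂_mul, eval₂_mul, eval₂_C, RingHom.comp_apply] at h1
  have h3 : qo h l ((co h l y (C s * p) (C s * q)).1 - C s * (co h l y p q).1) +
      qo h l ((co h l y (C s * p) (C s * q)).2 - C s * (co h l y p q).2) * th h l = 0 := by
    rw [map_sub, map_sub, map_mul, map_mul]
    linear_combination -h1 + qo h l (C s) * h2
  obtain ⟨h4, h5⟩ := qo_add_mul_eq_zero h3
  exact ⟨sub_eq_zero.1 h4, sub_eq_zero.1 h5⟩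

theorem tr_coeff (hh : h.Monic) (hd : h.natDegree = 2) (hl : l.natDegree ≤ 1) {n : ℕ} (hn : 0 < n) :
    (tr h l n).coeff (2 * n) = 1 := by
  obtain ⟨m, rfl⟩ : ∃ m, n = m + 1 := ⟨n - 1, by omega⟩
  obtain ⟨h1, h2⟩ := tr_monic hh hd hl m
  rw [← h2]
  exact h1

theorem trY_natDegree_le (hh : h.Monic) (hd : h.natDegree = 2) (hl : l.natDegree ≤ 1) (y : k)
    (n : ℕ) : (X * tr h l (n + 1) + C y * tr h l n).natDegree ≤ 2 * n + 3 := by
  refine (natDegree_add_le _ _).trans (max_le ?_ ?_)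
  · refine natDegree_mul_le.trans ?_
    have := tr_natDegree_le hh hd hl (n + 1)
    have := natDegree_X_le (R := k)
    omega
  · refine (natDegree_C_mul_le _ _).trans ?_
    have := tr_natDegree_le hh hd hl n
    omega

theorem trY_coeff (hh : h.Monic) (hd : h.natDegree = 2) (hl : l.natDegree ≤ 1) (y : k)
    (n : ℕ) : (X * tr h l (n + 1) + C y * tr h l n).coeff (2 * n + 3) = 1 := by
  rw [coeff_add, coeff_C_mul, show 2 * n + 3 = (2 * (n + 1)) + 1 from by ring, coeff_X_mul,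
    tr_coeff hh hd hl (Nat.succ_pos n)]
  have h1 : (tr h l n).coeff (2 * (n + 1) + 1) = 0 := by
    refine coeff_eq_zero_of_natDegree_lt ?_
    have := tr_natDegree_le hh hd hl n
    omega
  rw [h1, mul_zero, add_zero]

/-- degree and leading coefficient of the trace -/
theorem lead_trace (hh : h.Monic) (hd : h.natDegree = 2) (hl : l.natDegree ≤ 1) (y : k)
    (p q : k[X]) :
    (q = 0 ∨ 2 * q.natDegree + 3 < 2 * p.natDegree →  0 < p.natDegree →
      (2 * (co h l y p q).1 + (co h l y p q).2 * h).natDegree ≤ 2 * p.natDegree ∧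
      (2 * (co h l y p q).1 + (co h l y p q).2 * h).coeff (2 * p.natDegree) = p.leadingCoeff) ∧
    (2 * p.natDegree < 2 * q.natDegree + 3 →
      (2 * (co h l y p q).1 + (co h l y p q).2 * h).natDegree ≤ 2 * q.natDegree + 3 ∧
      (2 * (co h l y p q).1 + (co h l y p q).2 * h).coeff (2 * q.natDegree + 3) =
        q.leadingCoeff) := by
  rw [co_trace]
  have hp1 : (p.sum fun j c => C c * tr h l j).natDegree ≤ 2 * p.natDegree := by
    simpa using sum_natDegree_le (p := p) (f := fun j => tr h l j) (c := 0)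
      (fun j => tr_natDegree_le hh hd hl j)
  have hq1 : (q.sum fun j c => C c * (X * tr h l (j + 1) + C y * tr h l j)).natDegree ≤
      2 * q.natDegree + 3 :=
    sum_natDegree_le (p := q) (f := fun j => X * tr h l (j + 1) + C y * tr h l j) (c := 3)
      (fun j => trY_natDegree_le hh hd hl y j)
  constructor
  · intro hlt hp0
    have hp2 : (p.sum fun j c => C c * tr h l j).coeff (2 * p.natDegree) = p.leadingCoeff := by
      simpa using sum_coeff (p := p) (f := fun j => tr h l j) (c := 0)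
        (fun j => tr_natDegree_le hh hd hl j) (tr_coeff hh hd hl hp0)
    rcases hlt with rfl | hlt
    · rw [sum_zero_index, add_zero]
      exact ⟨hp1, hp2⟩
    · refine ⟨(natDegree_add_le _ _).trans (max_le hp1 (by omega)), ?_⟩
      rw [coeff_add, hp2, coeff_eq_zero_of_natDegree_lt (by omega), add_zero]
  · intro hlt
    have hq2 := sum_coeff (p := q) (f := fun j => X * tr h l (j + 1) + C y * tr h l j) (c := 3)
      (fun j => trY_natDegree_le hh hd hl y j) (trY_coeff hh hd hl y _)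
    refine ⟨(natDegree_add_le _ _).trans (max_le (by omega) hq1), ?_⟩
    rw [coeff_add, hq2, coeff_eq_zero_of_natDegree_lt (by omega), zero_add]

end Lead

section Norm

variable {k : Type*} [Field k]

/-- degree and leading coefficient of the norm -/
theorem lead_norm (a₁ a₂ a₃ a₄ a₆ : k) (p q : k[X]) :
    (q = 0 ∨ 2 * q.natDegree + 3 < 2 * p.natDegree →
      (p ^ 2 - p * q * (C a₁ * X + C a₃) - q ^ 2 *
        (X ^ 3 + C a₂ * X ^ 2 + C a₄ * X + C a₆)).natDegree ≤ 2 * p.natDegree ∧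
      (p ^ 2 - p * q * (C a₁ * X + C a₃) - q ^ 2 *
        (X ^ 3 + C a₂ * X ^ 2 + C a₄ * X + C a₆)).coeff (2 * p.natDegree) =
        p.leadingCoeff ^ 2) ∧
    (2 * p.natDegree < 2 * q.natDegree + 3 →
      (p ^ 2 - p * q * (C a₁ * X + C a₃) - q ^ 2 *
        (X ^ 3 + C a₂ * X ^ 2 + C a₄ * X + C a₆)).natDegree ≤ 2 * q.natDegree + 3 ∧
      (p ^ 2 - p * q * (C a₁ * X + C a₃) - q ^ 2 *
        (X ^ 3 + C a₂ * X ^ 2 + C a₄ * X + C a₆)).coeff (2 * q.natDegree + 3) =
        -q.leadingCoeff ^ 2) := by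
  have h1 : (p ^ 2).natDegree = 2 * p.natDegree := natDegree_pow _ _
  have h2 : (p * q * (C a₁ * X + C a₃)).natDegree ≤ p.natDegree + q.natDegree + 1 := by
    refine natDegree_mul_le.trans ?_
    have := natDegree_mul_le (p := p) (q := q)
    have : (C a₁ * X + C a₃).natDegree ≤ 1 := natDegree_linear_le
    omega
  have hc : (X ^ 3 + C a₂ * X ^ 2 + C a₄ * X + C a₆ : k[X]).Monic := by monicity!
  have hcd : (X ^ 3 + C a₂ * X ^ 2 + C a₄ * X + C a₆ : k[X]).natDegree = 3 := by compute_degree!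
  have h3 : (q ^ 2 * (X ^ 3 + C a₂ * X ^ 2 + C a₄ * X + C a₆)).natDegree ≤
      2 * q.natDegree + 3 := by
    refine natDegree_mul_le.trans ?_
    rw [natDegree_pow, hcd]
  have e1 : (p ^ 2).coeff (2 * p.natDegree) = p.leadingCoeff ^ 2 := by
    rw [← h1, coeff_natDegree, leadingCoeff_pow]
  constructor
  · intro hlt
    rcases hlt with rfl | hlt
    · have e2 : p ^ 2 - p * 0 * (C a₁ * X + C a₃) - 0 ^ 2 *
          (X ^ 3 + C a₂ * X ^ 2 + C a₄ * X + C a₆) = p ^ 2 := by ring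
      rw [e2]
      exact ⟨h1.le, e1⟩
    · refine ⟨(natDegree_sub_le _ _).trans (max_le ((natDegree_sub_le _ _).trans
        (max_le h1.le (by omega))) (by omega)), ?_⟩
      rw [coeff_sub, coeff_sub, e1, coeff_eq_zero_of_natDegree_lt (p := p * q * _) (by omega),
        coeff_eq_zero_of_natDegree_lt (p := q ^ 2 * _) (by omega), sub_zero, sub_zero]
  · intro hlt
    refine ⟨(natDegree_sub_le _ _).trans (max_le ((natDegree_sub_le _ _).trans
        (max_le (by omega) (by omega))) h3), ?_⟩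
    have e2 : (q ^ 2 * (X ^ 3 + C a₂ * X ^ 2 + C a₄ * X + C a₆)).coeff (2 * q.natDegree + 3) =
        q.leadingCoeff ^ 2 := by
      by_cases hq : q = 0
      · rw [hq]; simp
      · have h4 : (q ^ 2 * (X ^ 3 + C a₂ * X ^ 2 + C a₄ * X + C a₆)).natDegree =
            2 * q.natDegree + 3 := by
          rw [natDegree_mul (pow_ne_zero 2 hq) hc.ne_zero, natDegree_pow, hcd]
        rw [← h4, coeff_natDegree, leadingCoeff_mul, leadingCoeff_pow, hc.leadingCoeff, mul_one]
    rw [coeff_sub, coeff_sub, e2, coeff_eq_zero_of_natDegree_lt (p := p ^ 2) (by omega),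
      coeff_eq_zero_of_natDegree_lt (p := p * q * _) (by omega), sub_zero, zero_sub]

variable {W : WeierstrassCurve k} {x₀ y₀ : k}

/-- the normalised generator -/
theorem exists_gen_normal [DecidableEq k] (h : W.toAffine.Nonsingular x₀ y₀) {n : ℕ} (hn0 : 0 < n)
    (hn : n • (Point.some x₀ y₀ h) = 0) :
    ∃ (p q : k[X]) (m : ℕ) (c ν : k), 0 < m ∧ (c = 1 ∨ c = -1) ∧ ν ≠ 0 ∧
      p ^ 2 - p * q * (C W.a₁ * X + C W.a₃) -
        q ^ 2 * (X ^ 3 + C W.a₂ * X ^ 2 + C W.a₄ * X + C W.a₆) = C c * (X - C x₀) ^ m ∧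
      (2 * (co (hW W x₀) (lW W x₀ y₀) y₀ (p.comp (X + C x₀)) (q.comp (X + C x₀))).1 +
        (co (hW W x₀) (lW W x₀ y₀) y₀ (p.comp (X + C x₀)) (q.comp (X + C x₀))).2 *
          hW W x₀).natDegree = m ∧
      (2 * (co (hW W x₀) (lW W x₀ y₀) y₀ (p.comp (X + C x₀)) (q.comp (X + C x₀))).1 +
        (co (hW W x₀) (lW W x₀ y₀) y₀ (p.comp (X + C x₀)) (q.comp (X + C x₀))).2 *
          hW W x₀).Monic ∧
      (co (hW W x₀) (lW W x₀ y₀) y₀ (p.comp (X + C x₀)) (q.comp (X + C x₀))).1 ^ 2 +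
        (co (hW W x₀) (lW W x₀ y₀) y₀ (p.comp (X + C x₀)) (q.comp (X + C x₀))).1 *
        (co (hW W x₀) (lW W x₀ y₀) y₀ (p.comp (X + C x₀)) (q.comp (X + C x₀))).2 * hW W x₀ -
        (co (hW W x₀) (lW W x₀ y₀) y₀ (p.comp (X + C x₀)) (q.comp (X + C x₀))).2 ^ 2 *
          lW W x₀ y₀ = C ν := by
  obtain ⟨p, q, m, c, hm, hc, hnorm, hunit⟩ := exists_gen_norm h hn0 hn
  rw [phi_basis] at hunit
  obtain ⟨ν, hν, hνe⟩ := norm_unit hunit
  have hlin : (X + C x₀ : k[X]).natDegree = 1 := natDegree_X_add_C _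
  have hlin1 : (X + C x₀ : k[X]).leadingCoeff = 1 := leadingCoeff_X_add_C _
  have hpd : (p.comp (X + C x₀)).natDegree = p.natDegree := by rw [natDegree_comp, hlin, mul_one]
  have hqd : (q.comp (X + C x₀)).natDegree = q.natDegree := by rw [natDegree_comp, hlin, mul_one]
  have hpl : (p.comp (X + C x₀)).leadingCoeff = p.leadingCoeff := by
    rw [leadingCoeff_comp (by rw [hlin]; exact one_ne_zero), hlin1, one_pow, mul_one]
  have hql : (q.comp (X + C x₀)).leadingCoeff = q.leadingCoeff := by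
    rw [leadingCoeff_comp (by rw [hlin]; exact one_ne_zero), hlin1, one_pow, mul_one]
  have hNd : (C c * (X - C x₀) ^ m).natDegree = m := by
    rw [natDegree_C_mul hc, natDegree_pow, natDegree_X_sub_C, mul_one]
  have hNl : (C c * (X - C x₀) ^ m).coeff m = c := by
    have h1 : ((X - C x₀) ^ m).Monic := (monic_X_sub_C x₀).pow m
    have h2 : ((X - C x₀) ^ m).natDegree = m := by rw [natDegree_pow, natDegree_X_sub_C, mul_one]
    have h3 : ((X - C x₀) ^ m).coeff m = 1 := by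
      have h4 := h1.coeff_natDegree
      rwa [h2] at h4
    rw [coeff_C_mul, h3, mul_one]
  obtain ⟨hN1, hN2⟩ := lead_norm W.a₁ W.a₂ W.a₃ W.a₄ W.a₆ p q
  rw [hnorm, hNd] at hN1 hN2
  obtain ⟨hT1, hT2⟩ := lead_trace (hW_monic W x₀) (hW_natDegree W x₀) (lW_natDegree W x₀ y₀) y₀
    (p.comp (X + C x₀)) (q.comp (X + C x₀))
  rw [hpd, hqd, hpl] at hT1
  rw [hpd, hqd, hql] at hT2
  -- the leading coefficient
  obtain ⟨s, hs0, hsc, hsd, hsl⟩ : ∃ s : k, s ≠ 0 ∧ (s ^ 2 = c ∨ s ^ 2 = -c) ∧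
      (2 * (co (hW W x₀) (lW W x₀ y₀) y₀ (p.comp (X + C x₀)) (q.comp (X + C x₀))).1 +
        (co (hW W x₀) (lW W x₀ y₀) y₀ (p.comp (X + C x₀)) (q.comp (X + C x₀))).2 *
          hW W x₀).natDegree ≤ m ∧
      (2 * (co (hW W x₀) (lW W x₀ y₀) y₀ (p.comp (X + C x₀)) (q.comp (X + C x₀))).1 +
        (co (hW W x₀) (lW W x₀ y₀) y₀ (p.comp (X + C x₀)) (q.comp (X + C x₀))).2 *
          hW W x₀).coeff m = s := by
    by_cases hcase : q = 0 ∨ 2 * q.natDegree + 3 < 2 * p.natDegree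
    · obtain ⟨h1, h2⟩ := hN1 hcase
      have hp0 : p ≠ 0 := by
        rintro rfl
        rcases hcase with h3 | h3
        · rw [h3] at hnorm
          have h4 : C c * (X - C x₀) ^ m = 0 := by rw [← hnorm]; ring
          rw [h4] at hNl
          simp at hNl
          exact hc hNl.symm
        · simp at h3
      have h3 : 2 * p.natDegree = m := by
        by_contra h4
        have h5 : m < 2 * p.natDegree := lt_of_le_of_ne h1 (Ne.symm h4)
        have h6 : (C c * (X - C x₀) ^ m).coeff (2 * p.natDegree) = 0 :=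
          coeff_eq_zero_of_natDegree_lt (by rw [hNd]; exact h5)
        rw [h6] at h2
        exact (pow_ne_zero 2 (leadingCoeff_ne_zero.2 hp0)) h2.symm
      rw [h3, hNl] at h2
      have hcase' : q.comp (X + C x₀) = 0 ∨ 2 * q.natDegree + 3 < 2 * p.natDegree := by
        rcases hcase with h4 | h4
        · left; rw [h4, zero_comp]
        · exact Or.inr h4
      obtain ⟨h4, h5⟩ := hT1 hcase' (by omega)
      rw [h3] at h4 h5
      exact ⟨p.leadingCoeff, leadingCoeff_ne_zero.2 hp0, Or.inl h2.symm, h4, h5⟩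
    · push Not at hcase
      obtain ⟨hq0, hcase⟩ := hcase
      have hlt : 2 * p.natDegree < 2 * q.natDegree + 3 := by omega
      obtain ⟨h1, h2⟩ := hN2 hlt
      have h3 : 2 * q.natDegree + 3 = m := by
        by_contra h4
        have h5 : m < 2 * q.natDegree + 3 := lt_of_le_of_ne h1 (Ne.symm h4)
        have h6 : (C c * (X - C x₀) ^ m).coeff (2 * q.natDegree + 3) = 0 :=
          coeff_eq_zero_of_natDegree_lt (by rw [hNd]; exact h5)
        rw [h6] at h2
        exact (neg_ne_zero.2 (pow_ne_zero 2 (leadingCoeff_ne_zero.2 hq0))) h2.symm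
      rw [h3, hNl] at h2
      obtain ⟨h4, h5⟩ := hT2 hlt
      rw [h3] at h4 h5
      exact ⟨q.leadingCoeff, leadingCoeff_ne_zero.2 hq0, Or.inr (by rw [h2, neg_neg]), h4, h5⟩
  obtain ⟨e1, e2⟩ := co_smul (h := hW W x₀) (l := lW W x₀ y₀) y₀ s⁻¹ (p.comp (X + C x₀))
    (q.comp (X + C x₀))
  have e3 : (C s⁻¹ * p).comp (X + C x₀) = C s⁻¹ * p.comp (X + C x₀) := by rw [mul_comp, C_comp]
  have e4 : (C s⁻¹ * q).comp (X + C x₀) = C s⁻¹ * q.comp (X + C x₀) := by rw [mul_comp, C_comp]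
  set a := (co (hW W x₀) (lW W x₀ y₀) y₀ (p.comp (X + C x₀)) (q.comp (X + C x₀))).1 with ha
  set b := (co (hW W x₀) (lW W x₀ y₀) y₀ (p.comp (X + C x₀)) (q.comp (X + C x₀))).2 with hb
  have hmul : 2 * (C s⁻¹ * a) + C s⁻¹ * b * hW W x₀ = C s⁻¹ * (2 * a + b * hW W x₀) := by ring
  have hcoef : (C s⁻¹ * (2 * a + b * hW W x₀)).coeff m = 1 := by
    rw [coeff_C_mul, hsl, inv_mul_cancel₀ hs0]
  have hnd : (C s⁻¹ * (2 * a + b * hW W x₀)).natDegree = m := by
    refine natDegree_eq_of_le_of_coeff_ne_zero ((natDegree_C_mul_le _ _).trans hsd) ?_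
    rw [hcoef]
    exact one_ne_zero
  refine ⟨C s⁻¹ * p, C s⁻¹ * q, m, s⁻¹ ^ 2 * c, s⁻¹ ^ 2 * ν, hm, ?_, ?_, ?_, ?_, ?_, ?_⟩
  · rcases hsc with h1 | h1
    · left
      rw [← h1]
      field_simp
    · right
      have h2 : c = -s ^ 2 := by rw [h1, neg_neg]
      rw [h2]
      field_simp
  · exact mul_ne_zero (pow_ne_zero 2 (inv_ne_zero hs0)) hν
  · rw [C_mul, C_pow]
    linear_combination (C s⁻¹) ^ 2 * hnorm
  · rw [e3, e4, e1, e2, hmul]
    exact hnd
  · rw [e3, e4, e1, e2, hmul]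
    rw [Monic, leadingCoeff, hnd, hcoef]
  · rw [e3, e4, e1, e2, C_mul, C_pow]
    linear_combination (C s⁻¹) ^ 2 * hνe

end Norm

end Pool.Agent.E8helper67.EL
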